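import Mathlib

/-!
# Normal form of 8-dimensional commutative algebras generated by 4 elements
-/

universe u

namespace Pool.Agent.Helper97.Hilb8

namespace LI

variable {κ : Type u} [Field κ] {A : Type u} [CommRing A] [Algebra κ A]

theorem cm {V : Submodule κ A} {v : A} (hv : v ∈ V) (a : κ) : algebraMap κ A a * v ∈ V := by
  rw [← Algebra.smul_def]; exact V.smul_mem a hv

theorem cz {V : Submodule κ A} {v : A} (hv : v ∉ V) {a : κ} (h : algebraMap κ A a * v ∈ V) : a = 0 := by
  by_contra ha
  rw [← Algebra.smul_def] at h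
  exact hv ((V.smul_mem_iff ha).mp h)

theorem li6 {v0 v1 v2 v3 v4 v5 : A}
    (h : ∀ a b c d e f : κ, algebraMap κ A a * v0 + algebraMap κ A b * v1 + algebraMap κ A c * v2 + algebraMap κ A d * v3 + algebraMap κ A e * v4 + algebraMap κ A f * v5 = 0 →
      a = 0 ∧ b = 0 ∧ c = 0 ∧ d = 0 ∧ e = 0 ∧ f = 0) :
    LinearIndependent κ ![v0, v1, v2, v3, v4, v5] := by
  rw [Fintype.linearIndependent_iff]
  intro g hg
  rw [Fin.sum_univ_six] at hg
  simp only [Algebra.smul_def] at hg
  obtain ⟨h0, h1, h2, h3, h4, h5⟩ := h _ _ _ _ _ _ hg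
  intro i
  fin_cases i <;> assumption

theorem li7 {v0 v1 v2 v3 v4 v5 v6 : A}
    (h : ∀ a b c d e f g : κ,
      algebraMap κ A a * v0 + algebraMap κ A b * v1 + algebraMap κ A c * v2 + algebraMap κ A d * v3 + algebraMap κ A e * v4 + algebraMap κ A f * v5 + algebraMap κ A g * v6 = 0 →
      a = 0 ∧ b = 0 ∧ c = 0 ∧ d = 0 ∧ e = 0 ∧ f = 0 ∧ g = 0) :
    LinearIndependent κ ![v0, v1, v2, v3, v4, v5, v6] := by
  rw [Fintype.linearIndependent_iff]
  intro g hg
  rw [Fin.sum_univ_seven] at hg
  simp only [Algebra.smul_def] at hg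
  obtain ⟨h0, h1, h2, h3, h4, h5, h6⟩ := h _ _ _ _ _ _ _ hg
  intro i
  fin_cases i <;> assumption

theorem mem_sup_sing {V : Submodule κ A} {w v : A} :
    v ∈ V ⊔ Submodule.span κ {w} ↔ ∃ c : κ, ∃ u ∈ V, v = u + algebraMap κ A c * w := by
  rw [Submodule.mem_sup]
  constructor
  · rintro ⟨u, hu, s, hs, rfl⟩
    obtain ⟨c, rfl⟩ := Submodule.mem_span_singleton.mp hs
    exact ⟨c, u, hu, by rw [Algebra.smul_def]⟩
  · rintro ⟨c, u, hu, rfl⟩
    exact ⟨u, hu, algebraMap κ A c * w, by
      rw [← Algebra.smul_def]; exact Submodule.smul_mem _ _ (Submodule.mem_span_singleton_self w), rfl⟩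

/-- closed under multiplication by generators -/
theorem eq_top_of_closed {x : Fin 4 → A} (hx : Algebra.adjoin κ (Set.range x) = ⊤)
    {V1 W : Submodule κ A} (hxV : ∀ i, x i ∈ V1) (h1 : (1 : A) ∈ W)
    (hc : ∀ v ∈ V1, ∀ w ∈ W, v * w ∈ W) : W = ⊤ := by
  rw [eq_top_iff]
  rintro a -
  have ha : a ∈ Algebra.adjoin κ (Set.range x) := by rw [hx]; trivial
  have : ∀ w ∈ W, a * w ∈ W := by
    induction ha using Algebra.adjoin_induction with
    | mem b hb =>
      obtain ⟨i, rfl⟩ := hb
      exact hc _ (hxV i)
    | algebraMap r => intro w hw; exact cm hw r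
    | add b c _ _ hb hc => intro w hw; rw [add_mul]; exact W.add_mem (hb w hw) (hc w hw)
    | mul b c _ _ hb hc => intro w hw; rw [mul_assoc]; exact hb _ (hc w hw)
  have := this 1 h1
  rwa [mul_one] at this

/-- existence of an intermediate subspace of dimension `m` -/
theorem exists_finrank [FiniteDimensional κ A] (W : Submodule κ A) (m : ℕ)
    (h1 : Module.finrank κ W ≤ m) (h2 : m ≤ Module.finrank κ A) :
    ∃ V : Submodule κ A, W ≤ V ∧ Module.finrank κ V = m := by
  obtain ⟨d, hd⟩ := Nat.exists_eq_add_of_le h1
  induction d generalizing W with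
  | zero => exact ⟨W, le_rfl, by omega⟩
  | succ d ih =>
    have hne : W ≠ ⊤ := by
      rintro rfl
      rw [finrank_top] at hd; omega
    obtain ⟨v, -, hv⟩ := SetLike.exists_of_lt (lt_top_iff_ne_top.mpr hne)
    have hlt : W < W ⊔ Submodule.span κ {v} := by
      refine lt_of_le_of_ne le_sup_left fun h => hv ?_
      rw [h]
      exact Submodule.mem_sup_right (Submodule.mem_span_singleton_self v)
    have h3 := Submodule.finrank_lt_finrank_of_lt hlt
    have h4 : Module.finrank κ (W ⊔ Submodule.span κ {v} : Submodule κ A) ≤ Module.finrank κ W + 1 := by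
      refine (Submodule.finrank_add_le_finrank_add_finrank _ _).trans ?_
      have := finrank_span_le_card (R := κ) ({v} : Set A)
      simp at this
      omega
    obtain ⟨V, hV, hV2⟩ := ih (W ⊔ Submodule.span κ {v}) (by omega) (by omega)
    exact ⟨V, le_sup_left.trans hV, hV2⟩

theorem finrank_sup_sing_le [FiniteDimensional κ A] (W : Submodule κ A) (v : A) :
    Module.finrank κ (W ⊔ Submodule.span κ {v} : Submodule κ A) ≤ Module.finrank κ W + 1 := by
  refine (Submodule.finrank_add_le_finrank_add_finrank _ _).trans ?_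
  have := finrank_span_le_card (R := κ) ({v} : Set A)
  simp at this
  omega

theorem exists_notMem [FiniteDimensional κ A] {V W : Submodule κ A}
    (h : Module.finrank κ W < Module.finrank κ V) : ∃ v ∈ V, v ∉ W := by
  by_contra hcon
  push Not at hcon
  exact absurd (Submodule.finrank_mono (show V ≤ W from hcon)) (by omega)

/-- polarization -/
theorem polar (h2 : (2 : κ) ≠ 0) {V W : Submodule κ A} (h : ∀ v ∈ V, v * v ∈ W) :
    ∀ u ∈ V, ∀ v ∈ V, u * v ∈ W := by
  intro u hu v hv
  have h3 := W.sub_mem (W.sub_mem (h _ (V.add_mem hu hv)) (h u hu)) (h v hv)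
  have h4 : (u + v) * (u + v) - u * u - v * v = algebraMap κ A 2 * (u * v) := by
    rw [map_ofNat]; ring
  rw [h4] at h3
  have h5 := cm h3 (2⁻¹)
  rwa [← mul_assoc, ← map_mul, inv_mul_cancel₀ h2, map_one, one_mul] at h5

end LI

open LI in
/-- MODULE H8-I.  Normal form lemma for commutative algebras of dimension 8 generated by
4 elements over an infinite field of characteristic not 2. -/
theorem lemmaI {κ : Type u} [Field κ] [Infinite κ] (h2 : (2 : κ) ≠ 0)
    {A : Type u} [CommRing A] [Algebra κ A] (hA : Module.finrank κ A = 8)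
    (x : Fin 4 → A) (hx : Algebra.adjoin κ (Set.range x) = ⊤) :
    (∃ y z : A, LinearIndependent κ ![1, y, z, y * y, y * z, z * z]) ∨
    (∃ x y z : A, LinearIndependent κ ![1, x, y, z, z * z, y * z, x * z]) := by
  have hfd : FiniteDimensional κ A := FiniteDimensional.of_finrank_pos (by omega)
  have hnt : Nontrivial A := by
    by_contra h
    rw [not_nontrivial_iff_subsingleton] at h
    rw [Module.finrank_zero_of_subsingleton] at hA
    omega
  -- the subspace V1
  obtain ⟨V1, hV1, hd1⟩ := exists_finrank (Submodule.span κ (insert 1 (Set.range x))) 5 (by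
    have h1 : (insert 1 (Set.range x) : Set A) = Set.range (Fin.cons (1 : A) x : Fin 5 → A) := by
      rw [Fin.range_cons]
    rw [h1]
    exact finrank_range_le_card _) (by omega)
  have h1V : (1 : A) ∈ V1 := hV1 (Submodule.subset_span (Set.mem_insert _ _))
  have hxV : ∀ i, x i ∈ V1 := fun i =>
    hV1 (Submodule.subset_span (Set.mem_insert_of_mem _ ⟨i, rfl⟩))
  have hclosed : ∀ W : Submodule κ A, (1 : A) ∈ W → Module.finrank κ W < 8 →
      ¬ ∀ v ∈ V1, ∀ w ∈ W, v * w ∈ W := by
    intro W h1W hW hc
    have := eq_top_of_closed hx hxV h1W hc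
    rw [this, finrank_top] at hW
    omega
  have h1ne : ∀ a : κ, algebraMap κ A a = 0 → a = 0 := fun a ha =>
    (map_eq_zero_iff _ (algebraMap κ A).injective).mp ha
  -- the operator z ↦ W z
  let Wz : A → Submodule κ A := fun z => V1 ⊔ V1.map (LinearMap.mulLeft κ z)
  have hV1W : ∀ z, V1 ≤ Wz z := fun z => le_sup_left
  have hmW : ∀ z, ∀ v ∈ V1, z * v ∈ Wz z := fun z v hv =>
    Submodule.mem_sup_right ⟨v, hv, rfl⟩
  have hWmem : ∀ z a, a ∈ Wz z → ∃ v ∈ V1, ∃ w ∈ V1, a = v + z * w := by
    intro z a ha
    obtain ⟨v, hv, b, ⟨w, hw, rfl⟩, rfl⟩ := Submodule.mem_sup.mp ha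
    exact ⟨v, hv, w, hw, rfl⟩
  -- some square is not in V1
  have hex : ∃ z ∈ V1, z * z ∉ V1 := by
    by_contra hcon
    push Not at hcon
    exact hclosed V1 h1V (by omega) (polar h2 hcon)
  -- maximal z
  obtain ⟨z, ⟨hzV, hzz⟩, hmax⟩ : ∃ z, (z ∈ V1 ∧ z * z ∉ V1) ∧ ∀ z', z' ∈ V1 → z' * z' ∉ V1 →
      Module.finrank κ (Wz z') ≤ Module.finrank κ (Wz z) := by
    obtain ⟨z0, hz0⟩ := hex
    let S : Set ℕ := {n | ∃ z, (z ∈ V1 ∧ z * z ∉ V1) ∧ Module.finrank κ (Wz z) = n}
    have hS : S.Nonempty := ⟨_, z0, hz0, rfl⟩
    have hb : BddAbove S := ⟨8, by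
      rintro n ⟨z, -, rfl⟩
      rw [← hA]; exact Submodule.finrank_le _⟩
    obtain ⟨z, hz, hz2⟩ := Nat.sSup_mem hS hb
    exact ⟨z, hz, fun z' h1 h2 => by rw [hz2]; exact le_csSup hb ⟨z', ⟨h1, h2⟩, rfl⟩⟩
  by_cases hb : ∃ y z : A, LinearIndependent κ ![1, y, z, y * y, y * z, z * z]
  · exact Or.inl hb
  right
  set V2 := Wz z with hV2def
  have hV12 : V1 ≤ V2 := hV1W z
  have hzzV2 : z * z ∈ V2 := hmW z z hzV
  have hzV2 : ∀ v ∈ V1, z * v ∈ V2 := hmW z
  set U1 := V1 ⊔ Submodule.span κ {z * z} with hU1def
  have hU1V2 : U1 ≤ V2 := by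
    rw [hU1def]
    refine sup_le hV12 ?_
    rw [Submodule.span_singleton_le_iff_mem]; exact hzzV2
  have hzzU1 : z * z ∈ U1 := Submodule.mem_sup_right (Submodule.mem_span_singleton_self _)
  have hV1U1 : V1 ≤ U1 := le_sup_left
  have hdU1 : Module.finrank κ U1 = 6 := by
    have h3 : V1 < U1 := lt_of_le_of_ne hV1U1 fun h => hzz (h ▸ hzzU1)
    have h4 := Submodule.finrank_lt_finrank_of_lt h3
    have h5 : Module.finrank κ U1 ≤ Module.finrank κ V1 + 1 := finrank_sup_sing_le V1 (z * z)
    omega
  have hd2 : Module.finrank κ V2 ≤ 8 := by rw [← hA]; exact Submodule.finrank_le _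
  have hd2' : 6 ≤ Module.finrank κ V2 := by rw [← hdU1]; exact Submodule.finrank_mono hU1V2
  by_cases h8 : Module.finrank κ V2 = 8
  · -- r = 3
    obtain ⟨y, hyV, hy⟩ : ∃ y ∈ V1, z * y ∉ U1 := by
      by_contra hcon
      push Not at hcon
      have : V2 ≤ U1 := by
        intro a ha
        obtain ⟨v, hv, w, hw, rfl⟩ := hWmem z a ha
        exact U1.add_mem (hV1U1 hv) (hcon w hw)
      have := Submodule.finrank_mono this
      omega
    set U2 := U1 ⊔ Submodule.span κ {z * y} with hU2def
    have hdU2 : Module.finrank κ U2 ≤ 7 := by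
      have : Module.finrank κ U2 ≤ Module.finrank κ U1 + 1 := finrank_sup_sing_le U1 (z * y)
      omega
    obtain ⟨x', hxV', hx'⟩ : ∃ x' ∈ V1, z * x' ∉ U2 := by
      by_contra hcon
      push Not at hcon
      have : V2 ≤ U2 := by
        intro a ha
        obtain ⟨v, hv, w, hw, rfl⟩ := hWmem z a ha
        exact U2.add_mem ((le_sup_left : U1 ≤ U2) (hV1U1 hv)) (hcon w hw)
      have := Submodule.finrank_mono this
      omega
    -- independence mod V1
    have hind : ∀ e f g : κ, algebraMap κ A e * (z * z) + algebraMap κ A f * (y * z) +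
        algebraMap κ A g * (x' * z) ∈ V1 → e = 0 ∧ f = 0 ∧ g = 0 := by
      intro e f g h
      have hg : g = 0 := by
        apply cz hx'
        have e1 : algebraMap κ A g * (z * x') = (algebraMap κ A e * (z * z) +
          algebraMap κ A f * (y * z) + algebraMap κ A g * (x' * z)) -
          algebraMap κ A e * (z * z) - algebraMap κ A f * (z * y) := by ring
        rw [e1]
        refine U2.sub_mem (U2.sub_mem ((le_sup_left : U1 ≤ U2) (hV1U1 h))
          ((le_sup_left : U1 ≤ U2) (cm hzzU1 e))) (cm ?_ f)
        exact Submodule.mem_sup_right (Submodule.mem_span_singleton_self _)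
      subst hg
      have hf : f = 0 := by
        apply cz hy
        have e1 : algebraMap κ A f * (z * y) = (algebraMap κ A e * (z * z) +
          algebraMap κ A f * (y * z) + algebraMap κ A 0 * (x' * z)) -
          algebraMap κ A e * (z * z) := by rw [map_zero]; ring
        rw [e1]
        exact U1.sub_mem (hV1U1 h) (cm hzzU1 e)
      subst hf
      have he : e = 0 := by
        apply cz hzz
        simpa using h
      exact ⟨he, rfl, rfl⟩
    refine ⟨x', y, z, li7 fun a b c d e f g h => ?_⟩
    obtain ⟨he, hf, hg⟩ := hind e f g (by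
      have e1 : algebraMap κ A e * (z * z) + algebraMap κ A f * (y * z) +
        algebraMap κ A g * (x' * z) = -(algebraMap κ A a * 1 + algebraMap κ A b * x' +
          algebraMap κ A c * y + algebraMap κ A d * z) := by linear_combination h
      rw [e1]
      exact V1.neg_mem (V1.add_mem (V1.add_mem (V1.add_mem (cm h1V a) (cm hxV' b)) (cm hyV c))
        (cm hzV d)))
    subst he hf hg
    simp only [map_zero, zero_mul, add_zero, mul_one] at h
    obtain ⟨hd, hc, hb'⟩ := hind d c b (by
      have e1 : algebraMap κ A d * (z * z) + algebraMap κ A c * (y * z) +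
        algebraMap κ A b * (x' * z) = -(algebraMap κ A a * z) := by linear_combination z * h
      rw [e1]
      exact V1.neg_mem (cm hzV a))
    subst hd hc hb'
    simp only [map_zero, zero_mul, add_zero] at h
    exact ⟨h1ne a h, rfl, rfl, rfl, rfl, rfl, rfl⟩
  -- CLAIM
  have claim : ∀ u ∈ V1, ∀ v ∈ V1, u * v ∈ V2 := by
    refine polar h2 fun y hy => ?_
    by_contra hyy
    have star : ∀ y' ∈ V1, y' * y' ∉ V2 → z * y' ∈ U1 := by
      intro y' hy' hyy'
      by_contra hcon
      apply hb
      refine ⟨y', z, li6 fun a b c d e f h => ?_⟩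
      have hy'z : z * y' ∈ V2 := hzV2 y' hy'
      have hd : d = 0 := by
        apply cz hyy'
        have e1 : algebraMap κ A d * (y' * y') = -(algebraMap κ A a * 1 + algebraMap κ A b * y' +
          algebraMap κ A c * z + algebraMap κ A e * (z * y') + algebraMap κ A f * (z * z)) := by
          linear_combination h
        rw [e1]
        exact V2.neg_mem (V2.add_mem (V2.add_mem (V2.add_mem (V2.add_mem (cm (hV12 h1V) a)
          (cm (hV12 hy') b)) (cm (hV12 hzV) c)) (cm hy'z e)) (cm hzzV2 f))
      subst hd
      have he : e = 0 := by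
        apply cz hcon
        have e1 : algebraMap κ A e * (z * y') = -(algebraMap κ A a * 1 + algebraMap κ A b * y' +
          algebraMap κ A c * z + algebraMap κ A f * (z * z)) := by
          rw [map_zero] at h
          linear_combination h
        rw [e1]
        exact U1.neg_mem (U1.add_mem (U1.add_mem (U1.add_mem (cm (hV1U1 h1V) a)
          (cm (hV1U1 hy') b)) (cm (hV1U1 hzV) c)) (cm hzzU1 f))
      subst he
      have hf : f = 0 := by
        apply cz hzz
        have e1 : algebraMap κ A f * (z * z) = -(algebraMap κ A a * 1 + algebraMap κ A b * y' +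
          algebraMap κ A c * z) := by
          rw [map_zero] at h
          linear_combination h
        rw [e1]
        exact V1.neg_mem (V1.add_mem (V1.add_mem (cm h1V a) (cm hy' b)) (cm hzV c))
      subst hf
      simp only [map_zero, zero_mul, add_zero, mul_one] at h
      have hb' : b = 0 := by
        apply cz hcon
        have e1 : algebraMap κ A b * (z * y') = -(algebraMap κ A a * z +
          algebraMap κ A c * (z * z)) := by linear_combination z * h
        rw [e1]
        exact U1.neg_mem (U1.add_mem (cm (hV1U1 hzV) a) (cm hzzU1 c))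
      subst hb'
      have hc : c = 0 := by
        apply cz hzz
        have e1 : algebraMap κ A c * (z * z) = -(algebraMap κ A a * z) := by
          rw [map_zero] at h
          linear_combination z * h
        rw [e1]
        exact V1.neg_mem (cm hzV a)
      subst hc
      simp only [map_zero, zero_mul, add_zero] at h
      exact ⟨h1ne a h, rfl, rfl, rfl, rfl, rfl⟩
    have hyz := star y hy hyy
    have hall : ∀ v ∈ V1, z * v ∈ U1 := by
      intro v hv
      -- find t ≠ 0 with (y + t v)^2 ∉ V2
      obtain ⟨t, ht0, ht⟩ : ∃ t : κ, t ≠ 0 ∧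
          (y + algebraMap κ A t * v) * (y + algebraMap κ A t * v) ∉ V2 := by
        by_contra hcon
        push Not at hcon
        obtain ⟨l, hl1, hl2⟩ := Submodule.exists_le_ker_of_notMem hyy
        let P : Polynomial κ := Polynomial.C (l (y * y)) + Polynomial.C (2 * l (y * v)) * Polynomial.X
          + Polynomial.C (l (v * v)) * Polynomial.X ^ 2
        have hP : Polynomial.X * P = 0 := by
          apply Polynomial.funext
          intro t
          by_cases ht : t = 0
          · subst ht; simp
          · have h3 := hl2 (hcon t ht)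
            rw [LinearMap.mem_ker] at h3
            have h4 : (y + algebraMap κ A t * v) * (y + algebraMap κ A t * v) =
                y * y + (2 * t) • (y * v) + (t ^ 2) • (v * v) := by
              rw [Algebra.smul_def, Algebra.smul_def, map_mul, map_pow, map_ofNat]; ring
            rw [h4, map_add, map_add, map_smul, map_smul, smul_eq_mul, smul_eq_mul] at h3
            simp only [P, Polynomial.eval_mul, Polynomial.eval_X, Polynomial.eval_add,
              Polynomial.eval_C, Polynomial.eval_pow, Polynomial.eval_zero]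
            linear_combination t * h3
        rcases mul_eq_zero.mp hP with h3 | h3
        · exact Polynomial.X_ne_zero h3
        · have h4 := congrArg (fun p => Polynomial.eval 0 p) h3
          simp only [P, Polynomial.eval_add, Polynomial.eval_C, Polynomial.eval_mul,
            Polynomial.eval_X, Polynomial.eval_pow, Polynomial.eval_zero] at h4
          apply hl1
          simpa using h4
      have h3 := star (y + algebraMap κ A t * v) (V1.add_mem hy (cm hv t)) ht
      have h4 : z * v = algebraMap κ A t⁻¹ * (z * (y + algebraMap κ A t * v) - z * y) := by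
        have : algebraMap κ A t⁻¹ * algebraMap κ A t = 1 := by
          rw [← map_mul, inv_mul_cancel₀ ht0, map_one]
        linear_combination (-(z * v)) * this
      rw [h4]
      exact cm (U1.sub_mem h3 hyz) _
    have hV2U1 : V2 ≤ U1 := by
      intro a ha
      obtain ⟨v, hv, w, hw, rfl⟩ := hWmem z a ha
      exact U1.add_mem (hV1U1 hv) (hall w hw)
    obtain ⟨c, w, hw, hyzc⟩ := mem_sup_sing.mp hyz
    -- y' = y - c z
    set y' := y - algebraMap κ A c * z with hy'def
    have hy'V : y' ∈ V1 := V1.sub_mem hy (cm hzV c)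
    have hy'z : z * y' = w := by rw [hy'def]; linear_combination hyzc
    have hy'y' : y' * y' ∉ V2 := by
      intro hcon
      apply hyy
      have e1 : y * y = y' * y' + algebraMap κ A (2 * c) * (z * y) -
          algebraMap κ A (c ^ 2) * (z * z) := by
        rw [hy'def, map_mul, map_pow, map_ofNat]; ring
      rw [e1]
      exact V2.sub_mem (V2.add_mem hcon (cm (hzV2 y hy) _)) (cm hzzV2 _)
    have hz'V : y' + z ∈ V1 := V1.add_mem hy'V hzV
    have hz'z' : (y' + z) * (y' + z) ∉ V1 := by
      intro hcon
      apply hy'y'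
      have e1 : y' * y' = (y' + z) * (y' + z) - algebraMap κ A 2 * (z * y') - z * z := by
        rw [map_ofNat]; ring
      rw [e1]
      exact V2.sub_mem (V2.sub_mem (hV12 hcon) (cm (hzV2 y' hy'V) 2)) hzzV2
    have hm := hmax (y' + z) hz'V hz'z'
    have hwW : w ∈ Wz (y' + z) := hV1W _ hw
    have hzzW : z * z ∈ Wz (y' + z) := by
      have e1 : z * z = (y' + z) * z - w := by rw [← hy'z]; ring
      rw [e1]
      exact (Wz (y' + z)).sub_mem (hmW _ z hzV) hwW
    have hyyW : y' * y' ∈ Wz (y' + z) := by
      have e1 : y' * y' = (y' + z) * y' - w := by rw [← hy'z]; ring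
      rw [e1]
      exact (Wz (y' + z)).sub_mem (hmW _ y' hy'V) hwW
    have hle : V2 ≤ Wz (y' + z) := by
      refine hV2U1.trans ?_
      rw [hU1def]
      refine sup_le (hV1W _) ?_
      rw [Submodule.span_singleton_le_iff_mem]; exact hzzW
    have hlt : V2 < Wz (y' + z) := lt_of_le_of_ne hle fun h => hy'y' (h ▸ hyyW)
    have := Submodule.finrank_lt_finrank_of_lt hlt
    omega
  -- small linear algebra: y outside the span of 1, x, z
  have hspan : ∀ p q r : A, Module.finrank κ (Submodule.span κ ({p, q, r} : Set A)) ≤ 3 := by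
    intro p q r
    classical
    have h3 := finrank_span_finset_le_card (R := κ) ({p, q, r} : Finset A)
    have h4 : (({p, q, r} : Finset A)).card ≤ 3 := Finset.card_le_three
    have h5 : (↑({p, q, r} : Finset A) : Set A) = {p, q, r} := by simp
    rw [h5] at h3
    exact h3.trans h4
  have hnot : ∀ p q r s : A, s ∉ Submodule.span κ ({p, q, r} : Set A) → ∀ a b c d : κ,
      algebraMap κ A a * p + algebraMap κ A b * q + algebraMap κ A c * r +
        algebraMap κ A d * s = 0 → d = 0 := by
    intro p q r s hs a b c d h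
    apply cz hs
    have e1 : algebraMap κ A d * s = -(algebraMap κ A a * p + algebraMap κ A b * q +
      algebraMap κ A c * r) := by linear_combination h
    rw [e1]
    refine Submodule.neg_mem _ (Submodule.add_mem _ (Submodule.add_mem _ (cm ?_ a) (cm ?_ b))
      (cm ?_ c)) <;> apply Submodule.subset_span <;> simp
  by_cases h7 : Module.finrank κ V2 = 7
  · -- r = 2
    have hnz : ¬ ∀ v ∈ V1, z * z * v ∈ V2 := by
      intro hcon
      refine hclosed V2 (hV12 h1V) (by omega) ?_
      intro u hu a ha
      obtain ⟨v, hv, w, hw, rfl⟩ := hWmem z a ha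
      obtain ⟨v', hv', w', hw', he⟩ := hWmem z (u * w) (claim u hu w hw)
      have e1 : u * (v + z * w) = u * v + z * v' + z * z * w' := by
        linear_combination z * he
      rw [e1]
      exact V2.add_mem (V2.add_mem (claim u hu v hv) (hzV2 v' hv')) (hcon w' hw')
    by_cases hzzz : z * z * z ∉ V2
    · -- (i)
      obtain ⟨x', hxV', hx'⟩ : ∃ x' ∈ V1, z * x' ∉ U1 := by
        by_contra hcon
        push Not at hcon
        have : V2 ≤ U1 := by
          intro a ha
          obtain ⟨v, hv, w, hw, rfl⟩ := hWmem z a ha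
          exact U1.add_mem (hV1U1 hv) (hcon w hw)
        have := Submodule.finrank_mono this
        omega
      obtain ⟨y, hyV, hy⟩ : ∃ y ∈ V1, y ∉ Submodule.span κ ({1, x', z} : Set A) :=
        exists_notMem (lt_of_le_of_lt (hspan 1 x' z) (by omega))
      refine ⟨x', z * z + y, z, li7 fun a b c d e f g h => ?_⟩
      have hf : f = 0 := by
        apply cz hzzz
        have e1 : algebraMap κ A f * (z * z * z) = -(algebraMap κ A a * 1 +
            algebraMap κ A b * x' + algebraMap κ A c * (z * z + y) + algebraMap κ A d * z +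
            algebraMap κ A e * (z * z) + algebraMap κ A f * (z * y) +
            algebraMap κ A g * (z * x')) := by linear_combination h
        rw [e1]
        exact V2.neg_mem (V2.add_mem (V2.add_mem (V2.add_mem (V2.add_mem (V2.add_mem
          (V2.add_mem (cm (hV12 h1V) a) (cm (hV12 hxV') b)) (cm (V2.add_mem hzzV2 (hV12 hyV)) c))
          (cm (hV12 hzV) d)) (cm hzzV2 e)) (cm (hzV2 y hyV) f)) (cm (hzV2 x' hxV') g))
      subst hf
      simp only [map_zero, zero_mul, add_zero, mul_one] at h
      have hg : g = 0 := by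
        apply cz hx'
        have e1 : algebraMap κ A g * (z * x') = -(algebraMap κ A a * 1 +
            algebraMap κ A b * x' + algebraMap κ A c * (z * z + y) + algebraMap κ A d * z +
            algebraMap κ A e * (z * z)) := by linear_combination h
        rw [e1]
        exact U1.neg_mem (U1.add_mem (U1.add_mem (U1.add_mem (U1.add_mem (cm (hV1U1 h1V) a)
          (cm (hV1U1 hxV') b)) (cm (U1.add_mem hzzU1 (hV1U1 hyV)) c)) (cm (hV1U1 hzV) d))
          (cm hzzU1 e))
      subst hg
      simp only [map_zero, zero_mul, add_zero] at h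
      have hce : c + e = 0 := by
        apply cz hzz
        have e1 : algebraMap κ A (c + e) * (z * z) = -(algebraMap κ A a * 1 +
            algebraMap κ A b * x' + algebraMap κ A c * y + algebraMap κ A d * z) := by
          rw [map_add]; linear_combination h
        rw [e1]
        exact V1.neg_mem (V1.add_mem (V1.add_mem (V1.add_mem (cm h1V a) (cm hxV' b)) (cm hyV c))
          (cm hzV d))
      have hec : e = -c := by linear_combination hce
      subst hec
      rw [map_neg] at h
      have h3 : algebraMap κ A a * 1 + algebraMap κ A b * x' + algebraMap κ A d * z +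
        algebraMap κ A c * y = 0 := by linear_combination h
      have hc := hnot 1 x' z y hy a b d c h3
      subst hc
      simp only [map_zero, zero_mul, add_zero, mul_one] at h3
      have hb' : b = 0 := by
        apply cz hx'
        have e1 : algebraMap κ A b * (z * x') = -(algebraMap κ A a * z +
          algebraMap κ A d * (z * z)) := by linear_combination z * h3
        rw [e1]
        exact U1.neg_mem (U1.add_mem (cm (hV1U1 hzV) a) (cm hzzU1 d))
      subst hb'
      simp only [map_zero, zero_mul, add_zero] at h3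
      have hd : d = 0 := by
        apply cz hzz
        have e1 : algebraMap κ A d * (z * z) = -(algebraMap κ A a * z) := by
          linear_combination z * h3
        rw [e1]
        exact V1.neg_mem (cm hzV a)
      subst hd
      simp only [map_zero, zero_mul, add_zero] at h3
      exact ⟨h1ne a h3, rfl, rfl, rfl, by simp, rfl, rfl⟩
    · -- (ii)
      rw [not_not] at hzzz
      push Not at hnz
      obtain ⟨x', hxV', hx'⟩ := hnz
      have hind : ∀ e g : κ, algebraMap κ A e * (z * z) + algebraMap κ A g * (z * x') ∈ V1 →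
          e = 0 ∧ g = 0 := by
        intro e g h
        have hg : g = 0 := by
          apply cz hx'
          have e1 : algebraMap κ A g * (z * z * x') = z * (algebraMap κ A e * (z * z) +
            algebraMap κ A g * (z * x')) - algebraMap κ A e * (z * z * z) := by ring
          rw [e1]
          exact V2.sub_mem (hzV2 _ h) (cm hzzz e)
        subst hg
        refine ⟨cz hzz ?_, rfl⟩
        simpa using h
      obtain ⟨y, hyV, hy⟩ : ∃ y ∈ V1, y ∉ Submodule.span κ ({1, x', z} : Set A) :=
        exists_notMem (lt_of_le_of_lt (hspan 1 x' z) (by omega))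
      refine ⟨x', z * x' + y, z, li7 fun a b c d e f g h => ?_⟩
      have hf : f = 0 := by
        apply cz hx'
        have e1 : algebraMap κ A f * (z * z * x') = -(algebraMap κ A a * 1 +
            algebraMap κ A b * x' + algebraMap κ A c * (z * x' + y) + algebraMap κ A d * z +
            algebraMap κ A e * (z * z) + algebraMap κ A f * (z * y) +
            algebraMap κ A g * (z * x')) := by linear_combination h
        rw [e1]
        exact V2.neg_mem (V2.add_mem (V2.add_mem (V2.add_mem (V2.add_mem (V2.add_mem
          (V2.add_mem (cm (hV12 h1V) a) (cm (hV12 hxV') b))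
          (cm (V2.add_mem (hzV2 x' hxV') (hV12 hyV)) c))
          (cm (hV12 hzV) d)) (cm hzzV2 e)) (cm (hzV2 y hyV) f)) (cm (hzV2 x' hxV') g))
      subst hf
      simp only [map_zero, zero_mul, add_zero, mul_one] at h
      obtain ⟨he, hcg⟩ := hind e (c + g) (by
        have e1 : algebraMap κ A e * (z * z) + algebraMap κ A (c + g) * (z * x') =
            -(algebraMap κ A a * 1 + algebraMap κ A b * x' + algebraMap κ A c * y +
            algebraMap κ A d * z) := by rw [map_add]; linear_combination h
        rw [e1]
        exact V1.neg_mem (V1.add_mem (V1.add_mem (V1.add_mem (cm h1V a) (cm hxV' b)) (cm hyV c))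
          (cm hzV d)))
      subst he
      have hgc : g = -c := by linear_combination hcg
      subst hgc
      rw [map_neg] at h
      have h3 : algebraMap κ A a * 1 + algebraMap κ A b * x' + algebraMap κ A d * z +
        algebraMap κ A c * y = 0 := by
          rw [map_zero] at h
          linear_combination h
      have hc := hnot 1 x' z y hy a b d c h3
      subst hc
      simp only [map_zero, zero_mul, add_zero, mul_one] at h3
      obtain ⟨hd, hb'⟩ := hind d b (by
        have e1 : algebraMap κ A d * (z * z) + algebraMap κ A b * (z * x') =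
          -(algebraMap κ A a * z) := by linear_combination z * h3
        rw [e1]
        exact V1.neg_mem (cm hzV a))
      subst hd hb'
      simp only [map_zero, zero_mul, add_zero] at h3
      exact ⟨h1ne a h3, rfl, rfl, rfl, rfl, rfl, by simp⟩
  · -- r = 1
    have h6 : Module.finrank κ V2 = 6 := by omega
    have hVU : U1 = V2 := Submodule.eq_of_le_of_finrank_eq hU1V2 (by omega)
    have hzv : ∀ v ∈ V1, ∃ c : κ, ∃ w ∈ V1, z * v = w + algebraMap κ A c * (z * z) := by
      intro v hv
      have := hzV2 v hv
      rw [← hVU] at this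
      exact mem_sup_sing.mp this
    have hmem2 : ∀ a ∈ V2, ∃ c : κ, ∃ w ∈ V1, a = w + algebraMap κ A c * (z * z) := by
      intro a ha
      rw [← hVU] at ha
      exact mem_sup_sing.mp ha
    have hzzz : z * z * z ∉ V2 := by
      intro hcon
      refine hclosed V2 (hV12 h1V) (by omega) ?_
      intro u hu a ha
      obtain ⟨c, v, hv, rfl⟩ := hmem2 a ha
      obtain ⟨c', v', hv', he⟩ := hzv u hu
      have e1 : u * (v + algebraMap κ A c * (z * z)) = u * v + algebraMap κ A c * (z * v') +
          algebraMap κ A (c * c') * (z * z * z) := by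
        rw [map_mul]; linear_combination (algebraMap κ A c * z) * he
      rw [e1]
      exact V2.add_mem (V2.add_mem (claim u hu v hv) (cm (hzV2 v' hv') c)) (cm hcon _)
    set V3 := V2 ⊔ Submodule.span κ {z * z * z} with hV3def
    have hV23 : V2 ≤ V3 := le_sup_left
    have hzzzV3 : z * z * z ∈ V3 := Submodule.mem_sup_right (Submodule.mem_span_singleton_self _)
    have hd3 : Module.finrank κ V3 ≤ 7 := by
      have : Module.finrank κ V3 ≤ Module.finrank κ V2 + 1 := finrank_sup_sing_le V2 _
      omega
    have hzzv : ∀ v ∈ V1, z * z * v ∈ V3 := by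
      intro v hv
      obtain ⟨c, w, hw, he⟩ := hzv v hv
      have e1 : z * z * v = z * w + algebraMap κ A c * (z * z * z) := by
        linear_combination z * he
      rw [e1]
      exact V3.add_mem (hV23 (hzV2 w hw)) (cm hzzzV3 c)
    have hz4 : z * z * z * z ∉ V3 := by
      intro hcon
      refine hclosed V3 (hV23 (hV12 h1V)) (by omega) ?_
      intro u hu a ha
      obtain ⟨c, b, hb', rfl⟩ := mem_sup_sing.mp ha
      obtain ⟨c', v, hv, rfl⟩ := hmem2 b hb'
      obtain ⟨c'', v', hv', he⟩ := hzv u hu
      have e1 : u * (v + algebraMap κ A c' * (z * z) + algebraMap κ A c * (z * z * z)) =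
          u * v + algebraMap κ A c' * (z * z * u) + algebraMap κ A c * (z * z * v') +
          algebraMap κ A (c * c'') * (z * z * z * z) := by
        rw [map_mul]; linear_combination (algebraMap κ A c * z * z) * he
      rw [e1]
      exact V3.add_mem (V3.add_mem (V3.add_mem (hV23 (claim u hu v hv)) (cm (hzzv u hu) _))
        (cm (hzzv v' hv') _)) (cm hcon _)
    obtain ⟨x', hxV', hx'⟩ : ∃ x' ∈ V1, x' ∉ Submodule.span κ ({1, 1, z} : Set A) :=
      exists_notMem (lt_of_le_of_lt (hspan 1 1 z) (by omega))
    obtain ⟨y, hyV, hy⟩ : ∃ y ∈ V1, y ∉ Submodule.span κ ({1, x', z} : Set A) :=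
      exists_notMem (lt_of_le_of_lt (hspan 1 x' z) (by omega))
    obtain ⟨dd, w, hw, hxz⟩ := hzv x' hxV'
    obtain ⟨lam, hlam⟩ : ∃ lam : κ, algebraMap κ A lam * y - w ∉
        Submodule.span κ ({1, x', z} : Set A) := by
      by_cases hws : w ∈ Submodule.span κ ({1, x', z} : Set A)
      · refine ⟨1, fun hcon => hy ?_⟩
        have := Submodule.add_mem _ hcon hws
        simpa using this
      · refine ⟨0, fun hcon => hws ?_⟩
        have := Submodule.neg_mem _ hcon
        simpa using this
    refine ⟨z * z + x', z * z * z + algebraMap κ A lam * y, z, li7 fun a b c e f g k h => ?_⟩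
    have hzxV2 : z * x' ∈ V2 := hzV2 x' hxV'
    have hzyV2 : z * y ∈ V2 := hzV2 y hyV
    have hg : g = 0 := by
      apply cz hz4
      have e1 : algebraMap κ A g * (z * z * z * z) = -(algebraMap κ A a * 1 +
          algebraMap κ A b * (z * z + x') + algebraMap κ A c * (z * z * z + algebraMap κ A lam * y) +
          algebraMap κ A e * z + algebraMap κ A f * (z * z) +
          algebraMap κ A g * (algebraMap κ A lam * (z * y)) +
          algebraMap κ A k * (z * z * z + z * x')) := by linear_combination h
      rw [e1]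
      exact V3.neg_mem (V3.add_mem (V3.add_mem (V3.add_mem (V3.add_mem (V3.add_mem
        (V3.add_mem (cm (hV23 (hV12 h1V)) a) (cm (V3.add_mem (hV23 hzzV2) (hV23 (hV12 hxV'))) b))
        (cm (V3.add_mem hzzzV3 (cm (hV23 (hV12 hyV)) lam)) c)) (cm (hV23 (hV12 hzV)) e))
        (cm (hV23 hzzV2) f)) (cm (cm (hV23 hzyV2) lam) g)) (cm (V3.add_mem hzzzV3 (hV23 hzxV2)) k))
    subst hg
    simp only [map_zero, zero_mul, add_zero, mul_one] at h
    have hck : c + k = 0 := by
      apply cz hzzz
      have e1 : algebraMap κ A (c + k) * (z * z * z) = -(algebraMap κ A a * 1 +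
          algebraMap κ A b * (z * z + x') + algebraMap κ A c * (algebraMap κ A lam * y) +
          algebraMap κ A e * z + algebraMap κ A f * (z * z) +
          algebraMap κ A k * (z * x')) := by rw [map_add]; linear_combination h
      rw [e1]
      exact V2.neg_mem (V2.add_mem (V2.add_mem (V2.add_mem (V2.add_mem
        (V2.add_mem (cm (hV12 h1V) a) (cm (V2.add_mem hzzV2 (hV12 hxV')) b))
        (cm (cm (hV12 hyV) lam) c)) (cm (hV12 hzV) e)) (cm hzzV2 f)) (cm hzxV2 k))
    have hkc : k = -c := by linear_combination hck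
    subst hkc
    rw [map_neg] at h
    have hbf : b + f + -c * dd = 0 := by
      apply cz hzz
      have e1 : algebraMap κ A (b + f + -c * dd) * (z * z) = -(algebraMap κ A a * 1 +
          algebraMap κ A b * x' + algebraMap κ A c * (algebraMap κ A lam * y - w) +
          algebraMap κ A e * z) := by
        rw [map_add, map_add, map_mul, map_neg]
        linear_combination h + algebraMap κ A c * hxz
      rw [e1]
      exact V1.neg_mem (V1.add_mem (V1.add_mem (V1.add_mem (cm h1V a) (cm hxV' b))
        (cm (V1.sub_mem (cm hyV lam) hw) c)) (cm hzV e))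
    have h3 : algebraMap κ A a * 1 + algebraMap κ A b * x' + algebraMap κ A e * z +
        algebraMap κ A c * (algebraMap κ A lam * y - w) = 0 := by
      have h4 : algebraMap κ A (b + f + -c * dd) = 0 := by rw [hbf, map_zero]
      rw [map_add, map_add, map_mul, map_neg] at h4
      linear_combination h + algebraMap κ A c * hxz - z * z * h4
    have hc := hnot 1 x' z _ hlam a b e c h3
    subst hc
    simp only [map_zero, zero_mul, add_zero, mul_one] at h3
    have hb' : b = 0 := by
      refine hnot 1 1 z x' hx' a 0 e b ?_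
      rw [map_zero]; linear_combination h3
    subst hb'
    simp only [map_zero, zero_mul, add_zero] at h3
    have he : e = 0 := by
      apply cz hzz
      have e1 : algebraMap κ A e * (z * z) = -(algebraMap κ A a * z) := by
        linear_combination z * h3
      rw [e1]
      exact V1.neg_mem (cm hzV a)
    subst he
    simp only [map_zero, zero_mul, add_zero] at h3
    have hf : f = 0 := by linear_combination hbf
    exact ⟨h1ne a h3, rfl, rfl, rfl, hf, rfl, by simp⟩

end Pool.Agent.Helper97.Hilb8
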