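import Pool.Agent.Helper97.Hilb8.Defs
import Pool.Agent.Helper98.Hilb8.Wrap

open AlgebraicGeometry CategoryTheory

universe u

namespace Pool.Agent.Helper97.Hilb8

/-- `VersalLift k O A`: the finite free `O`-algebra `A` of rank 8 is the base change, along a
homomorphism of `k`-algebras `χ : R → O`, of a free algebra `E` of rank 8 over a REDUCED
`k`-algebra `R`. -/
def VersalLift (k : Type u) [Field k] (O : Type u) [CommRing O] [Algebra k O]
    (A : Type u) [CommRing A] [Algebra O A] : Prop :=
  ∃ (R : Type u) (_ : CommRing R) (_ : Algebra k R) (E : Type u) (_ : CommRing E)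
    (_ : Algebra R E) (e : Module.Basis (Fin 8) R E) (χ : R →ₐ[k] O) (φ : E →+* A)
    (b : Module.Basis (Fin 8) O A), _root_.IsReduced R ∧
      (∀ r, φ (algebraMap R E r) = algebraMap O A (χ r)) ∧ ∀ i, φ (e i) = b i

open Pool.Agent.Helper98.Hilb8 in
/-- MODULE H8-III. -/
theorem isReduced_of_versalLift (k : Type u) [Field k] (H : Scheme.{u})
    (s : H ⟶ Spec (CommRingCat.of k)) (h : HilbRep k H s)
    (hv : ∀ (O : Type u) [CommRing O] [IsLocalRing O] [Algebra k O]
      (A : Type u) [CommRing A] [Algebra O A] (_ : Module.Basis (Fin 8) O A)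
      (x : Fin 4 → A), Algebra.adjoin O (Set.range x) = ⊤ → VersalLift k O A) :
    AlgebraicGeometry.IsReduced H := by
  have hset : ∀ (R : Type u) [CommRing R] (I : Ideal (MvPolynomial (Fin 4) R)),
      IsFamily R I ↔ I ∈ HilbPts 4 8 R := fun R _ I =>
    ⟨fun h => ⟨h.finite, h.flat, h.degree⟩, fun h => ⟨h.1, h.2.1, h.2.2⟩⟩
  have hH : IsHilbertScheme k 4 8 s :=
    { pt := fun R _ _ => (h.equiv R).trans
        (Equiv.subtypeEquivRight (fun I => hset R I))
      nat := by
        intro R _ _ S _ _ φ g g' hg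
        have : g' = Pts.map φ g := Subtype.ext hg
        subst this
        exact h.natural R S φ g }
  refine isReduced_of_lift ?_ s hH
  intro S _ _ _ B _ _ c x hx
  obtain ⟨R, _, _, E, _, _, e, χ, φ, b, hred, h1, h2⟩ := hv S B c x hx
  exact ⟨R, inferInstance, hred, inferInstance, E, inferInstance, inferInstance, e, χ, b, φ,
    h1, h2⟩

end Pool.Agent.Helper97.Hilb8
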