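import Pool.Agent.Helper97.Hilb8.ChartDefs
import Pool.Agent.Helper97.Hilb8.Wrap
import Pool.Agent.Helper97.Hilb8.LemmaI

/-!
# Chart theory
-/

universe u

namespace Pool.Agent.Helper97.Hilb8

open MvPolynomial

namespace Chart

variable (C : Chart)

theorem monoEl_nxt {A : Type*} [Monoid A] (x : Fin 4 → A) (hx : ∀ i j, x i * x j = x j * x i)
    (i : Fin 4) (c : Fin 8) : C.monoEl x (C.nxt i c) = x i * C.monoEl x c := by
  have hc : ∀ i j, Commute (x i) (x j) := hx
  have h := C.mono_nxt i c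
  unfold monoEl
  rw [h]
  have hp : ∀ (i j : Fin 4) (n : ℕ), x i * x j ^ n = x j ^ n * x i := fun i j n =>
    ((hc i j).pow_right n).eq
  fin_cases i
  · simp [pow_succ', mul_assoc]
  · simp only [Pi.add_apply, Fin.mk_one, Fin.isValue]
    simp [pow_succ', mul_assoc]
    rw [← mul_assoc (x 1) (x 0 ^ _), hp 1 0, mul_assoc]
  · simp [pow_succ', mul_assoc]
    rw [← mul_assoc (x 2) (x 0 ^ _), hp 2 0, mul_assoc, ← mul_assoc (x 2) (x 1 ^ _), hp 2 1, mul_assoc]
  · simp [pow_succ', mul_assoc]
    rw [← mul_assoc (x 3) (x 0 ^ _), hp 3 0, mul_assoc, ← mul_assoc (x 3) (x 1 ^ _), hp 3 1, mul_assoc,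
      ← mul_assoc (x 3) (x 2 ^ _), hp 3 2, mul_assoc]

theorem monoEl_zero {A : Type*} [Monoid A] (x : Fin 4 → A) : C.monoEl x 0 = 1 := by
  unfold monoEl
  rw [C.mono_zero]
  simp

/-- The multiplication matrices. -/
theorem mat_coord {A M : Type*} [CommRing A] [AddCommGroup M] [Module A M]
    (b : Module.Basis (Fin 8) A M) (X : Fin 4 → Module.End A M)
    (hX : ∀ i j, X i * X j = X j * X i) (e : M) (hb : ∀ c : Fin 8, b c = C.monoEl X c e) (i : Fin 4) :
    C.mat (C.coord b X e) i = LinearMap.toMatrix b b (X i) := by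
  ext r c
  rw [LinearMap.toMatrix_apply]
  have h1 : X i (b c) = C.monoEl X (C.nxt i c) e := by
    rw [hb, C.monoEl_nxt X hX]
    rfl
  rw [h1]
  unfold mat
  simp only [Matrix.of_apply]
  split_ifs with h2 h3
  · have := hb ⟨C.nxt i c, h2⟩
    simp only at this
    rw [← this, Module.Basis.repr_self, Finsupp.single_apply, if_pos (Fin.ext h3)]
  · have := hb ⟨C.nxt i c, h2⟩
    simp only at this
    rw [← this, Module.Basis.repr_self, Finsupp.single_apply, if_neg]
    intro h
    exact h3 (congrArg Fin.val h)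
  · unfold coord
    have h4 : 8 + (8 * (C.nxt i c - 8) + (r : ℕ)) / 8 = C.nxt i c := by omega
    have h5 : (8 * (C.nxt i c - 8) + (r : ℕ)) % 8 = r := by omega
    rw [h4]
    congr 1
    exact Fin.ext h5

/-- C1: a cyclic module with commuting endomorphisms and a basis `mono_c(X) e` gives a point of
the chart. -/
theorem isPt_coord {A M : Type*} [CommRing A] [AddCommGroup M] [Module A M]
    (b : Module.Basis (Fin 8) A M) (X : Fin 4 → Module.End A M)
    (hX : ∀ i j, X i * X j = X j * X i) (e : M) (hb : ∀ c : Fin 8, b c = C.monoEl X c e) :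
    C.IsPt (C.coord b X e) := by
  intro i j
  rw [C.mat_coord b X hX e hb, C.mat_coord b X hX e hb, ← LinearMap.toMatrix_mul,
    ← LinearMap.toMatrix_mul, hX]

theorem map_mat {A B : Type*} [CommRing A] [CommRing B] (f : A →+* B) (a : ℕ → A) (a' : ℕ → B)
    (h : ∀ v < 8 * C.nb, f (a v) = a' v) (i : Fin 4) :
    (C.mat a i).map f = C.mat a' i := by
  ext r c
  unfold mat
  simp only [Matrix.map_apply, Matrix.of_apply]
  split_ifs with h1 h2
  · exact map_one f
  · exact map_zero f
  · apply h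
    have := C.nxt_lt i c
    omega

/-- C1': a point of the chart kills the ideal. -/
theorem eval_ideal (k : Type*) [CommRing k] {A : Type*} [CommRing A]
    [Algebra k A] (a : ℕ → A) (ha : C.IsPt a) :
    ∀ p ∈ C.ideal k, aeval (fun v : Fin (8 * C.nb) => a v) p = 0 := by
  intro p hp
  have hle : C.ideal k ≤ RingHom.ker (aeval (R := k) (fun v : Fin (8 * C.nb) => a v)) := by
    unfold ideal
    rw [Ideal.span_le]
    rintro p ⟨i, j, r, c, rfl⟩
    rw [SetLike.mem_coe, RingHom.mem_ker]
    set f : MvPolynomial (Fin (8 * C.nb)) k →+* A :=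
      (aeval (R := k) (fun v : Fin (8 * C.nb) => a v)).toRingHom with hf
    have hv : ∀ v < 8 * C.nb, f (C.var k v) = a v := by
      intro v hv
      unfold var
      rw [dif_pos hv, hf]
      simp
    have h1 := C.map_mat f (C.var k) a hv
    have h2 : (C.mat (C.var k) i * C.mat (C.var k) j - C.mat (C.var k) j * C.mat (C.var k) i).map f
        = 0 := by
      rw [Matrix.map_sub f (fun x y => map_sub f x y), Matrix.map_mul, Matrix.map_mul, h1, h1, ha i j,
        sub_self]
    have h3 := congrFun (congrFun h2 r) c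
    exact h3
  exact hle hp

theorem map_monoEl {A B : Type*} [Monoid A] [Monoid B] {F : Type*} [FunLike F A B]
    [MonoidHomClass F A B] (f : F) (x : Fin 4 → A) (n : ℕ) :
    f (C.monoEl x n) = C.monoEl (fun i => f (x i)) n := by
  unfold monoEl
  simp only [map_mul, map_pow]

theorem mat_mulVec {A : Type*} [CommRing A] (a : ℕ → A) (i : Fin 4) (c c' : Fin 8)
    (h : C.nxt i c = c') : (C.mat a i).mulVec (Pi.single c 1) = Pi.single c' 1 := by
  rw [Matrix.mulVec_single_one]
  funext r
  unfold mat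
  simp only [Matrix.col_apply, Matrix.of_apply, h, Fin.is_lt, if_true]
  rw [Pi.single_apply]
  by_cases hr : r = c'
  · rw [if_pos hr, if_pos (by rw [hr])]
  · rw [if_neg hr, if_neg (fun h => hr (Fin.ext h.symm))]

theorem monoEl_mulVec {A : Type*} [CommRing A] (a : ℕ → A) (ha : C.IsPt a) (c : Fin 8) :
    (C.monoEl (C.mat a) c).mulVec (Pi.single 0 1) = Pi.single c 1 := by
  induction c using WellFoundedLT.induction with
  | ind c ih =>
    by_cases h0 : c = 0
    · subst h0
      rw [Fin.val_zero, C.monoEl_zero, Matrix.one_mulVec]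
    · obtain ⟨i, c', hlt, hn⟩ := C.pred c h0
      rw [← hn, C.monoEl_nxt _ ha, ← Matrix.mulVec_mulVec, ih c' hlt, C.mat_mulVec a i c' c hn]

/-- The universal coordinates. -/
noncomputable def uni (k : Type u) [Field k] (v : ℕ) :
    MvPolynomial (Fin (8 * C.nb)) k ⧸ C.ideal k := Ideal.Quotient.mk _ (C.var k v)

theorem uni_isPt (k : Type u) [Field k] : C.IsPt (C.uni k) := by
  intro i j
  have h1 := C.map_mat (Ideal.Quotient.mk (C.ideal k)) (C.var k) (C.uni k) (fun v _ => rfl)
  rw [← h1, ← h1, ← Matrix.map_mul, ← Matrix.map_mul, ← sub_eq_zero,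
    ← Matrix.map_sub _ (fun x y => map_sub _ x y)]
  ext r c
  rw [Matrix.map_apply, Matrix.zero_apply, Ideal.Quotient.eq_zero_iff_mem]
  exact Ideal.subset_span ⟨i, j, r, c, rfl⟩

section Univ

variable {R : Type u} [CommRing R] (a : ℕ → R)

/-- The algebra generated by the multiplication matrices. -/
abbrev UE : Subalgebra R (Matrix (Fin 8) (Fin 8) R) := Algebra.adjoin R (Set.range (C.mat a))

/-- It is commutative. -/
@[reducible] noncomputable def ueRing (ha : C.IsPt a) : CommRing (C.UE a) :=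
  { (inferInstance : Ring (C.UE a)) with
    mul_comm := by
      have h : IsMulCommutative (C.UE a) := Algebra.isMulCommutative_adjoin R (by
        rintro _ ⟨i, rfl⟩ _ ⟨j, rfl⟩
        exact ha i j)
      exact fun x y => h.is_comm.comm x y }

/-- The generators. -/
noncomputable def ug (i : Fin 4) : C.UE a := ⟨C.mat a i, Algebra.subset_adjoin ⟨i, rfl⟩⟩

theorem coe_monoEl (n : ℕ) : ((C.monoEl (C.ug a) n : C.UE a) : Matrix (Fin 8) (Fin 8) R) =
    C.monoEl (C.mat a) n :=
  C.map_monoEl (C.UE a).val (C.ug a) n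

theorem ue_comm (ha : C.IsPt a) (m n : C.UE a) : m * n = n * m := by
  let _ := C.ueRing a ha
  exact mul_comm m n

/-- Evaluation at the cyclic vector. -/
noncomputable def ev : C.UE a →ₗ[R] (Fin 8 → R) where
  toFun m := (m : Matrix (Fin 8) (Fin 8) R).mulVec (Pi.single 0 1)
  map_add' _ _ := Matrix.add_mulVec _ _ _
  map_smul' _ _ := Matrix.smul_mulVec _ _ _

theorem ev_monoEl (ha : C.IsPt a) (c : Fin 8) : C.ev a (C.monoEl (C.ug a) c) = Pi.single c 1 := by
  change ((C.monoEl (C.ug a) c : C.UE a) : Matrix (Fin 8) (Fin 8) R).mulVec _ = _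
  rw [C.coe_monoEl, C.monoEl_mulVec a ha]

theorem ev_inj (ha : C.IsPt a) : Function.Injective (C.ev a) := by
  rw [injective_iff_map_eq_zero]
  intro m hm
  apply Subtype.ext
  have h : ∀ c : Fin 8, (m : Matrix (Fin 8) (Fin 8) R).mulVec (Pi.single c 1) = 0 := by
    intro c
    rw [← C.monoEl_mulVec a ha c, ← C.coe_monoEl, Matrix.mulVec_mulVec]
    have h1 : (m : Matrix (Fin 8) (Fin 8) R) * ((C.monoEl (C.ug a) c : C.UE a) :
        Matrix (Fin 8) (Fin 8) R) = ((C.monoEl (C.ug a) c : C.UE a) : Matrix (Fin 8) (Fin 8) R) * m :=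
      congrArg Subtype.val (C.ue_comm a ha m (C.monoEl (C.ug a) c))
    rw [h1, ← Matrix.mulVec_mulVec]
    have h2 : (m : Matrix (Fin 8) (Fin 8) R).mulVec (Pi.single 0 1) = 0 := hm
    rw [h2, Matrix.mulVec_zero]
  ext r c
  have h3 := congrFun (h c) r
  rw [Matrix.mulVec_single_one] at h3
  exact h3

theorem ev_surj (ha : C.IsPt a) : Function.Surjective (C.ev a) := by
  intro v
  refine ⟨∑ c, v c • C.monoEl (C.ug a) c, ?_⟩
  rw [map_sum]
  funext r
  simp only [map_smul, C.ev_monoEl a ha, Finset.sum_apply, Pi.smul_apply, Pi.single_apply, smul_eq_mul,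
    mul_ite, mul_one, mul_zero, Finset.sum_ite_eq, Finset.mem_univ, if_true]

/-- The basis of the universal algebra. -/
noncomputable def ub (ha : C.IsPt a) : Module.Basis (Fin 8) R (C.UE a) :=
  Module.Basis.ofEquivFun (LinearEquiv.ofBijective (C.ev a) ⟨C.ev_inj a ha, C.ev_surj a ha⟩)

theorem ub_apply (ha : C.IsPt a) (c : Fin 8) : C.ub a ha c = C.monoEl (C.ug a) c := by
  unfold ub
  rw [Module.Basis.coe_ofEquivFun]
  apply (LinearEquiv.ofBijective (C.ev a) ⟨C.ev_inj a ha, C.ev_surj a ha⟩).injective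
  rw [LinearEquiv.apply_symm_apply]
  exact (C.ev_monoEl a ha c).symm

end Univ

/-- C2: families over local rings (or any ring) in the chart lift to the universal family. -/
theorem versalLift_of_basis (k : Type u) [Field k]
    (hred : _root_.IsReduced (MvPolynomial (Fin (8 * C.nb)) k ⧸ C.ideal k))
    (O : Type u) [CommRing O] [Algebra k O] (A : Type u) [CommRing A] [Algebra O A]
    (x : Fin 4 → A) (b : Module.Basis (Fin 8) O A) (hb : ∀ c : Fin 8, b c = C.monoEl x c) :
    VersalLift k O A := by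
  classical
  have ha := C.uni_isPt k
  -- the point of the chart
  set X : Fin 4 → Module.End O A := fun i => LinearMap.mulLeft O (x i) with hX
  have hXc : ∀ i j, X i * X j = X j * X i := by
    intro i j
    ext m
    simp only [hX, Module.End.mul_apply, LinearMap.mulLeft_apply]
    ring
  have hmono : ∀ n : ℕ, C.monoEl X n = LinearMap.mulLeft O (C.monoEl x n) := fun n =>
    (C.map_monoEl (Algebra.lmul O A) x n).symm
  have hb' : ∀ c : Fin 8, b c = C.monoEl X c 1 := by
    intro c
    rw [hmono, LinearMap.mulLeft_apply, mul_one, hb]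
  set t : ℕ → O := C.coord b X 1 with ht
  have htp : C.IsPt t := C.isPt_coord b X hXc 1 hb'
  have hmat : ∀ i, C.mat t i = Algebra.leftMulMatrix b (x i) := fun i =>
    C.mat_coord b X hXc 1 hb' i
  -- the classifying map
  let χ : (MvPolynomial (Fin (8 * C.nb)) k ⧸ C.ideal k) →ₐ[k] O :=
    Ideal.Quotient.liftₐ (C.ideal k) (aeval (fun v : Fin (8 * C.nb) => t v)) (C.eval_ideal k t htp)
  have hχ : ∀ v < 8 * C.nb, χ (C.uni k v) = t v := by
    intro v hv
    unfold uni
    rw [← Ideal.Quotient.mkₐ_eq_mk k, Ideal.Quotient.liftₐ_apply]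
    unfold var
    rw [dif_pos hv]
    simp
  have hχm : ∀ i, (C.mat (C.uni k) i).map χ = C.mat t i :=
    fun i => C.map_mat (χ : _ →+* O) (C.uni k) t hχ i
  -- the map of algebras
  letI := C.ueRing (C.uni k) ha
  let f : C.UE (C.uni k) →+* Matrix (Fin 8) (Fin 8) O :=
    (RingHom.mapMatrix (χ : _ →+* O)).comp (C.UE (C.uni k)).val.toRingHom
  have hinj : Function.Injective (Algebra.leftMulMatrix b) := Algebra.leftMulMatrix_injective b
  have hf : ∀ m : C.UE (C.uni k), ∃ y : A, Algebra.leftMulMatrix b y = f m := by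
    rintro ⟨m, hm⟩
    change ∃ y : A, Algebra.leftMulMatrix b y = m.map χ
    induction hm using Algebra.adjoin_induction with
    | mem m h =>
      obtain ⟨i, rfl⟩ := h
      exact ⟨x i, by rw [hχm, hmat]⟩
    | algebraMap r =>
      refine ⟨algebraMap O A (χ r), ?_⟩
      rw [AlgHom.commutes]
      ext i j
      simp only [Matrix.algebraMap_matrix_apply, Matrix.map_apply]
      split_ifs <;> simp
    | add m n _ _ hm hn =>
      obtain ⟨y, hy⟩ := hm
      obtain ⟨z, hz⟩ := hn
      exact ⟨y + z, by rw [map_add, hy, hz, Matrix.map_add _ (fun a b => map_add χ a b)]⟩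
    | mul m n _ _ hm hn =>
      obtain ⟨y, hy⟩ := hm
      obtain ⟨z, hz⟩ := hn
      refine ⟨y * z, ?_⟩
      rw [map_mul, hy, hz]
      exact (Matrix.map_mul (f := (χ : (MvPolynomial (Fin (8 * C.nb)) k ⧸ C.ideal k) →+* O))).symm
  choose g hg using hf
  let φ : C.UE (C.uni k) →+* A :=
    { toFun := g
      map_one' := hinj (by rw [hg, map_one, map_one])
      map_mul' := fun m n => hinj (by rw [hg, map_mul, map_mul, hg, hg])
      map_zero' := hinj (by rw [hg, map_zero, map_zero])
      map_add' := fun m n => hinj (by rw [hg, map_add, map_add, hg, hg]) }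
  refine ⟨MvPolynomial (Fin (8 * C.nb)) k ⧸ C.ideal k, inferInstance, inferInstance,
    C.UE (C.uni k), C.ueRing (C.uni k) ha, inferInstance, C.ub (C.uni k) ha, χ, φ, b, hred, ?_, ?_⟩
  · intro r
    apply hinj
    change Algebra.leftMulMatrix b (g _) = _
    rw [hg, AlgHom.commutes]
    change (algebraMap _ (Matrix (Fin 8) (Fin 8) _) r).map χ = _
    ext i j
    simp only [Matrix.algebraMap_matrix_apply, Matrix.map_apply]
    split_ifs <;> simp
  · intro c
    apply hinj
    change Algebra.leftMulMatrix b (g _) = _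
    rw [hg, C.ub_apply, hb]
    change RingHom.mapMatrix (χ : (MvPolynomial (Fin (8 * C.nb)) k ⧸ C.ideal k) →+* O)
        (((C.monoEl (C.ug (C.uni k)) c : C.UE (C.uni k))) :
        Matrix (Fin 8) (Fin 8) (MvPolynomial (Fin (8 * C.nb)) k ⧸ C.ideal k)) = _
    rw [C.coe_monoEl, C.map_monoEl, C.map_monoEl]
    congr 1
    funext i
    rw [← hmat, ← hχm]
    rfl

end Chart

section Local

open TensorProduct

variable {O : Type u} [CommRing O] [IsLocalRing O] {A : Type u} [CommRing A] [Algebra O A]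

theorem basis_of_residue (b : Module.Basis (Fin 8) O A) (v : Fin 8 → A)
    (hv : LinearIndependent (IsLocalRing.ResidueField O)
      (fun i => (1 : IsLocalRing.ResidueField O) ⊗ₜ[O] v i)) :
    ∃ b' : Module.Basis (Fin 8) O A, ∀ i, b' i = v i := by
  have hfin : Module.Finite O A := Module.Finite.of_basis b
  let κ := IsLocalRing.ResidueField O
  let bk : Module.Basis (Fin 8) κ (κ ⊗[O] A) := b.baseChange κ
  have hcard : Module.finrank κ (κ ⊗[O] A) = 8 := by
    rw [Module.finrank_eq_card_basis bk, Fintype.card_fin]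
  let b0 : Module.Basis (Fin 8) κ (κ ⊗[O] A) :=
    basisOfLinearIndependentOfCardEqFinrank hv (by rw [Fintype.card_fin, hcard])
  have hspan : Submodule.span O (Set.range v) = ⊤ :=
    IsLocalRing.span_eq_top_of_tmul_eq_basis v b0 (fun i => by
      rw [coe_basisOfLinearIndependentOfCardEqFinrank])
  have hsurj : Function.Surjective (Fintype.linearCombination O v) := by
    rw [← LinearMap.range_eq_top, Fintype.range_linearCombination, hspan]
  have hinj : Function.Injective (b.equivFun.toLinearMap ∘ₗ Fintype.linearCombination O v) :=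
    OrzechProperty.injective_of_surjective_endomorphism _ (by
      rw [LinearMap.coe_comp]
      exact b.equivFun.surjective.comp hsurj)
  have hli : LinearIndependent O v := by
    rw [Fintype.linearIndependent_iff]
    intro g hg i
    have h0 : g = 0 := hinj (by
      rw [map_zero, LinearMap.comp_apply, Fintype.linearCombination_apply, hg, map_zero])
    rw [h0]
    rfl
  exact ⟨Module.Basis.mk hli hspan.ge, fun i => Module.Basis.mk_apply hli hspan.ge i⟩

theorem adjoin_tmul (x : Fin 4 → A) (hx : Algebra.adjoin O (Set.range x) = ⊤) :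
    Algebra.adjoin (IsLocalRing.ResidueField O)
      (Set.range fun i => (1 : IsLocalRing.ResidueField O) ⊗ₜ[O] x i) = ⊤ := by
  rw [eq_top_iff]
  rintro z -
  induction z using TensorProduct.induction_on with
  | zero => exact zero_mem _
  | add y z hy hz => exact add_mem hy hz
  | tmul c a =>
    have ha : a ∈ Algebra.adjoin O (Set.range x) := by rw [hx]; trivial
    have h1 : (1 : IsLocalRing.ResidueField O) ⊗ₜ[O] a ∈ Algebra.adjoin (IsLocalRing.ResidueField O)
      (Set.range fun i => (1 : IsLocalRing.ResidueField O) ⊗ₜ[O] x i) := by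
      induction ha using Algebra.adjoin_induction with
      | mem a h =>
        obtain ⟨i, rfl⟩ := h
        exact Algebra.subset_adjoin ⟨i, rfl⟩
      | algebraMap r =>
        have : (1 : IsLocalRing.ResidueField O) ⊗ₜ[O] algebraMap O A r =
          algebraMap (IsLocalRing.ResidueField O) _ (algebraMap O _ r) := by
          rw [Algebra.TensorProduct.algebraMap_apply, Algebra.algebraMap_eq_smul_one,
            Algebra.algebraMap_eq_smul_one, TensorProduct.tmul_smul, ← TensorProduct.smul_tmul']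
          rfl
        rw [this]
        exact Subalgebra.algebraMap_mem _ _
      | add a b _ _ ha hb => rw [TensorProduct.tmul_add]; exact add_mem ha hb
      | mul a b _ _ ha hb =>
        have : (1 : IsLocalRing.ResidueField O) ⊗ₜ[O] (a * b) = (1 ⊗ₜ a) * (1 ⊗ₜ b) := by
          rw [Algebra.TensorProduct.tmul_mul_tmul, one_mul]
        rw [this]
        exact mul_mem ha hb
    have h2 : c ⊗ₜ[O] a = c • ((1 : IsLocalRing.ResidueField O) ⊗ₜ[O] a) := by
      rw [TensorProduct.smul_tmul', smul_eq_mul, mul_one]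
    rw [h2]
    exact Subalgebra.smul_mem _ h1 c

theorem residue_lift (y : IsLocalRing.ResidueField O ⊗[O] A) :
    ∃ a : A, (1 : IsLocalRing.ResidueField O) ⊗ₜ[O] a = y :=
  TensorProduct.mk_surjective O A _ IsLocalRing.residue_surjective y

end Local

open TensorProduct in
/-- C3: the two charts cover everything (uses `lemmaI`). -/
theorem versalLift_of_charts (k : Type u) [Field k] [Infinite k] (h2 : (2 : k) ≠ 0)
    (hA : _root_.IsReduced (MvPolynomial (Fin (8 * chartA.nb)) k ⧸ chartA.ideal k))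
    (hB : _root_.IsReduced (MvPolynomial (Fin (8 * chartB.nb)) k ⧸ chartB.ideal k))
    (O : Type u) [CommRing O] [IsLocalRing O] [Algebra k O] (A : Type u) [CommRing A]
    [Algebra O A] (bA : Module.Basis (Fin 8) O A) (x : Fin 4 → A)
    (hx : Algebra.adjoin O (Set.range x) = ⊤) : VersalLift k O A := by
  let κ := IsLocalRing.ResidueField O
  let f : k →+* κ := (IsLocalRing.residue O).comp (algebraMap k O)
  have hinf : Infinite κ := Infinite.of_injective f f.injective
  have h2' : (2 : κ) ≠ 0 := by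
    intro h
    apply h2
    apply f.injective
    rw [map_ofNat, map_zero, h]
  have hcard : Module.finrank κ (κ ⊗[O] A) = 8 := by
    rw [Module.finrank_eq_card_basis (bA.baseChange κ), Fintype.card_fin]
  have hm : ∀ a b : A, (1 : κ) ⊗ₜ[O] a * (1 : κ) ⊗ₜ[O] b = (1 : κ) ⊗ₜ[O] (a * b) := fun a b => by
    rw [Algebra.TensorProduct.tmul_mul_tmul, one_mul]
  rcases lemmaI h2' hcard (fun i => (1 : κ) ⊗ₜ[O] x i) (adjoin_tmul x hx) with
    ⟨y, z, h⟩ | ⟨w, y, z, h⟩
  · obtain ⟨v, h⟩ := exists_linearIndependent_cons_of_lt_finrank h (by rw [hcard]; norm_num)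
    obtain ⟨u, h⟩ := exists_linearIndependent_cons_of_lt_finrank h (by rw [hcard]; norm_num)
    obtain ⟨y, rfl⟩ := residue_lift y
    obtain ⟨z, rfl⟩ := residue_lift z
    obtain ⟨u, rfl⟩ := residue_lift u
    obtain ⟨v, rfl⟩ := residue_lift v
    have hs := h.comp ![(2 : Fin 8), 0, 1, 3, 4, 5, 6, 7] (by decide)
    have e : (Fin.cons ((1 : κ) ⊗ₜ[O] u) (Fin.cons ((1 : κ) ⊗ₜ[O] v)
        ![1, (1 : κ) ⊗ₜ[O] y, (1 : κ) ⊗ₜ[O] z, (1 : κ) ⊗ₜ[O] y * (1 : κ) ⊗ₜ[O] y,
          (1 : κ) ⊗ₜ[O] y * (1 : κ) ⊗ₜ[O] z, (1 : κ) ⊗ₜ[O] z * (1 : κ) ⊗ₜ[O] z]) :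
          Fin 8 → κ ⊗[O] A) ∘ ![(2 : Fin 8), 0, 1, 3, 4, 5, 6, 7] =
        (fun i => (1 : κ) ⊗ₜ[O] (![1, u, v, y, z, y * y, y * z, z * z] : Fin 8 → A) i) := by
      funext i
      fin_cases i
      · rfl
      · rfl
      · rfl
      · rfl
      · rfl
      · exact (hm y y)
      · exact (hm y z)
      · exact (hm z z)
    rw [e] at hs
    obtain ⟨b, hb⟩ := basis_of_residue bA ![1, u, v, y, z, y * y, y * z, z * z] hs
    refine chartB.versalLift_of_basis k hB O A ![u, v, y, z] b ?_
    intro c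
    rw [hb]
    fin_cases c <;> simp [Chart.monoEl, chartB, monoB, pow_two]
  · obtain ⟨u, h⟩ := exists_linearIndependent_cons_of_lt_finrank h (by rw [hcard]; norm_num)
    obtain ⟨w, rfl⟩ := residue_lift w
    obtain ⟨y, rfl⟩ := residue_lift y
    obtain ⟨z, rfl⟩ := residue_lift z
    obtain ⟨u, rfl⟩ := residue_lift u
    have hs := h.comp ![(1 : Fin 8), 0, 2, 3, 4, 5, 6, 7] (by decide)
    have e : (Fin.cons ((1 : κ) ⊗ₜ[O] u)
        ![1, (1 : κ) ⊗ₜ[O] w, (1 : κ) ⊗ₜ[O] y, (1 : κ) ⊗ₜ[O] z,
          (1 : κ) ⊗ₜ[O] z * (1 : κ) ⊗ₜ[O] z,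
          (1 : κ) ⊗ₜ[O] y * (1 : κ) ⊗ₜ[O] z, (1 : κ) ⊗ₜ[O] w * (1 : κ) ⊗ₜ[O] z] :
          Fin 8 → κ ⊗[O] A) ∘ ![(1 : Fin 8), 0, 2, 3, 4, 5, 6, 7] =
        (fun i => (1 : κ) ⊗ₜ[O] (![1, u, w, y, z, z * z, y * z, w * z] : Fin 8 → A) i) := by
      funext i
      fin_cases i
      · rfl
      · rfl
      · rfl
      · rfl
      · rfl
      · exact (hm z z)
      · exact (hm y z)
      · exact (hm w z)
    rw [e] at hs
    obtain ⟨b, hb⟩ := basis_of_residue bA ![1, u, w, y, z, z * z, y * z, w * z] hs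
    refine chartA.versalLift_of_basis k hA O A ![u, w, y, z] b ?_
    intro c
    rw [hb]
    fin_cases c <;> simp [Chart.monoEl, chartA, monoA, pow_two]

end Pool.Agent.Helper97.Hilb8
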