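import Pool.Agent.Helper97.Hilb8.GBDefs

/-!
# Groebner bases by weights with unit monomials (J4)
-/

namespace Pool.Agent.Helper97.Hilb8

open MvPolynomial

variable {σ : Type*} [DecidableEq σ] {k : Type*} [Field k]

namespace GB

theorem wt_zero (κ : σ → ℕ) : wt κ 0 = 0 := by
  unfold wt; exact Finsupp.sum_zero_index

theorem wt_add (κ : σ → ℕ) (m n : σ →₀ ℕ) : wt κ (m + n) = wt κ m + wt κ n := by
  unfold wt
  exact Finsupp.sum_add_index' (fun _ => Nat.zero_mul _) (fun _ _ _ => Nat.add_mul _ _ _)

theorem wt_unit {κ : σ → ℕ} {E : Set σ} (hE : ∀ u ∈ E, κ u = 0) {μ : σ →₀ ℕ}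
    (hμ : UnitMon E μ) : wt κ μ = 0 := by
  unfold wt
  refine Finset.sum_eq_zero (fun v hv => ?_)
  simp only
  rw [hE v (hμ v hv), Nat.mul_zero]

theorem unit_zero (E : Set σ) : UnitMon E (0 : σ →₀ ℕ) := by
  intro v hv
  simp at hv

theorem unit_add {E : Set σ} {μ ν : σ →₀ ℕ} (h1 : UnitMon E μ) (h2 : UnitMon E ν) :
    UnitMon E (μ + ν) := by
  intro v hv
  have := Finsupp.support_add hv
  rcases Finset.mem_union.1 this with h | h
  · exact h1 v h
  · exact h2 v h

theorem unitMon_iff {E : Set σ} {μ : σ →₀ ℕ} : UnitMon E μ ↔ ∀ v, v ∉ E → μ v = 0 := by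
  unfold UnitMon
  constructor
  · intro h v hv
    by_contra hc
    exact hv (h v (Finsupp.mem_support_iff.2 hc))
  · intro h v hv
    by_contra hc
    exact (Finsupp.mem_support_iff.1 hv) (h v hc)

end GB

open GB

section J4
variable {ι : Type*} (κ : σ → ℕ) (E : Set σ) (hE : ∀ u ∈ E, κ u = 0)
  (α : ι → MvPolynomial σ k) (L : ι → σ →₀ ℕ) (hlead : ∀ i, IsLead κ (α i) (L i))

namespace GB

/-- the span of the products of level below `d` -/
noncomputable def SP (d : ℕ) : Submodule k (MvPolynomial σ k) := Submodule.span k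
    {g | ∃ (m : σ →₀ ℕ) (i : ι), wt κ m + wt κ (L i) < d ∧ g = monomial m (1 : k) * α i}

theorem wd_iff {d : ℕ} {f : MvPolynomial σ k} :
    Wd κ E α L d f ↔ ∃ μ : σ →₀ ℕ, UnitMon E μ ∧ monomial μ (1 : k) * f ∈ SP κ α L d := Iff.rfl

theorem gen_mem_SP {d : ℕ} {m : σ →₀ ℕ} {i : ι} (h : wt κ m + wt κ (L i) < d) (c : k) :
    monomial m c * α i ∈ SP κ α L d := by
  have h1 : monomial m c * α i = c • (monomial m (1 : k) * α i) := by
    rw [← smul_mul_assoc, smul_monomial, smul_eq_mul, mul_one]
  rw [h1]
  exact Submodule.smul_mem _ _ (Submodule.subset_span ⟨m, i, h, rfl⟩)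

theorem SP_mono {d d' : ℕ} (h : d ≤ d') : SP κ α L d ≤ SP κ α L d' := by
  refine Submodule.span_mono ?_
  rintro g ⟨m, i, h1, h2⟩
  exact ⟨m, i, by omega, h2⟩

theorem mon_mul_SP {d : ℕ} {f : MvPolynomial σ k} (hf : f ∈ SP κ α L d) (n : σ →₀ ℕ) (c : k) :
    monomial n c * f ∈ SP κ α L (d + wt κ n) := by
  induction hf using Submodule.span_induction with
  | mem g hg =>
    obtain ⟨m, i, h1, rfl⟩ := hg
    rw [← mul_assoc, monomial_mul, mul_one]
    refine gen_mem_SP κ α L ?_ c
    rw [wt_add]; omega
  | zero => rw [mul_zero]; exact Submodule.zero_mem _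
  | add x y _ _ hx hy => rw [mul_add]; exact Submodule.add_mem _ hx hy
  | smul a x _ hx => rw [mul_smul_comm]; exact Submodule.smul_mem _ _ hx

theorem wd_of_SP {d : ℕ} {f : MvPolynomial σ k} (hf : f ∈ SP κ α L d) : Wd κ E α L d f := by
  refine ⟨0, unit_zero E, ?_⟩
  have : monomial (0 : σ →₀ ℕ) (1 : k) = 1 := rfl
  rw [this, one_mul]
  exact hf

theorem wd_zero (d : ℕ) : Wd κ E α L d (0 : MvPolynomial σ k) :=
  wd_of_SP κ E α L (Submodule.zero_mem _)

include hE in
theorem unit_mul_SP {d : ℕ} {f : MvPolynomial σ k} (hf : f ∈ SP κ α L d) {μ : σ →₀ ℕ}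
    (hμ : UnitMon E μ) (c : k) : monomial μ c * f ∈ SP κ α L d := by
  have := mon_mul_SP κ α L hf μ c
  rwa [wt_unit hE hμ, add_zero] at this

include hE in
theorem wd_add {d : ℕ} {f g : MvPolynomial σ k} (hf : Wd κ E α L d f) (hg : Wd κ E α L d g) :
    Wd κ E α L d (f + g) := by
  obtain ⟨μ, h1, h2⟩ := hf
  obtain ⟨ν, h3, h4⟩ := hg
  refine ⟨μ + ν, unit_add h1 h3, ?_⟩
  have e1 : monomial (μ + ν) (1 : k) * (f + g)
      = monomial ν (1 : k) * (monomial μ (1 : k) * f)
        + monomial μ (1 : k) * (monomial ν (1 : k) * g) := by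
    rw [← mul_assoc, ← mul_assoc, monomial_mul, monomial_mul, mul_one, add_comm ν μ, mul_add]
  rw [e1]
  exact Submodule.add_mem _ (unit_mul_SP κ E hE α L h2 h3 1) (unit_mul_SP κ E hE α L h4 h1 1)

theorem wd_smul {d : ℕ} {f : MvPolynomial σ k} (hf : Wd κ E α L d f) (c : k) :
    Wd κ E α L d (c • f) := by
  obtain ⟨μ, h1, h2⟩ := hf
  refine ⟨μ, h1, ?_⟩
  rw [mul_smul_comm]
  exact Submodule.smul_mem _ _ h2

theorem wd_neg {d : ℕ} {f : MvPolynomial σ k} (hf : Wd κ E α L d f) :
    Wd κ E α L d (-f) := by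
  have := wd_smul κ E α L hf (-1)
  rwa [neg_smul, one_smul] at this

theorem wd_mon {d : ℕ} {f : MvPolynomial σ k} (hf : Wd κ E α L d f) (n : σ →₀ ℕ) (c : k) :
    Wd κ E α L (d + wt κ n) (monomial n c * f) := by
  obtain ⟨μ, h1, h2⟩ := hf
  refine ⟨μ, h1, ?_⟩
  rw [mul_left_comm]
  exact mon_mul_SP κ α L h2 n c

theorem wd_of_unit {d : ℕ} {f : MvPolynomial σ k} {μ : σ →₀ ℕ} (hμ : UnitMon E μ)
    (hf : Wd κ E α L d (monomial μ (1 : k) * f)) : Wd κ E α L d f := by
  obtain ⟨ν, h1, h2⟩ := hf
  refine ⟨ν + μ, unit_add h1 hμ, ?_⟩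
  rw [← mul_assoc, monomial_mul, mul_one] at h2
  exact h2

theorem wd_mono {d d' : ℕ} (h : d ≤ d') {f : MvPolynomial σ k} (hf : Wd κ E α L d f) :
    Wd κ E α L d' f := by
  obtain ⟨ν, h1, h2⟩ := hf
  exact ⟨ν, h1, SP_mono κ α L h h2⟩

include hE in
theorem wd_sum {d : ℕ} {τ : Type*} (s : Finset τ) (f : τ → MvPolynomial σ k)
    (h : ∀ t ∈ s, Wd κ E α L d (f t)) : Wd κ E α L d (∑ t ∈ s, f t) := by
  classical
  induction s using Finset.induction_on with
  | empty => rw [Finset.sum_empty]; exact wd_zero κ E α L d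
  | insert a s ha ih =>
    rw [Finset.sum_insert ha]
    exact wd_add κ E hE α L (h a (Finset.mem_insert_self _ _))
      (ih (fun t ht => h t (Finset.mem_insert_of_mem ht)))

end GB

/-- J4-1 -/
theorem ok_refl (i : ι) : OK κ E α L i i := by
  unfold OK
  have : spair α L i i = 0 := by
    unfold spair
    exact sub_self _
  rw [this]
  exact wd_zero κ E α L _

/-- J4-2 -/
theorem ok_symm {i j : ι} (h : OK κ E α L i j) : OK κ E α L j i := by
  unfold OK at h ⊢
  have e1 : spair α L j i = - spair α L i j := by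
    unfold spair
    rw [sup_comm (L j) (L i), neg_sub]
  rw [e1, sup_comm]
  exact wd_neg κ E α L h

namespace GB

/-- the lower part of `α i` -/
theorem lower_mul_mem {i j : ι} (hi : IsLead κ (α i) (L i)) :
    (α i - monomial (L i) (coeff (L i) (α i))) * α j ∈ SP κ α L (wt κ (L i) + wt κ (L j)) := by
  have h1 : α i - monomial (L i) (coeff (L i) (α i))
      = ∑ e ∈ (α i).support.erase (L i), monomial e (coeff e (α i)) := by
    have hmem : L i ∈ (α i).support := mem_support_iff.2 hi.1
    have h2 := Finset.add_sum_erase (α i).support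
      (fun e => monomial e (coeff e (α i))) hmem
    rw [← (α i).as_sum] at h2
    rw [sub_eq_iff_eq_add, add_comm]
    exact h2.symm
  rw [h1, Finset.sum_mul]
  refine Submodule.sum_mem _ (fun e he => ?_)
  rw [Finset.mem_erase] at he
  refine gen_mem_SP κ α L ?_ _
  have := hi.2 e he.2 he.1
  omega

theorem sup_add_inf (a b : σ →₀ ℕ) : (a ⊔ b) + (a ⊓ b) = a + b := by
  ext v
  simp only [Finsupp.add_apply, Finsupp.sup_apply, Finsupp.inf_apply]
  omega

end GB

include hE hlead in
/-- J4-3: product criterion (the leading exponents are coprime outside the unit variables). -/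
theorem ok_coprime {i j : ι} (h : ∀ v, v ∉ E → L i v = 0 ∨ L j v = 0) : OK κ E α L i j := by
  have hunit : UnitMon E (L i ⊓ L j) := by
    rw [unitMon_iff]
    intro v hv
    rw [Finsupp.inf_apply]
    rcases h v hv with h | h <;> omega
  have hwt : wt κ (L i ⊔ L j) = wt κ (L i) + wt κ (L j) := by
    have h1 := wt_add κ (L i ⊔ L j) (L i ⊓ L j)
    rw [sup_add_inf, wt_add, wt_unit hE hunit] at h1
    omega
  refine ⟨L i ⊓ L j, hunit, ?_⟩
  change _ ∈ SP κ α L _
  have e1 : (L i ⊓ L j) + (L i ⊔ L j - L i) = L j := by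
    ext v
    simp only [Finsupp.add_apply, Finsupp.sup_apply, Finsupp.inf_apply, Finsupp.tsub_apply]
    omega
  have e2 : (L i ⊓ L j) + (L i ⊔ L j - L j) = L i := by
    ext v
    simp only [Finsupp.add_apply, Finsupp.sup_apply, Finsupp.inf_apply, Finsupp.tsub_apply]
    omega
  have e3 : monomial (L i ⊓ L j) (1 : k) * spair α L i j
      = (α i - monomial (L i) (coeff (L i) (α i))) * α j
        - (α j - monomial (L j) (coeff (L j) (α j))) * α i := by
    unfold spair
    rw [mul_sub, ← mul_assoc, ← mul_assoc, monomial_mul, monomial_mul, one_mul, one_mul, e1, e2]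
    ring
  rw [e3, hwt]
  refine Submodule.sub_mem _ (lower_mul_mem κ α L (hlead i)) ?_
  rw [add_comm]
  exact lower_mul_mem κ α L (hlead j)

include hE hlead in
/-- J4-4: chain criterion. -/
theorem ok_chain {i j l : ι} (h : ∀ v, v ∉ E → L l v ≤ max (L i v) (L j v))
    (h1 : OK κ E α L i l) (h2 : OK κ E α L l j) : OK κ E α L i j := by
  classical
  set μ : σ →₀ ℕ := (L l).filter (fun v => v ∈ E) with hμdef
  have hμ : UnitMon E μ := by
    rw [unitMon_iff]
    intro v hv
    rw [hμdef, Finsupp.filter_apply, if_neg hv]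
  have hle : L l ≤ μ + (L i ⊔ L j) := by
    intro v
    rw [Finsupp.add_apply, Finsupp.sup_apply, hμdef, Finsupp.filter_apply]
    by_cases hv : v ∈ E
    · rw [if_pos hv]; omega
    · rw [if_neg hv]
      have := h v hv
      rw [zero_add]
      exact this
  have hle1 : L i ⊔ L l ≤ μ + (L i ⊔ L j) := by
    refine sup_le ?_ hle
    exact le_add_left le_sup_left
  have hle2 : L l ⊔ L j ≤ μ + (L i ⊔ L j) := by
    refine sup_le hle ?_
    exact le_add_left le_sup_right
  have hcl : coeff (L l) (α l) ≠ 0 := (hlead l).1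
  -- the two summands
  have hs1 : Wd κ E α L (wt κ (L i ⊔ L j))
      (monomial (μ + (L i ⊔ L j) - (L i ⊔ L l)) (coeff (L j) (α j)) * spair α L i l) := by
    have := wd_mon κ E α L h1 (μ + (L i ⊔ L j) - (L i ⊔ L l)) (coeff (L j) (α j))
    rwa [← wt_add, add_tsub_cancel_of_le hle1, wt_add, wt_unit hE hμ, zero_add] at this
  have hs2 : Wd κ E α L (wt κ (L i ⊔ L j))
      (monomial (μ + (L i ⊔ L j) - (L l ⊔ L j)) (coeff (L i) (α i)) * spair α L l j) := by
    have := wd_mon κ E α L h2 (μ + (L i ⊔ L j) - (L l ⊔ L j)) (coeff (L i) (α i))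
    rwa [← wt_add, add_tsub_cancel_of_le hle2, wt_add, wt_unit hE hμ, zero_add] at this
  have hsum := wd_add κ E hE α L hs1 hs2
  refine wd_of_unit κ E α L hμ ?_
  have key : monomial μ (1 : k) * spair α L i j
      = (coeff (L l) (α l))⁻¹ •
        (monomial (μ + (L i ⊔ L j) - (L i ⊔ L l)) (coeff (L j) (α j)) * spair α L i l
        + monomial (μ + (L i ⊔ L j) - (L l ⊔ L j)) (coeff (L i) (α i)) * spair α L l j) := by
    rw [eq_inv_smul_iff₀ hcl]
    unfold spair
    have a1 : (μ + (L i ⊔ L j) - (L i ⊔ L l)) + (L i ⊔ L l - L i) = μ + (L i ⊔ L j - L i) := by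
      ext v
      have := hle1 v
      simp only [Finsupp.add_apply, Finsupp.sup_apply, Finsupp.tsub_apply] at this ⊢
      omega
    have a2 : (μ + (L i ⊔ L j) - (L i ⊔ L l)) + (L i ⊔ L l - L l)
        = (μ + (L i ⊔ L j) - (L l ⊔ L j)) + (L l ⊔ L j - L l) := by
      ext v
      have := hle1 v
      have := hle2 v
      simp only [Finsupp.add_apply, Finsupp.sup_apply, Finsupp.tsub_apply] at *
      omega
    have a3 : (μ + (L i ⊔ L j) - (L l ⊔ L j)) + (L l ⊔ L j - L j) = μ + (L i ⊔ L j - L j) := by
      ext v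
      have := hle2 v
      simp only [Finsupp.add_apply, Finsupp.sup_apply, Finsupp.tsub_apply] at this ⊢
      omega
    simp only [mul_sub, ← mul_assoc, monomial_mul, one_mul, smul_sub,
      ← smul_mul_assoc, smul_monomial, smul_eq_mul, a1, a2, a3]
    rw [mul_comm (coeff (L l) (α l)) (coeff (L j) (α j)),
      mul_comm (coeff (L l) (α l)) (coeff (L i) (α i)),
      mul_comm (coeff (L j) (α j)) (coeff (L i) (α i))]
    abel
  rw [key]
  exact wd_smul κ E α L hsum _

namespace GB

/-- the exponents of elements of `SP d` have weight below `d` -/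
theorem wt_lt_of_mem_SP (hlead : ∀ i, IsLead κ (α i) (L i)) {d : ℕ} {f : MvPolynomial σ k}
    (hf : f ∈ SP κ α L d) (e : σ →₀ ℕ) (he : coeff e f ≠ 0) : wt κ e < d := by
  induction hf using Submodule.span_induction generalizing e with
  | mem g hg =>
    obtain ⟨m, i, h1, rfl⟩ := hg
    rw [coeff_monomial_mul'] at he
    split_ifs at he with hm
    · rw [one_mul] at he
      have h2 : e - m ∈ (α i).support := mem_support_iff.2 he
      have h3 : wt κ (e - m) ≤ wt κ (L i) := by
        by_cases h4 : e - m = L i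
        · rw [h4]
        · exact ((hlead i).2 _ h2 h4).le
      have h5 : wt κ e = wt κ (e - m) + wt κ m := by
        rw [← wt_add, tsub_add_cancel_of_le hm]
      omega
    · exact absurd rfl he
  | zero => simp at he
  | add x y _ _ hx hy =>
    rw [coeff_add] at he
    by_cases h1 : coeff e x = 0
    · rw [h1, zero_add] at he
      exact hy e he
    · exact hx e h1
  | smul a x _ hx =>
    rw [coeff_smul, smul_eq_mul] at he
    exact hx e (right_ne_zero_of_mul he)

open Classical in
/-- the chosen product with leading exponent `X` and leading coefficient one -/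
noncomputable def DD (X : σ →₀ ℕ) : MvPolynomial σ k :=
  if h : ∃ i, L i ≤ X then
    monomial (X - L h.choose) (coeff (L h.choose) (α h.choose))⁻¹ * α h.choose
  else 0

theorem coeff_DD (hlead : ∀ i, IsLead κ (α i) (L i)) {X Y : σ →₀ ℕ} (hX : ∃ i, L i ≤ X)
    (hw : wt κ X = wt κ Y) : coeff Y (DD α L X) = if X = Y then 1 else 0 := by
  unfold DD
  rw [dif_pos hX]
  have hle := hX.choose_spec
  generalize hX.choose = i at hle
  rw [coeff_monomial_mul']
  split_ifs with h1 h2 h2
  · rw [← h2]
    have : X - (X - L i) = L i := by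
      ext v
      have := hle v
      simp only [Finsupp.tsub_apply]
      omega
    rw [this]
    exact inv_mul_cancel₀ (hlead i).1
  · have h3 : Y - (X - L i) ≠ L i := by
      intro hc
      apply h2
      have : Y = (Y - (X - L i)) + (X - L i) := (tsub_add_cancel_of_le h1).symm
      rw [this, hc, add_tsub_cancel_of_le hle]
    have h4 : coeff (Y - (X - L i)) (α i) = 0 := by
      by_contra hc
      have h5 := (hlead i).2 _ (mem_support_iff.2 hc) h3
      have h6 : wt κ Y = wt κ (Y - (X - L i)) + wt κ (X - L i) := by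
        rw [← wt_add, tsub_add_cancel_of_le h1]
      have h7 : wt κ X = wt κ (X - L i) + wt κ (L i) := by
        rw [← wt_add, tsub_add_cancel_of_le hle]
      omega
    rw [h4, mul_zero]
  · exfalso
    apply h1
    rw [← h2]
    exact tsub_le_self
  · rfl

include hlead in
/-- two products with the same leading exponent differ by an element of lower level -/
theorem wd_prod_sub (hok : ∀ i j, OK κ E α L i j) {X : σ →₀ ℕ} {i j : ι} (hi : L i ≤ X)
    (hj : L j ≤ X) :
    Wd κ E α L (wt κ X) (monomial (X - L i) (coeff (L i) (α i))⁻¹ * α i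
      - monomial (X - L j) (coeff (L j) (α j))⁻¹ * α j) := by
  have hsup : L i ⊔ L j ≤ X := sup_le hi hj
  have h1 := wd_mon κ E α L (hok i j) (X - (L i ⊔ L j))
    ((coeff (L i) (α i))⁻¹ * (coeff (L j) (α j))⁻¹)
  rw [← wt_add, add_tsub_cancel_of_le hsup] at h1
  have e1 : (X - (L i ⊔ L j)) + (L i ⊔ L j - L i) = X - L i := by
    ext v
    have := hsup v
    simp only [Finsupp.add_apply, Finsupp.sup_apply, Finsupp.tsub_apply] at this ⊢
    omega
  have e2 : (X - (L i ⊔ L j)) + (L i ⊔ L j - L j) = X - L j := by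
    ext v
    have := hsup v
    simp only [Finsupp.add_apply, Finsupp.sup_apply, Finsupp.tsub_apply] at this ⊢
    omega
  have hci := (hlead i).1
  have hcj := (hlead j).1
  have e3 : monomial (X - (L i ⊔ L j)) ((coeff (L i) (α i))⁻¹ * (coeff (L j) (α j))⁻¹)
        * spair α L i j
      = monomial (X - L i) (coeff (L i) (α i))⁻¹ * α i
        - monomial (X - L j) (coeff (L j) (α j))⁻¹ * α j := by
    unfold spair
    rw [mul_sub, ← mul_assoc, ← mul_assoc, monomial_mul, monomial_mul, e1, e2]
    congr 3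
    · field_simp
    · field_simp
  rwa [e3] at h1

include hE hlead in
/-- normal form of the elements of level `K` modulo elements of lower level -/
theorem exists_normal (hok : ∀ i j, OK κ E α L i j) {K : ℕ} {g : MvPolynomial σ k}
    (hg : g ∈ SP κ α L (K + 1)) : ∃ a : (σ →₀ ℕ) →₀ k,
      (∀ X ∈ a.support, wt κ X = K ∧ ∃ i, L i ≤ X) ∧
      Wd κ E α L K (g - a.sum fun X c => c • DD α L X) := by
  classical
  induction hg using Submodule.span_induction with
  | mem g hg =>
    obtain ⟨m, i, h1, rfl⟩ := hg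
    by_cases h2 : wt κ m + wt κ (L i) < K
    · refine ⟨0, fun X hX => by simp at hX, ?_⟩
      rw [Finsupp.sum_zero_index, sub_zero]
      exact wd_of_SP κ E α L (gen_mem_SP κ α L h2 1)
    · have h3 : wt κ (m + L i) = K := by rw [wt_add]; omega
      have hle : L i ≤ m + L i := le_add_left le_rfl
      have hex : ∃ i', L i' ≤ m + L i := ⟨i, hle⟩
      refine ⟨Finsupp.single (m + L i) (coeff (L i) (α i)), ?_, ?_⟩
      · intro X hX
        have hX' : X = m + L i := by
          have := Finsupp.support_single_subset hX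
          exact Finset.mem_singleton.1 this
        rw [hX']
        exact ⟨h3, hex⟩
      · rw [Finsupp.sum_single_index (by rw [zero_smul])]
        have h4 := wd_smul κ E α L (wd_prod_sub κ E α L hlead hok hle hex.choose_spec)
          (coeff (L i) (α i))
        rw [h3] at h4
        have e1 : monomial m (1 : k) * α i - coeff (L i) (α i) • DD α L (m + L i)
            = coeff (L i) (α i) • (monomial (m + L i - L i) (coeff (L i) (α i))⁻¹ * α i
              - monomial (m + L i - L hex.choose)
                (coeff (L hex.choose) (α hex.choose))⁻¹ * α hex.choose) := by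
          unfold DD
          rw [dif_pos hex, smul_sub]
          congr 1
          rw [← smul_mul_assoc, smul_monomial, smul_eq_mul, mul_inv_cancel₀ (hlead i).1,
            add_tsub_cancel_right]
        rw [e1]
        exact h4
  | zero =>
    refine ⟨0, fun X hX => by simp at hX, ?_⟩
    rw [Finsupp.sum_zero_index, sub_zero]
    exact wd_zero κ E α L _
  | add x y _ _ hx hy =>
    obtain ⟨a, ha1, ha2⟩ := hx
    obtain ⟨b, hb1, hb2⟩ := hy
    refine ⟨a + b, ?_, ?_⟩
    · intro X hX
      rcases Finset.mem_union.1 (Finsupp.support_add hX) with h | h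
      · exact ha1 X h
      · exact hb1 X h
    · have hadd : (a + b).sum (fun X c => c • DD α L X)
          = a.sum (fun X c => c • DD α L X) + b.sum (fun X c => c • DD α L X) :=
        Finsupp.sum_add_index' (h := fun X c => c • DD α L X) (fun X => zero_smul _ _)
          (fun X c c' => add_smul _ _ _)
      rw [hadd]
      have := wd_add κ E hE α L ha2 hb2
      have e1 : x + y - ((a.sum fun X c => c • DD α L X) + b.sum fun X c => c • DD α L X)
          = (x - a.sum fun X c => c • DD α L X) + (y - b.sum fun X c => c • DD α L X) := by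
        abel
      rw [e1]
      exact this
  | smul c x _ hx =>
    obtain ⟨a, ha1, ha2⟩ := hx
    refine ⟨c • a, ?_, ?_⟩
    · intro X hX
      exact ha1 X (Finsupp.support_smul hX)
    · have hsm : (c • a).sum (fun X c' => c' • DD α L X)
          = a.sum (fun X c' => (c • c') • DD α L X) :=
        Finsupp.sum_smul_index' (h := fun X c' => c' • DD α L X) (fun X => zero_smul _ _)
      rw [hsm]
      have e1 : c • x - (a.sum fun X c' => (c • c') • DD α L X)
          = c • (x - a.sum fun X c' => c' • DD α L X) := by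
        rw [smul_sub, Finsupp.smul_sum]
        congr 1
        refine Finset.sum_congr rfl (fun X _ => ?_)
        simp only [smul_smul, smul_eq_mul]
      rw [e1]
      exact wd_smul κ E α L ha2 c

include hlead in
/-- the coefficients of the normal form -/
theorem normal_coeff {K : ℕ} {g : MvPolynomial σ k} (a : (σ →₀ ℕ) →₀ k)
    (ha1 : ∀ X ∈ a.support, wt κ X = K ∧ ∃ i, L i ≤ X)
    {ν : σ →₀ ℕ} (hν : wt κ ν = 0)
    (ha2 : monomial ν (1 : k) * (g - a.sum fun X c => c • DD α L X) ∈ SP κ α L K)
    (X : σ →₀ ℕ) (hX : wt κ X = K) : coeff X g = a X := by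
  classical
  have h1 : coeff (ν + X) (monomial ν (1 : k) * (g - a.sum fun X c => c • DD α L X)) = 0 := by
    by_contra hc
    have := wt_lt_of_mem_SP κ α L hlead ha2 _ hc
    rw [wt_add] at this
    omega
  rw [coeff_monomial_mul, one_mul, coeff_sub, sub_eq_zero] at h1
  rw [h1, Finsupp.sum, coeff_sum]
  simp only [coeff_smul, smul_eq_mul]
  have h2 : ∀ Y ∈ a.support, a Y * coeff X (DD α L Y) = if Y = X then a Y else 0 := by
    intro Y hY
    rw [coeff_DD κ α L hlead (ha1 Y hY).2 ((ha1 Y hY).1.trans hX.symm)]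
    split_ifs <;> simp
  rw [Finset.sum_congr rfl h2, Finset.sum_ite_eq']
  split_ifs with h3
  · rfl
  · exact (Finsupp.notMem_support_iff.1 h3).symm

/-- every element of the ideal has some level -/
theorem exists_level {f : MvPolynomial σ k} (hf : f ∈ Ideal.span (Set.range α)) :
    ∃ K, f ∈ SP κ α L K := by
  classical
  induction hf using Submodule.span_induction with
  | mem g hg =>
    obtain ⟨i, rfl⟩ := hg
    refine ⟨wt κ (L i) + 1, ?_⟩
    have := gen_mem_SP (k := k) κ α L (d := wt κ (L i) + 1) (m := 0) (i := i)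
      (by rw [wt_zero]; omega) 1
    have h1 : monomial (0 : σ →₀ ℕ) (1 : k) = 1 := rfl
    rwa [h1, one_mul] at this
  | zero => exact ⟨0, Submodule.zero_mem _⟩
  | add x y _ _ hx hy =>
    obtain ⟨K1, h1⟩ := hx
    obtain ⟨K2, h2⟩ := hy
    exact ⟨max K1 K2, Submodule.add_mem _ (SP_mono κ α L (le_max_left _ _) h1)
      (SP_mono κ α L (le_max_right _ _) h2)⟩
  | smul p x _ hx =>
    obtain ⟨K, h1⟩ := hx
    rw [smul_eq_mul]
    refine ⟨K + p.support.sup (wt κ), ?_⟩
    rw [p.as_sum, Finset.sum_mul]
    refine Submodule.sum_mem _ (fun e he => ?_)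
    refine SP_mono κ α L ?_ (mon_mul_SP κ α L h1 e (coeff e p))
    have := Finset.le_sup (f := wt κ) he
    rw [← p.as_sum]
    omega

include hE hlead in
theorem lead_of_wd (hok : ∀ i j, OK κ E α L i j) (f : MvPolynomial σ k)
    (hf : ∃ K, Wd κ E α L K f)
    (e : σ →₀ ℕ) (he : e ∈ f.support) (hmax : ∀ e' ∈ f.support, wt κ e' ≤ wt κ e) :
    ∃ i, ∀ v, v ∉ E → L i v ≤ e v := by
  classical
  have hK := Nat.find_spec hf
  have hmin := fun m (hm : m < Nat.find hf) => Nat.find_min hf hm
  generalize Nat.find hf = K at hK hmin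
  obtain ⟨μ, hμ, hmem⟩ := hK
  change _ ∈ SP κ α L K at hmem
  have hμ0 : wt κ μ = 0 := wt_unit hE hμ
  have hc : coeff (μ + e) (monomial μ (1 : k) * f) ≠ 0 := by
    rw [coeff_monomial_mul, one_mul]
    exact mem_support_iff.1 he
  have hlt := wt_lt_of_mem_SP κ α L hlead hmem _ hc
  rw [wt_add, hμ0, zero_add] at hlt
  obtain ⟨K', rfl⟩ : ∃ K', K = K' + 1 := ⟨K - 1, by omega⟩
  obtain ⟨a, ha1, ν, hν, ha2⟩ := exists_normal κ E hE α L hlead hok hmem
  change _ ∈ SP κ α L K' at ha2
  have hν0 : wt κ ν = 0 := wt_unit hE hν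
  have hco := normal_coeff κ α L hlead a ha1 hν0 ha2
  by_cases hd : wt κ e = K'
  · have h1 := hco (μ + e) (by rw [wt_add, hμ0, zero_add]; exact hd)
    have h2 : μ + e ∈ a.support := by
      rw [Finsupp.mem_support_iff, ← h1]
      exact hc
    obtain ⟨i, hi⟩ := (ha1 _ h2).2
    refine ⟨i, fun v hv => ?_⟩
    have h3 := hi v
    rw [Finsupp.add_apply, (unitMon_iff.1 hμ) v hv, zero_add] at h3
    exact h3
  · exfalso
    have ha0 : a = 0 := by
      ext X
      rw [Finsupp.zero_apply]
      by_contra hX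
      have hX1 := (ha1 X (Finsupp.mem_support_iff.2 hX)).1
      have h1 := hco X hX1
      rw [coeff_monomial_mul'] at h1
      split_ifs at h1 with h2
      · rw [one_mul] at h1
        have h3 : X - μ ∈ f.support := by
          rw [mem_support_iff, h1]
          exact hX
        have h4 := hmax _ h3
        have h5 : wt κ X = wt κ (X - μ) + wt κ μ := by
          rw [← wt_add, tsub_add_cancel_of_le h2]
        omega
      · exact hX h1.symm
    rw [ha0, Finsupp.sum_zero_index, sub_zero] at ha2
    refine hmin K' (by omega) ?_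
    refine wd_of_unit κ E α L hμ ⟨ν, hν, ha2⟩

end GB

include hE hlead in
/-- J4-5: main theorem: leading exponents of elements of the ideal. -/
theorem lead_of_mem [Finite ι] (hok : ∀ i j, OK κ E α L i j) (f : MvPolynomial σ k)
    (hf : ∃ μ : σ →₀ ℕ, UnitMon E μ ∧ monomial μ (1 : k) * f ∈ Ideal.span (Set.range α))
    (e : σ →₀ ℕ) (he : e ∈ f.support) (hmax : ∀ e' ∈ f.support, wt κ e' ≤ wt κ e) :
    ∃ i, ∀ v, v ∉ E → L i v ≤ e v := by
  obtain ⟨μ, hμ, hmem⟩ := hf
  obtain ⟨K, hK⟩ := exists_level κ α L hmem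
  exact lead_of_wd κ E hE α L hlead hok f ⟨K, μ, hμ, hK⟩ e he hmax

namespace GB

/-- reducible exponents -/
def Red (e : σ →₀ ℕ) : Prop := ∃ i, ∀ v, v ∉ E → L i v ≤ e v

/-- polynomials which can be reduced -/
def RP (p : MvPolynomial σ k) : Prop :=
  ∃ (ν : σ →₀ ℕ) (r : MvPolynomial σ k), UnitMon E ν ∧
    monomial ν (1 : k) * p - r ∈ Ideal.span (Set.range α) ∧
    ∀ e, coeff e r ≠ 0 → ¬ Red E L e

theorem RP_zero : RP E α L (0 : MvPolynomial σ k) := by
  refine ⟨0, 0, unit_zero E, by simp, ?_⟩
  intro e he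
  simp at he

theorem red_add_unit {e ν : σ →₀ ℕ} (hν : UnitMon E ν) : Red E L (ν + e) ↔ Red E L e := by
  unfold Red
  constructor
  · rintro ⟨i, h⟩
    refine ⟨i, fun v hv => ?_⟩
    have := h v hv
    rwa [Finsupp.add_apply, (unitMon_iff.1 hν) v hv, zero_add] at this
  · rintro ⟨i, h⟩
    refine ⟨i, fun v hv => ?_⟩
    rw [Finsupp.add_apply]
    exact le_add_left (h v hv)

theorem not_red_unit_mul {ν : σ →₀ ℕ} (hν : UnitMon E ν) {r : MvPolynomial σ k}
    (hr : ∀ e, coeff e r ≠ 0 → ¬ Red E L e) (e : σ →₀ ℕ)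
    (he : coeff e (monomial ν (1 : k) * r) ≠ 0) : ¬ Red E L e := by
  rw [coeff_monomial_mul'] at he
  split_ifs at he with h1
  · rw [one_mul] at he
    have h2 := hr _ he
    have h3 : e = ν + (e - ν) := (add_tsub_cancel_of_le h1).symm
    rw [h3, red_add_unit E L hν]
    exact h2
  · exact absurd rfl he

theorem RP_add {p q : MvPolynomial σ k} (hp : RP E α L p) (hq : RP E α L q) :
    RP E α L (p + q) := by
  obtain ⟨ν, r, h1, h2, h3⟩ := hp
  obtain ⟨μ, s, h4, h5, h6⟩ := hq
  refine ⟨ν + μ, monomial μ (1 : k) * r + monomial ν (1 : k) * s, unit_add h1 h4, ?_, ?_⟩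
  · have e1 : monomial (ν + μ) (1 : k) * (p + q)
        - (monomial μ (1 : k) * r + monomial ν (1 : k) * s)
        = monomial μ (1 : k) * (monomial ν (1 : k) * p - r)
          + monomial ν (1 : k) * (monomial μ (1 : k) * q - s) := by
      have : monomial (ν + μ) (1 : k) = monomial ν (1 : k) * monomial μ (1 : k) := by
        rw [monomial_mul, mul_one]
      rw [this]
      ring
    rw [e1]
    exact Ideal.add_mem _ (Ideal.mul_mem_left _ _ h2) (Ideal.mul_mem_left _ _ h5)
  · intro e he
    rw [coeff_add] at he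
    by_cases h7 : coeff e (monomial μ (1 : k) * r) = 0
    · rw [h7, zero_add] at he
      exact not_red_unit_mul E L h1 h6 e he
    · exact not_red_unit_mul E L h4 h3 e h7

theorem RP_smul {p : MvPolynomial σ k} (hp : RP E α L p) (c : k) : RP E α L (c • p) := by
  obtain ⟨ν, r, h1, h2, h3⟩ := hp
  refine ⟨ν, c • r, h1, ?_, ?_⟩
  · rw [mul_smul_comm, ← smul_sub, ← C_mul']
    exact Ideal.mul_mem_left _ _ h2
  · intro e he
    rw [coeff_smul, smul_eq_mul] at he
    exact h3 e (right_ne_zero_of_mul he)

theorem RP_sum {τ : Type*} (s : Finset τ) (f : τ → MvPolynomial σ k)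
    (h : ∀ t ∈ s, RP E α L (f t)) : RP E α L (∑ t ∈ s, f t) := by
  classical
  induction s using Finset.induction_on with
  | empty => rw [Finset.sum_empty]; exact RP_zero E α L
  | insert a s ha ih =>
    rw [Finset.sum_insert ha]
    exact RP_add E α L (h a (Finset.mem_insert_self _ _))
      (ih (fun t ht => h t (Finset.mem_insert_of_mem ht)))

theorem RP_of_unit {p : MvPolynomial σ k} {μ : σ →₀ ℕ} (hμ : UnitMon E μ)
    (h : RP E α L (monomial μ (1 : k) * p)) : RP E α L p := by
  obtain ⟨ν, r, h1, h2, h3⟩ := h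
  refine ⟨ν + μ, r, unit_add h1 hμ, ?_, h3⟩
  rw [← mul_assoc, monomial_mul, mul_one] at h2
  exact h2

theorem RP_of_sub {p q : MvPolynomial σ k} (h : p - q ∈ Ideal.span (Set.range α))
    (hq : RP E α L q) : RP E α L p := by
  obtain ⟨ν, r, h1, h2, h3⟩ := hq
  refine ⟨ν, r, h1, ?_, h3⟩
  have e1 : monomial ν (1 : k) * p - r
      = monomial ν (1 : k) * (p - q) + (monomial ν (1 : k) * q - r) := by ring
  rw [e1]
  exact Ideal.add_mem _ (Ideal.mul_mem_left _ _ h) h2

include hE hlead in
theorem RP_monomial (d : ℕ) : ∀ e : σ →₀ ℕ, wt κ e = d → RP E α L (monomial e (1 : k)) := by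
  classical
  induction d using Nat.strong_induction_on with
  | _ d ih =>
    intro e hed
    by_cases hred : Red E L e
    · obtain ⟨i, hi⟩ := hred
      set μ : σ →₀ ℕ := (L i).filter (fun v => v ∈ E) with hμdef
      have hμ : UnitMon E μ := by
        rw [unitMon_iff]
        intro v hv
        rw [hμdef, Finsupp.filter_apply, if_neg hv]
      have hle : L i ≤ μ + e := by
        intro v
        rw [Finsupp.add_apply, hμdef, Finsupp.filter_apply]
        by_cases hv : v ∈ E
        · rw [if_pos hv]; omega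
        · rw [if_neg hv, zero_add]
          exact hi v hv
      have hμ0 : wt κ μ = 0 := wt_unit hE hμ
      refine RP_of_unit E α L hμ ?_
      rw [monomial_mul, mul_one]
      -- subtract a multiple of `α i`
      have hci := (hlead i).1
      set q : MvPolynomial σ k := monomial (μ + e) (1 : k)
        - monomial (μ + e - L i) (coeff (L i) (α i))⁻¹ * α i with hq
      refine RP_of_sub E α L (q := q) ?_ ?_
      · rw [hq, sub_sub_cancel]
        exact Ideal.mul_mem_left _ _ (Ideal.subset_span ⟨i, rfl⟩)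
      · rw [q.as_sum]
        refine RP_sum E α L _ _ (fun X hX => ?_)
        have hXw : wt κ X < d := by
          have hX' := mem_support_iff.1 hX
          rw [hq, coeff_sub, coeff_monomial, coeff_monomial_mul'] at hX'
          by_cases hXe : μ + e = X
          · exfalso
            apply hX'
            rw [if_pos hXe, if_pos (by rw [← hXe]; exact tsub_le_self)]
            have : X - (μ + e - L i) = L i := by
              rw [← hXe]
              ext v
              have := hle v
              simp only [Finsupp.tsub_apply] at this ⊢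
              omega
            rw [this, inv_mul_cancel₀ hci, sub_self]
          · rw [if_neg hXe, zero_sub] at hX'
            split_ifs at hX' with h1
            · have h2 : coeff (X - (μ + e - L i)) (α i) ≠ 0 := by
                intro hc
                apply hX'
                rw [hc, mul_zero, neg_zero]
              have h3 : X - (μ + e - L i) ≠ L i := by
                intro hc
                apply hXe
                have : X = (X - (μ + e - L i)) + (μ + e - L i) := (tsub_add_cancel_of_le h1).symm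
                rw [this, hc, add_tsub_cancel_of_le hle]
              have h4 := (hlead i).2 _ (mem_support_iff.2 h2) h3
              have h5 : wt κ X = wt κ (X - (μ + e - L i)) + wt κ (μ + e - L i) := by
                rw [← wt_add, tsub_add_cancel_of_le h1]
              have h6 : wt κ (μ + e) = wt κ (μ + e - L i) + wt κ (L i) := by
                rw [← wt_add, tsub_add_cancel_of_le hle]
              rw [wt_add, hμ0, zero_add, hed] at h6
              omega
            · exact absurd neg_zero hX'
        have h7 : monomial X (coeff X q) = coeff X q • monomial X (1 : k) := by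
          rw [smul_monomial, smul_eq_mul, mul_one]
        rw [h7]
        exact RP_smul E α L (ih _ hXw X rfl) _
    · refine ⟨0, monomial e (1 : k), unit_zero E, ?_, ?_⟩
      · have : monomial (0 : σ →₀ ℕ) (1 : k) = 1 := rfl
        rw [this, one_mul, sub_self]
        exact Ideal.zero_mem _
      · intro e' he'
        rw [coeff_monomial] at he'
        split_ifs at he' with h1
        · rw [← h1]; exact hred
        · exact absurd rfl he'

include hE hlead in
theorem RP_all (p : MvPolynomial σ k) : RP E α L p := by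
  classical
  rw [p.as_sum]
  refine RP_sum E α L _ _ (fun X _ => ?_)
  have h7 : monomial X (coeff X p) = coeff X p • monomial X (1 : k) := by
    rw [smul_monomial, smul_eq_mul, mul_one]
  rw [h7]
  exact RP_smul E α L (RP_monomial κ E hE α L hlead _ X rfl) _

/-- unit monomials are nonzerodivisors -/
theorem nzd_unitMon (Q : Ideal (MvPolynomial σ k))
    (hEQ : ∀ u ∈ E, NZD Q (X u : MvPolynomial σ k)) {μ : σ →₀ ℕ} (hμ : UnitMon E μ) :
    NZD Q (monomial μ (1 : k)) := by
  classical
  induction μ using Finsupp.induction with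
  | zero =>
    intro f hf
    have : monomial (0 : σ →₀ ℕ) (1 : k) = 1 := rfl
    rwa [this, one_mul] at hf
  | single_add v n ν hv hn ih =>
    have hsupp : v ∈ (Finsupp.single v n + ν).support := by
      rw [Finsupp.mem_support_iff, Finsupp.add_apply, Finsupp.single_eq_same]
      omega
    have hvE : v ∈ E := hμ v hsupp
    have hν : UnitMon E ν := by
      rw [unitMon_iff] at hμ ⊢
      intro w hw
      have := hμ w hw
      rw [Finsupp.add_apply] at this
      omega
    intro f hf
    have e1 : monomial (Finsupp.single v n + ν) (1 : k) = (X v)^n * monomial ν 1 := by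
      rw [X_pow_eq_monomial, monomial_mul, mul_one]
    rw [e1, mul_assoc] at hf
    have h1 : ∀ (m : ℕ) (g : MvPolynomial σ k), (X v)^m * g ∈ Q → g ∈ Q := by
      intro m
      induction m with
      | zero => intro g hg; rwa [pow_zero, one_mul] at hg
      | succ m ihm =>
        intro g hg
        rw [pow_succ, mul_assoc] at hg
        exact hEQ v hvE _ (ihm _ hg)
    exact ih hν _ (h1 n _ hf)

end GB

include hE hlead in
/-- J4-6: a variable not occurring in any leading exponent is a nonzerodivisor. -/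
theorem nzd_of_ok [Finite ι] (hok : ∀ i j, OK κ E α L i j) (Q : Ideal (MvPolynomial σ k))
    (G : Set (MvPolynomial σ k)) (hQ : Q = Ideal.span G)
    (hαQ : ∀ i, α i ∈ Q)
    (hG : ∀ g ∈ G, ∃ μ : σ →₀ ℕ, UnitMon E μ ∧
      monomial μ (1 : k) * g ∈ Ideal.span (Set.range α))
    (hEQ : ∀ u ∈ E, NZD Q (X u : MvPolynomial σ k)) (y : σ) (hy : ∀ i, L i y = 0) :
    NZD Q (X y : MvPolynomial σ k) := by
  classical
  have hIQ : Ideal.span (Set.range α) ≤ Q := by
    rw [Ideal.span_le]
    rintro g ⟨i, rfl⟩
    exact hαQ i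
  -- elements of `Q` have unit multiples in the span of the `α i`
  have hQE : ∀ f ∈ Q, ∃ μ : σ →₀ ℕ, UnitMon E μ ∧
      monomial μ (1 : k) * f ∈ Ideal.span (Set.range α) := by
    intro f hf
    rw [hQ] at hf
    induction hf using Submodule.span_induction with
    | mem g hg => exact hG g hg
    | zero => exact ⟨0, unit_zero E, by rw [mul_zero]; exact Ideal.zero_mem _⟩
    | add a b _ _ ha hb =>
      obtain ⟨μ, h1, h2⟩ := ha
      obtain ⟨ν, h3, h4⟩ := hb
      refine ⟨μ + ν, unit_add h1 h3, ?_⟩
      have e1 : monomial (μ + ν) (1 : k) * (a + b)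
          = monomial ν (1 : k) * (monomial μ (1 : k) * a)
            + monomial μ (1 : k) * (monomial ν (1 : k) * b) := by
        rw [← mul_assoc, ← mul_assoc, monomial_mul, monomial_mul, mul_one, add_comm ν μ, mul_add]
      rw [e1]
      exact Ideal.add_mem _ (Ideal.mul_mem_left _ _ h2) (Ideal.mul_mem_left _ _ h4)
    | smul p a _ ha =>
      obtain ⟨μ, h1, h2⟩ := ha
      refine ⟨μ, h1, ?_⟩
      rw [smul_eq_mul, mul_left_comm]
      exact Ideal.mul_mem_left _ _ h2
  intro p hp
  obtain ⟨ν, r, hν, h2, h3⟩ := RP_all κ E hE α L hlead p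
  by_cases hr : r = 0
  · rw [hr, sub_zero] at h2
    exact nzd_unitMon E Q hEQ hν p (hIQ h2)
  · exfalso
    obtain ⟨μ, hμ, h4⟩ := hQE _ hp
    have h5 : monomial μ (1 : k) * (X y * r) ∈ Ideal.span (Set.range α) := by
      have e1 : monomial μ (1 : k) * (X y * r)
          = monomial ν (1 : k) * (monomial μ (1 : k) * (X y * p))
            - monomial μ (1 : k) * X y * (monomial ν (1 : k) * p - r) := by ring
      rw [e1]
      exact Ideal.sub_mem _ (Ideal.mul_mem_left _ _ h4) (Ideal.mul_mem_left _ _ h2)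
    have hne : r.support.Nonempty := by
      rw [Finset.nonempty_iff_ne_empty]
      intro hc
      exact hr (support_eq_empty.1 hc)
    obtain ⟨e, he, hmax⟩ := Finset.exists_max_image r.support (wt κ) hne
    have hsup : ∀ e' ∈ (X y * r : MvPolynomial σ k).support,
        ∃ e'' ∈ r.support, e' = Finsupp.single y 1 + e'' := by
      intro e' he'
      rw [mem_support_iff, X, coeff_monomial_mul'] at he'
      split_ifs at he' with h6
      · rw [one_mul] at he'
        exact ⟨e' - Finsupp.single y 1, mem_support_iff.2 he',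
          (add_tsub_cancel_of_le h6).symm⟩
      · exact absurd rfl he'
    have hmem : Finsupp.single y 1 + e ∈ (X y * r : MvPolynomial σ k).support := by
      rw [mem_support_iff, X, coeff_monomial_mul, one_mul]
      exact mem_support_iff.1 he
    obtain ⟨i, hi⟩ := lead_of_mem κ E hE α L hlead hok (X y * r) ⟨μ, hμ, h5⟩
      (Finsupp.single y 1 + e) hmem (by
        intro e' he'
        obtain ⟨e'', h7, rfl⟩ := hsup e' he'
        rw [wt_add, wt_add]
        have := hmax e'' h7
        omega)
    refine h3 e (mem_support_iff.1 he) ⟨i, fun v hv => ?_⟩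
    have h8 := hi v hv
    rw [Finsupp.add_apply] at h8
    by_cases hvy : v = y
    · subst hvy
      rw [hy i]
      exact Nat.zero_le _
    · rw [Finsupp.single_apply, if_neg (fun hc => hvy hc.symm), zero_add] at h8
      exact h8

end J4

end Pool.Agent.Helper97.Hilb8
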