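import Mathlib

/-!
# Weighted leading forms, S-pairs up to unit monomials: definitions
-/

namespace Pool.Agent.Helper97.Hilb8

open MvPolynomial

variable {σ : Type*} [DecidableEq σ] {k : Type*} [Field k]

/-- The weight of an exponent vector. -/
def wt (κ : σ → ℕ) (e : σ →₀ ℕ) : ℕ := e.sum fun v n => n * κ v

/-- `IsLead κ f L`: `L` is an exponent of `f` and every other exponent of `f` has strictly smaller
`κ`-weight. -/
def IsLead (κ : σ → ℕ) (f : MvPolynomial σ k) (L : σ →₀ ℕ) : Prop :=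
  coeff L f ≠ 0 ∧ ∀ e ∈ f.support, e ≠ L → wt κ e < wt κ L

/-- The exponent vectors supported on the unit variables. -/
def UnitMon (E : Set σ) (μ : σ →₀ ℕ) : Prop := ∀ v ∈ μ.support, v ∈ E

/-- `Wd κ E α L d f`: a unit monomial multiple of `f` is a `k`-linear combination of products
`x^m * α i` with `wt m + wt (L i) < d`. -/
def Wd {ι : Type*} (κ : σ → ℕ) (E : Set σ) (α : ι → MvPolynomial σ k) (L : ι → σ →₀ ℕ) (d : ℕ)
    (f : MvPolynomial σ k) : Prop :=
  ∃ μ : σ →₀ ℕ, UnitMon E μ ∧ monomial μ (1 : k) * f ∈ Submodule.span k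
    {g | ∃ (m : σ →₀ ℕ) (i : ι), wt κ m + wt κ (L i) < d ∧ g = monomial m (1 : k) * α i}

/-- The S-polynomial of `α i` and `α j`. -/
noncomputable def spair {ι : Type*} (α : ι → MvPolynomial σ k) (L : ι → σ →₀ ℕ) (i j : ι) :
    MvPolynomial σ k :=
  monomial (L i ⊔ L j - L i) (coeff (L j) (α j)) * α i -
    monomial (L i ⊔ L j - L j) (coeff (L i) (α i)) * α j

/-- The S-pair `(i, j)` is good. -/
def OK {ι : Type*} (κ : σ → ℕ) (E : Set σ) (α : ι → MvPolynomial σ k) (L : ι → σ →₀ ℕ)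
    (i j : ι) : Prop :=
  Wd κ E α L (wt κ (L i ⊔ L j)) (spair α L i j)

/-- `p` is a nonzerodivisor modulo `Q`. -/
def NZD {S : Type*} [CommRing S] (Q : Ideal S) (p : S) : Prop := ∀ f, p * f ∈ Q → f ∈ Q

/-- `IsTop w f g d`: `g` is `w`-homogeneous of degree `d` and `f - g` has only monomials of
`w`-weight smaller than `d` (so `g` is the part of degree `d` of `f`, possibly `0`, and `f` has
no monomials of larger weight). -/
def IsTop (w : σ → ℕ) (f g : MvPolynomial σ k) (d : ℕ) : Prop :=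
  (∀ e ∈ g.support, wt w e = d) ∧ ∀ e ∈ (f - g).support, wt w e < d

/-- `w`-homogeneous polynomials. -/
def Hom (w : σ → ℕ) (f : MvPolynomial σ k) : Prop := ∃ d, ∀ e ∈ f.support, wt w e = d

end Pool.Agent.Helper97.Hilb8
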