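import Pool.Agent.Helper97.Hilb8.Defs
import Pool.Agent.Helper97.Hilb8.GBDefs

/-!
# Border-basis charts: definitions
-/

universe u

namespace Pool.Agent.Helper97.Hilb8

open MvPolynomial

/-- Combinatorial data of a border-basis chart: `mono n` (`n < 8 + nb`) are exponent vectors of
monomials in `x₁,…,x₄`; the first 8 form the basis (an order ideal), the others its border;
`nxt i c` is the index of `x_i * mono c`. -/
structure Chart where
  nb : ℕ
  mono : ℕ → Fin 4 → ℕ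
  nxt : Fin 4 → Fin 8 → ℕ
  nxt_lt : ∀ i c, nxt i c < 8 + nb
  mono_zero : mono 0 = 0
  mono_nxt : ∀ i (c : Fin 8), mono (nxt i c) = mono c + Pi.single i 1
  pred : ∀ c : Fin 8, c ≠ 0 → ∃ i, ∃ c' : Fin 8, c' < c ∧ nxt i c' = c
  border : ∀ β < nb, ∃ i c, nxt i c = 8 + β

namespace Chart

/-- The product `∏ x_i ^ (mono n i)`. -/
def monoEl (C : Chart) {A : Type*} [Monoid A] (x : Fin 4 → A) (n : ℕ) : A :=
  x 0 ^ C.mono n 0 * x 1 ^ C.mono n 1 * x 2 ^ C.mono n 2 * x 3 ^ C.mono n 3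

/-- The matrix of multiplication by `x_i` in the basis, with border coefficients `a`
(the coefficient of the basis monomial `r` in the border monomial `β` is `a (8 * β + r)`). -/
def mat (C : Chart) {A : Type*} [CommRing A] (a : ℕ → A) (i : Fin 4) : Matrix (Fin 8) (Fin 8) A :=
  Matrix.of fun r c =>
    if C.nxt i c < 8 then (if C.nxt i c = (r : ℕ) then 1 else 0)
    else a (8 * (C.nxt i c - 8) + r)

/-- `a` satisfies the commutator relations of the chart. -/
def IsPt (C : Chart) {A : Type*} [CommRing A] (a : ℕ → A) : Prop :=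
  ∀ i j : Fin 4, C.mat a i * C.mat a j = C.mat a j * C.mat a i

/-- The variable number `v` of the coordinate ring of the chart (`0` for `v ≥ 8 * nb`). -/
noncomputable def var (C : Chart) (k : Type*) [CommRing k] (v : ℕ) :
    MvPolynomial (Fin (8 * C.nb)) k :=
  if h : v < 8 * C.nb then X ⟨v, h⟩ else 0

/-- The ideal generated by the entries of the commutators. -/
noncomputable def ideal (C : Chart) (k : Type*) [CommRing k] :
    Ideal (MvPolynomial (Fin (8 * C.nb)) k) :=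
  Ideal.span {p | ∃ (i j : Fin 4) (r c : Fin 8),
    p = (C.mat (C.var k) i * C.mat (C.var k) j - C.mat (C.var k) j * C.mat (C.var k) i) r c}

/-- Coordinates of the border monomials in a basis. -/
noncomputable def coord (C : Chart) {A M : Type*} [CommRing A] [AddCommGroup M] [Module A M]
    (b : Module.Basis (Fin 8) A M) (X : Fin 4 → Module.End A M) (e : M) (v : ℕ) : A :=
  b.repr (C.monoEl X (8 + v / 8) e) ⟨v % 8, Nat.mod_lt _ (by norm_num)⟩

end Chart

/-- Exponent vectors in chart b: basis `1,x₁,x₂,x₃,x₄,x₃²,x₃x₄,x₄²`. -/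
def monoB : List (List ℕ) :=
  [[0,0,0,0],[1,0,0,0],[0,1,0,0],[0,0,1,0],[0,0,0,1],[0,0,2,0],[0,0,1,1],[0,0,0,2],[2,0,0,0],
   [1,1,0,0],[1,0,1,0],[1,0,0,1],[0,2,0,0],[0,1,1,0],[0,1,0,1],[1,0,2,0],[0,1,2,0],[0,0,3,0],
   [0,0,2,1],[1,0,1,1],[0,1,1,1],[0,0,1,2],[1,0,0,2],[0,1,0,2],[0,0,0,3]]

/-- Successor table of chart b. -/
def nxtB : List (List ℕ) :=
  [[1,8,9,10,11,15,19,22],[2,9,12,13,14,16,20,23],[3,10,13,5,6,17,18,21],
   [4,11,14,6,7,18,21,24]]

/-- Exponent vectors in chart a: basis `1,x₁,x₂,x₃,x₄,x₄²,x₃x₄,x₂x₄`. -/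
def monoA : List (List ℕ) :=
  [[0,0,0,0],[1,0,0,0],[0,1,0,0],[0,0,1,0],[0,0,0,1],[0,0,0,2],[0,0,1,1],[0,1,0,1],[2,0,0,0],
   [1,1,0,0],[1,0,1,0],[1,0,0,1],[0,2,0,0],[0,1,1,0],[0,0,2,0],[1,0,0,2],[0,1,0,2],[0,0,1,2],
   [0,0,0,3],[1,0,1,1],[0,1,1,1],[0,0,2,1],[1,1,0,1],[0,2,0,1]]

/-- Successor table of chart a. -/
def nxtA : List (List ℕ) :=
  [[1,8,9,10,11,15,19,22],[2,9,12,13,7,16,20,23],[3,10,13,14,6,17,21,20],
   [4,11,7,6,5,18,17,16]]

/-- Chart b. -/
def chartB : Chart where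
  nb := 17
  mono := fun n i => (monoB.getD n []).getD i 0
  nxt := fun i c => (nxtB.getD i []).getD c 0
  nxt_lt := by decide
  mono_zero := by decide
  mono_nxt := by decide
  pred := by decide
  border := by decide

/-- Chart a. -/
def chartA : Chart where
  nb := 16
  mono := fun n i => (monoA.getD n []).getD i 0
  nxt := fun i c => (nxtA.getD i []).getD c 0
  nxt_lt := by decide
  mono_zero := by decide
  mono_nxt := by decide
  pred := by decide
  border := by decide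

/-- Data for the valuation given by 8 monomial points. -/
structure PtsData (C : Chart) where
  /-- exponents of `T` (first weights) -/
  al : Fin 8 → Fin 4 → ℕ
  /-- exponents of `S` (second weights) -/
  be : Fin 8 → Fin 4 → ℕ
  /-- weights of the variables -/
  w : Fin (8 * C.nb) → ℕ
  WO : ℕ
  /-- row and column potentials for the determinants of the variables -/
  p : Fin (8 * C.nb) → Fin 8 → ℤ
  q : Fin (8 * C.nb) → Fin 8 → ℤ
  /-- potentials for the basis determinant -/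
  p0 : Fin 8 → ℤ
  q0 : Fin 8 → ℤ
  /-- transcendence basis -/
  Z : Fin 32 → Fin (8 * C.nb)
  /-- optimal permutations -/
  sg0 : Equiv.Perm (Fin 8)
  sg : Fin 32 → Equiv.Perm (Fin 8)
  /-- second potentials -/
  p0' : Fin 8 → ℤ
  q0' : Fin 8 → ℤ
  p' : Fin 32 → Fin 8 → ℤ
  q' : Fin 32 → Fin 8 → ℤ
  /-- inverse of the exponent matrix up to the factor `c` -/
  G : Fin 8 → Fin 4 → Fin 32 → ℤ
  c : ℤ

namespace PtsData

variable {C : Chart} (D : PtsData C)

/-- Index of the monomial in column `c` of the determinant of the variable `v`. -/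
def col (C : Chart) (v : ℕ) (c : Fin 8) : ℕ := if (c : ℕ) = v % 8 then 8 + v / 8 else c

/-- The pairing of weights at the point `j` with the monomial number `n`. -/
def pr (C : Chart) (a : Fin 8 → Fin 4 → ℕ) (j : Fin 8) (n : ℕ) : ℤ :=
  ∑ i, (a j i : ℤ) * (C.mono n i : ℤ)

/-- The conditions on the data. -/
structure Valid : Prop where
  Z_inj : Function.Injective D.Z
  sum_w : ∀ v, ∑ j, D.p v j + ∑ c, D.q v c = D.w v + D.WO
  le_w : ∀ (v : Fin (8 * C.nb)) j c, pr C D.al j (col C v c) ≤ D.p v j + D.q v c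
  sum_0 : ∑ j, D.p0 j + ∑ c, D.q0 c = D.WO
  le_0 : ∀ j (c : Fin 8), pr C D.al j c ≤ D.p0 j + D.q0 c
  tight_0 : ∀ j, pr C D.al j (D.sg0 j) = D.p0 j + D.q0 (D.sg0 j) ∧
    pr C D.be j (D.sg0 j) = D.p0' j + D.q0' (D.sg0 j)
  strict_0 : ∀ j c, c ≠ D.sg0 j → pr C D.al j (c : ℕ) = D.p0 j + D.q0 c →
    pr C D.be j (c : ℕ) < D.p0' j + D.q0' c
  tight : ∀ z j, pr C D.al j (col C (D.Z z) (D.sg z j)) = D.p (D.Z z) j + D.q (D.Z z) (D.sg z j) ∧
    pr C D.be j (col C (D.Z z) (D.sg z j)) = D.p' z j + D.q' z (D.sg z j)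
  strict : ∀ z j c, c ≠ D.sg z j →
    pr C D.al j (col C (D.Z z) c) = D.p (D.Z z) j + D.q (D.Z z) c →
    pr C D.be j (col C (D.Z z) c) < D.p' z j + D.q' z c
  c_ne : D.c ≠ 0
  indep : ∀ z z' : Fin 32, ∑ j, ∑ i, ((C.mono (col C (D.Z z) (D.sg z j)) i : ℤ) -
    (C.mono (D.sg0 j) i : ℤ)) * D.G j i z' = if z = z' then D.c else 0

end PtsData

end Pool.Agent.Helper97.Hilb8
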