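import Mathlib

/-!
# The Hilbert scheme of 8 points in affine 4-space: definitions
-/

open AlgebraicGeometry CategoryTheory

universe u

namespace Pool.Agent.Helper97.Hilb8

/-- `IsFamily R I`: the closed subscheme of affine 4-space over `Spec R` cut out by the ideal `I`
of `R[x₁,…,x₄]` is finite and flat of degree `8` over `Spec R`. -/
structure IsFamily (R : Type u) [CommRing R] (I : Ideal (MvPolynomial (Fin 4) R)) : Prop where
  finite : Module.Finite R (MvPolynomial (Fin 4) R ⧸ I)
  flat : Module.Flat R (MvPolynomial (Fin 4) R ⧸ I)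
  degree : ∀ p : PrimeSpectrum R,
    Module.finrank p.asIdeal.ResidueField
      (TensorProduct R p.asIdeal.ResidueField (MvPolynomial (Fin 4) R ⧸ I)) = 8

/-- The `k`-morphisms from `Spec R` to a `k`-scheme `H`. -/
noncomputable def Pts (k : Type u) [Field k] (H : Scheme.{u}) (s : H ⟶ Spec (CommRingCat.of k))
    (R : Type u) [CommRing R] [Algebra k R] : Type u :=
  {g : Spec (CommRingCat.of R) ⟶ H // g ≫ s = Spec.map (CommRingCat.ofHom (algebraMap k R))}

/-- Composition of an `R`-valued point with the morphism of spectra of a `k`-algebra map. -/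
noncomputable def Pts.map {k : Type u} [Field k] {H : Scheme.{u}} {s : H ⟶ Spec (CommRingCat.of k)}
    {R : Type u} [CommRing R] [Algebra k R] {S : Type u} [CommRing S] [Algebra k S]
    (φ : R →ₐ[k] S) (g : Pts k H s R) : Pts k H s S :=
  ⟨Spec.map (CommRingCat.ofHom (φ : R →+* S)) ≫ g.1, by
    rw [Category.assoc, g.2, ← Spec.map_comp, ← CommRingCat.ofHom_comp]
    congr 2
    exact φ.comp_algebraMap⟩

/-- `HilbRep k H s`: the `k`-scheme `H` represents the Hilbert functor of 8 points of affine
4-space over `k` (on affine `k`-schemes, which determine it): a bijection between the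
`k`-morphisms `Spec R ⟶ H` and the closed subschemes of affine 4-space over `Spec R` that are
finite and flat of degree 8 over `Spec R`, natural in the `k`-algebra `R`. -/
structure HilbRep (k : Type u) [Field k] (H : Scheme.{u}) (s : H ⟶ Spec (CommRingCat.of k)) where
  /-- the bijection -/
  equiv : ∀ (R : Type u) [CommRing R] [Algebra k R],
    Pts k H s R ≃ {I : Ideal (MvPolynomial (Fin 4) R) // IsFamily R I}
  /-- naturality: composing with `Spec S ⟶ Spec R` is pulling back the subscheme -/
  natural : ∀ (R : Type u) [CommRing R] [Algebra k R] (S : Type u) [CommRing S] [Algebra k S]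
    (φ : R →ₐ[k] S) (g : Pts k H s R),
    (equiv S (g.map φ)).1 = (equiv R g).1.map (MvPolynomial.map (φ : R →+* S))

end Pool.Agent.Helper97.Hilb8
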