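import Pool.Agent.Helper97.Hilb8.GBDefs

/-!
Elimination (J5b), elimination of redundant variables (J5c), divisors of nonzerodivisors (J5d).
-/

namespace Pool.Agent.Helper97.Hilb8.ElimAux

open MvPolynomial

variable {σ : Type*} {k : Type*} [Field k]

theorem wt_eq_weight (w : σ → ℕ) (e : σ →₀ ℕ) : wt w e = Finsupp.weight w e := by
  simp [wt, Finsupp.weight_apply]

theorem hom_iff (w : σ → ℕ) (f : MvPolynomial σ k) :
    Hom w f ↔ ∃ d, IsWeightedHomogeneous w f d := by
  constructor
  · rintro ⟨d, hd⟩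
    refine ⟨d, fun e he => ?_⟩
    rw [← wt_eq_weight]
    exact hd e (mem_support_iff.2 he)
  · rintro ⟨d, hd⟩
    refine ⟨d, fun e he => ?_⟩
    rw [wt_eq_weight]
    exact hd (mem_support_iff.1 he)

theorem span_comp_mem (w : σ → ℕ) (G : Set (MvPolynomial σ k)) (hG : ∀ g ∈ G, Hom w g)
    {p : MvPolynomial σ k} (hp : p ∈ Ideal.span G) (n : ℕ) :
    weightedHomogeneousComponent w n p ∈ Ideal.span G := by
  let _ := MvPolynomial.weightedGradedAlgebra k w
  refine weightedHomogeneousComponent_mem_of_mem k w ?_ hp n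
  refine Ideal.homogeneous_span _ _ fun x hx => ?_
  obtain ⟨d, hd⟩ := (hom_iff w x).1 (hG x hx)
  exact ⟨d, hd⟩

theorem comp_supported (w : σ → ℕ) (Z : Set σ) {p : MvPolynomial σ k}
    (hp : p ∈ supported k Z) (n : ℕ) :
    weightedHomogeneousComponent w n p ∈ supported k Z := by
  rw [mem_supported] at hp ⊢
  intro v hv
  apply hp
  rw [Finset.mem_coe, mem_vars_iff_mem_support] at hv ⊢
  obtain ⟨d, hd, hvd⟩ := hv
  refine ⟨d, ?_, hvd⟩
  rw [support_weightedHomogeneousComponent, Finset.mem_filter] at hd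
  exact hd.1

theorem nzd_one {S : Type*} [CommRing S] (Q : Ideal S) : NZD Q 1 := by
  intro f hf
  simpa using hf

theorem nzd_mul {S : Type*} [CommRing S] (Q : Ideal S) {a b : S} (ha : NZD Q a) (hb : NZD Q b) :
    NZD Q (a * b) := by
  intro f hf
  rw [mul_assoc] at hf
  exact hb f (ha _ hf)

theorem nzd_pow {S : Type*} [CommRing S] (Q : Ideal S) {a : S} (ha : NZD Q a) (n : ℕ) :
    NZD Q (a ^ n) := by
  induction n with
  | zero => simpa using nzd_one Q
  | succ n ih => rw [pow_succ]; exact nzd_mul Q ih ha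

theorem monomial_prod (M : σ →₀ ℕ) (c : k) :
    monomial M c = C c * ∏ v ∈ M.support, (X v : MvPolynomial σ k) ^ M v := by
  rw [monomial_eq]
  rfl

theorem nzd_monomial (Q : Ideal (MvPolynomial σ k)) (U : Set σ)
    (hU : ∀ u ∈ U, NZD Q (X u : MvPolynomial σ k)) (M : σ →₀ ℕ)
    (c : k) (hc : c ≠ 0) (hM : ∀ v ∈ M.support, v ∈ U) : NZD Q (monomial M c) := by
  rw [monomial_prod]
  apply nzd_mul
  · intro f hf
    have h2 : C c⁻¹ * (C c * f) ∈ Q := Ideal.mul_mem_left _ _ hf
    rwa [← mul_assoc, ← C_mul, inv_mul_cancel₀ hc, C_1, one_mul] at h2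
  · refine Finset.prod_induction _ (NZD Q) (fun a b ha hb => nzd_mul Q ha hb) (nzd_one Q) ?_
    intro v hv
    exact nzd_pow Q (hU v (hM v hv)) _

end Pool.Agent.Helper97.Hilb8.ElimAux

namespace Pool.Agent.Helper97.Hilb8

open MvPolynomial ElimAux

variable {σ : Type*} [DecidableEq σ] {k : Type*} [Field k]

omit [DecidableEq σ] in
/-- J5d: a divisor of a product of nonzerodivisors is a nonzerodivisor. -/
theorem nzd_of_dvd (Q : Ideal (MvPolynomial σ k)) (U : Set σ)
    (hU : ∀ u ∈ U, NZD Q (X u : MvPolynomial σ k)) (p b : MvPolynomial σ k) (M : σ →₀ ℕ)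
    (c : k) (hc : c ≠ 0) (hM : ∀ v ∈ M.support, v ∈ U) (h : p * b - monomial M c ∈ Q) :
    NZD Q p := by
  intro f hf
  refine nzd_monomial Q U hU M c hc hM f ?_
  have e : monomial M c * f = b * (p * f) - f * (p * b - monomial M c) := by ring
  rw [e]
  exact Q.sub_mem (Ideal.mul_mem_left _ _ hf) (Ideal.mul_mem_left _ _ h)

namespace ElimAux

/-- The multiplicative set of admissible denominators. -/
def TT (w : σ → ℕ) (Q : Ideal (MvPolynomial σ k)) (Z U : Set σ) (t : MvPolynomial σ k) : Prop :=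
  t ∈ supported k Z ∧ Hom w t ∧ ∃ (b : MvPolynomial σ k) (M : σ →₀ ℕ),
    (∀ v ∈ M.support, v ∈ U) ∧ t * b - monomial M 1 ∈ Q

/-- The polynomials that can be eliminated. -/
def AA (w : σ → ℕ) (Q : Ideal (MvPolynomial σ k)) (Z U : Set σ) (p : MvPolynomial σ k) : Prop :=
  ∃ t, TT w Q Z U t ∧ ∃ P ∈ supported k Z, t * p - P ∈ Q

/-- The polynomials which are quotients of two denominators. -/
def BB (w : σ → ℕ) (Q : Ideal (MvPolynomial σ k)) (Z U : Set σ) (p : MvPolynomial σ k) : Prop :=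
  ∃ t, TT w Q Z U t ∧ ∃ P, TT w Q Z U P ∧ t * p - P ∈ Q

variable {w : σ → ℕ} {Q : Ideal (MvPolynomial σ k)} {Z U : Set σ}

omit [DecidableEq σ] in
theorem TT.one : TT w Q Z U (1 : MvPolynomial σ k) := by
  refine ⟨(supported k Z).one_mem, ?_, 1, 0, by simp, ?_⟩
  · rw [hom_iff]
    exact ⟨0, isWeightedHomogeneous_one k w⟩
  · have : (1 : MvPolynomial σ k) * 1 - monomial 0 1 = 0 := by simp
    rw [this]
    exact Q.zero_mem

omit [DecidableEq σ] in
theorem supp_add {M N : σ →₀ ℕ} (hM : ∀ v ∈ M.support, v ∈ U) (hN : ∀ v ∈ N.support, v ∈ U) :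
    ∀ v ∈ (M + N).support, v ∈ U := by
  classical
  intro v hv
  have h := Finsupp.support_add hv
  rw [Finset.mem_union] at h
  rcases h with h | h
  · exact hM v h
  · exact hN v h

omit [DecidableEq σ] in
theorem TT.mul {s t : MvPolynomial σ k} (hs : TT w Q Z U s) (ht : TT w Q Z U t) :
    TT w Q Z U (s * t) := by
  obtain ⟨hs1, hs2, b, M, hM, hb⟩ := hs
  obtain ⟨ht1, ht2, c, N, hN, hc⟩ := ht
  refine ⟨(supported k Z).mul_mem hs1 ht1, ?_, b * c, M + N, supp_add hM hN, ?_⟩
  · rw [hom_iff] at hs2 ht2 ⊢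
    obtain ⟨d, hd⟩ := hs2
    obtain ⟨e, he⟩ := ht2
    exact ⟨d + e, hd.mul he⟩
  · have e : s * t * (b * c) - monomial (M + N) 1
        = (t * c) * (s * b - monomial M 1) + monomial M 1 * (t * c - monomial N 1) := by
      have : (monomial (M + N) 1 : MvPolynomial σ k) = monomial M 1 * monomial N 1 := by
        rw [monomial_mul, mul_one]
      rw [this]
      ring
    rw [e]
    exact Q.add_mem (Ideal.mul_mem_left _ _ hb) (Ideal.mul_mem_left _ _ hc)

omit [DecidableEq σ] in
theorem AA_of_supp {p : MvPolynomial σ k} (hp : p ∈ supported k Z) : AA w Q Z U p :=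
  ⟨1, TT.one, p, hp, by simp⟩

omit [DecidableEq σ] in
theorem AA.add {p q : MvPolynomial σ k} (hp : AA w Q Z U p) (hq : AA w Q Z U q) :
    AA w Q Z U (p + q) := by
  obtain ⟨s, hs, P, hP, h1⟩ := hp
  obtain ⟨t, ht, R, hR, h2⟩ := hq
  refine ⟨s * t, hs.mul ht, t * P + s * R, ?_, ?_⟩
  · exact (supported k Z).add_mem ((supported k Z).mul_mem ht.1 hP)
      ((supported k Z).mul_mem hs.1 hR)
  · have e : s * t * (p + q) - (t * P + s * R) = t * (s * p - P) + s * (t * q - R) := by ring
    rw [e]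
    exact Q.add_mem (Ideal.mul_mem_left _ _ h1) (Ideal.mul_mem_left _ _ h2)

omit [DecidableEq σ] in
theorem AA.mul {p q : MvPolynomial σ k} (hp : AA w Q Z U p) (hq : AA w Q Z U q) :
    AA w Q Z U (p * q) := by
  obtain ⟨s, hs, P, hP, h1⟩ := hp
  obtain ⟨t, ht, R, hR, h2⟩ := hq
  refine ⟨s * t, hs.mul ht, P * R, (supported k Z).mul_mem hP hR, ?_⟩
  have e : s * t * (p * q) - P * R = (t * q) * (s * p - P) + P * (t * q - R) := by ring
  rw [e]
  exact Q.add_mem (Ideal.mul_mem_left _ _ h1) (Ideal.mul_mem_left _ _ h2)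

omit [DecidableEq σ] in
theorem AA_of_adjoin {S : Set σ} (hS : ∀ v ∈ S, AA w Q Z U (X v : MvPolynomial σ k))
    {p : MvPolynomial σ k} (hp : p ∈ supported k S) : AA w Q Z U p := by
  unfold supported at hp
  induction hp using Algebra.adjoin_induction with
  | mem x hx =>
    obtain ⟨v, hv, rfl⟩ := hx
    exact hS v hv
  | algebraMap r => exact AA_of_supp ((supported k Z).algebraMap_mem r)
  | add x y _ _ hx hy => exact hx.add hy
  | mul x y _ _ hx hy => exact hx.mul hy

omit [DecidableEq σ] in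
theorem BB.one : BB w Q Z U (1 : MvPolynomial σ k) := ⟨1, TT.one, 1, TT.one, by simp⟩

omit [DecidableEq σ] in
theorem BB.mul {p q : MvPolynomial σ k} (hp : BB w Q Z U p) (hq : BB w Q Z U q) :
    BB w Q Z U (p * q) := by
  obtain ⟨s, hs, P, hP, h1⟩ := hp
  obtain ⟨t, ht, R, hR, h2⟩ := hq
  refine ⟨s * t, hs.mul ht, P * R, hP.mul hR, ?_⟩
  have e : s * t * (p * q) - P * R = (t * q) * (s * p - P) + P * (t * q - R) := by ring
  rw [e]
  exact Q.add_mem (Ideal.mul_mem_left _ _ h1) (Ideal.mul_mem_left _ _ h2)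

omit [DecidableEq σ] in
theorem BB.pow {p : MvPolynomial σ k} (hp : BB w Q Z U p) (n : ℕ) : BB w Q Z U (p ^ n) := by
  induction n with
  | zero => simpa using BB.one
  | succ n ih => rw [pow_succ]; exact ih.mul hp

omit [DecidableEq σ] in
theorem BB_monomial {M : σ →₀ ℕ} (hM : ∀ v ∈ M.support, BB w Q Z U (X v : MvPolynomial σ k)) :
    BB w Q Z U (monomial M (1 : k)) := by
  rw [monomial_prod, C_1, one_mul]
  refine Finset.prod_induction _ (BB w Q Z U) (fun a b ha hb => ha.mul hb) BB.one ?_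
  intro v hv
  exact (hM v hv).pow _

omit [DecidableEq σ] in
theorem BB_X {G : Set (MvPolynomial σ k)} (hQ : Q = Ideal.span G) (hG : ∀ g ∈ G, Hom w g)
    {u : σ} (hu : u ∈ U) (h : AA w Q Z U (X u : MvPolynomial σ k)) :
    BB w Q Z U (X u : MvPolynomial σ k) := by
  obtain ⟨t, ht, P, hP, h1⟩ := h
  obtain ⟨e, he⟩ := (hom_iff w t).1 ht.2.1
  have hXu : IsWeightedHomogeneous w (X u : MvPolynomial σ k) (w u) :=
    isWeightedHomogeneous_X k w u
  have h2 : t * X u - weightedHomogeneousComponent w (e + w u) P ∈ Q := by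
    have h3 := span_comp_mem w G hG (hQ ▸ h1) (e + w u)
    rw [map_sub, weightedHomogeneousComponent_eq_self (he.mul hXu)] at h3
    rw [hQ]
    exact h3
  obtain ⟨ht1, ht2, b, M, hM, hb⟩ := ht
  refine ⟨t, ⟨ht1, ht2, b, M, hM, hb⟩, _, ⟨comp_supported w Z hP _, ?_, b,
    M + Finsupp.single u 1, ?_, ?_⟩, h2⟩
  · rw [hom_iff]
    exact ⟨_, weightedHomogeneousComponent_isWeightedHomogeneous _ _⟩
  · refine supp_add hM fun v hv => ?_
    have := Finsupp.support_single_subset hv
    rw [Finset.mem_singleton] at this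
    rw [this]
    exact hu
  · set P' := weightedHomogeneousComponent w (e + w u) P
    have e1 : P' * b - monomial (M + Finsupp.single u 1) 1
        = X u * (t * b - monomial M 1) - b * (t * X u - P') := by
      have : (monomial (M + Finsupp.single u 1) 1 : MvPolynomial σ k) = monomial M 1 * X u := by
        rw [X, monomial_mul, mul_one]
      rw [this]
      ring
    rw [e1]
    exact Q.sub_mem (Ideal.mul_mem_left _ _ hb) (Ideal.mul_mem_left _ _ h2)

omit [DecidableEq σ] in
theorem AA_step {v : σ} {M : σ →₀ ℕ} {c : k} (hc : c ≠ 0)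
    (hM : BB w Q Z U (monomial M (1 : k))) {R : MvPolynomial σ k} (hR : AA w Q Z U R)
    (h : monomial M c * X v + R ∈ Q) : AA w Q Z U (X v : MvPolynomial σ k) := by
  obtain ⟨s, hs, P, hP, h1⟩ := hM
  obtain ⟨t, ht, R', hR', h2⟩ := hR
  refine ⟨t * P, ht.mul hP, - (C c⁻¹ * (s * R')), ?_, ?_⟩
  · refine (supported k Z).neg_mem ((supported k Z).mul_mem ?_
      ((supported k Z).mul_mem hs.1 hR'))
    exact (supported k Z).algebraMap_mem _
  · have e0 : (monomial M c : MvPolynomial σ k) = C c * monomial M 1 := by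
      rw [C_mul_monomial, mul_one]
    have e2 : (C c⁻¹ * C c : MvPolynomial σ k) = 1 := by
      rw [← C_mul, inv_mul_cancel₀ hc, C_1]
    have e1 : t * P * X v - -(C c⁻¹ * (s * R'))
        = (C c⁻¹ * t * s) * (monomial M c * X v + R) - (C c⁻¹ * s) * (t * R - R')
          - (t * X v) * (s * monomial M 1 - P) := by
      rw [e0]
      linear_combination (-(t * s * monomial M 1 * X v)) * e2
    rw [e1]
    exact Q.sub_mem (Q.sub_mem (Ideal.mul_mem_left _ _ h) (Ideal.mul_mem_left _ _ h2))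
      (Ideal.mul_mem_left _ _ h1)

end ElimAux

omit [DecidableEq σ] in
/-- J5b: elimination. -/
theorem elim_all [Finite σ] (w : σ → ℕ) (Q : Ideal (MvPolynomial σ k))
    (G : Set (MvPolynomial σ k)) (hQ : Q = Ideal.span G) (hG : ∀ g ∈ G, Hom w g)
    (Z U : Set σ) (hU : ∀ u ∈ U, NZD Q (X u : MvPolynomial σ k)) (l : List σ)
    (hl : ∀ v, v ∈ Z ∨ v ∈ l)
    (hrel : ∀ i (hi : i < l.length), ∃ (M : σ →₀ ℕ) (c : k), c ≠ 0 ∧
      (∀ u ∈ M.support, u ∈ U ∧ (u ∈ Z ∨ u ∈ l.take i)) ∧
      ∃ R ∈ supported k (Z ∪ {v | v ∈ l.take i}),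
        monomial M c * X l[i] + R ∈ Q)
    (p : MvPolynomial σ k) :
    ∃ t ∈ supported k Z, Hom w t ∧ NZD Q t ∧ ∃ P ∈ supported k Z, t * p - P ∈ Q := by
  have hZ : ∀ v ∈ Z, AA w Q Z U (X v : MvPolynomial σ k) := by
    intro v hv
    exact AA_of_supp (Algebra.subset_adjoin ⟨v, hv, rfl⟩)
  have key : ∀ n, n ≤ l.length → ∀ v ∈ l.take n, AA w Q Z U (X v : MvPolynomial σ k) := by
    intro n
    induction n with
    | zero => intro _ v hv; simp at hv
    | succ n ih =>
      intro hn v hv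
      have hn' : n < l.length := hn
      rw [List.take_succ_eq_append_getElem hn', List.mem_append, List.mem_singleton] at hv
      rcases hv with hv | rfl
      · exact ih hn'.le v hv
      · obtain ⟨M, c, hc, hM, R, hR, hrel'⟩ := hrel n hn'
        have hS : ∀ v ∈ Z ∪ {v | v ∈ l.take n}, AA w Q Z U (X v : MvPolynomial σ k) := by
          rintro v (hv | hv)
          · exact hZ v hv
          · exact ih hn'.le v hv
        refine AA_step hc (BB_monomial fun u hu => ?_) (AA_of_adjoin hS hR) hrel'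
        obtain ⟨h1, h2⟩ := hM u hu
        exact BB_X hQ hG h1 (hS u h2)
  have hall : ∀ v ∈ (Set.univ : Set σ), AA w Q Z U (X v : MvPolynomial σ k) := by
    intro v _
    rcases hl v with hv | hv
    · exact hZ v hv
    · refine key l.length le_rfl v ?_
      rwa [List.take_length]
  obtain ⟨t, ht, P, hP, h⟩ := AA_of_adjoin hall (p := p) (by rw [supported_univ]; trivial)
  refine ⟨t, ht.1, ht.2.1, ?_, P, hP, h⟩
  obtain ⟨b, M, hM, hb⟩ := ht.2.2
  exact nzd_of_dvd Q U hU t b M 1 one_ne_zero hM hb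

omit [DecidableEq σ] in
/-- J5c: adding variables `v` together with relations `v - s v`, where `s v` is a polynomial in
the kept variables. -/
theorem elim_of_kept {τ : Type*} [DecidableEq τ] (w : σ → ℕ) (ι : τ → σ)
    (hι : Function.Injective ι) (s : σ → MvPolynomial τ k) (hs : ∀ t, s (ι t) = X t)
    (Q : Ideal (MvPolynomial τ k)) (Z : Set τ)
    (H : ∀ p : MvPolynomial τ k, ∃ t ∈ supported k Z, Hom (w ∘ ι) t ∧ NZD Q t ∧
      ∃ P ∈ supported k Z, t * p - P ∈ Q)
    (Qp : Ideal (MvPolynomial σ k))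
    (hQp : Qp = Q.map (rename ι : MvPolynomial τ k →ₐ[k] MvPolynomial σ k).toRingHom ⊔
      Ideal.span (Set.range fun v : σ => X v - rename ι (s v))) :
    ∀ p : MvPolynomial σ k, ∃ t ∈ supported k (ι '' Z), Hom w t ∧ NZD Qp t ∧
      ∃ P ∈ supported k (ι '' Z), t * p - P ∈ Qp := by
  have hφr : ∀ q : MvPolynomial τ k, aeval s (rename ι q) = q := by
    intro q
    rw [aeval_rename]
    have : s ∘ ι = X := funext hs
    rw [this, aeval_X_left, AlgHom.id_apply]
  have hmap : ∀ q ∈ Q, rename ι q ∈ Qp := by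
    intro q hq
    rw [hQp]
    exact Ideal.mem_sup_left (Ideal.mem_map_of_mem _ hq)
  have hQphi : ∀ f ∈ Qp, aeval s f ∈ Q := by
    have : Qp ≤ Q.comap (aeval s : MvPolynomial σ k →ₐ[k] MvPolynomial τ k).toRingHom := by
      rw [hQp]
      refine sup_le ?_ ?_
      · rw [Ideal.map_le_iff_le_comap]
        intro q hq
        rw [Ideal.mem_comap, Ideal.mem_comap]
        change aeval s (rename ι q) ∈ Q
        rw [hφr]
        exact hq
      · rw [Ideal.span_le]
        rintro _ ⟨v, rfl⟩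
        change aeval s (X v - rename ι (s v)) ∈ Q
        rw [map_sub, hφr, aeval_X, sub_self]
        exact Q.zero_mem
    exact fun f hf => this hf
  have hred : ∀ f : MvPolynomial σ k, f - rename ι (aeval s f) ∈ Qp := by
    intro f
    have hgen : ∀ v : σ, X v - rename ι (s v) ∈ Qp := by
      intro v
      rw [hQp]
      exact Ideal.mem_sup_right (Ideal.subset_span ⟨v, rfl⟩)
    induction f using MvPolynomial.induction_on with
    | C a =>
      have : (C a - rename ι (aeval s (C a)) : MvPolynomial σ k) = 0 := by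
        rw [aeval_C, algebraMap_eq, rename_C, sub_self]
      rw [this]
      exact Qp.zero_mem
    | add p q hp hq =>
      have : p + q - rename ι (aeval s (p + q))
          = (p - rename ι (aeval s p)) + (q - rename ι (aeval s q)) := by
        rw [map_add, map_add]; ring
      rw [this]
      exact Qp.add_mem hp hq
    | mul_X p v hp =>
      have : p * X v - rename ι (aeval s (p * X v))
          = X v * (p - rename ι (aeval s p)) + rename ι (aeval s p) * (X v - rename ι (s v)) := by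
        rw [map_mul, map_mul, aeval_X]; ring
      rw [this]
      exact Qp.add_mem (Ideal.mul_mem_left _ _ hp) (Ideal.mul_mem_left _ _ (hgen v))
  have hsupp : ∀ q ∈ supported k Z, rename ι q ∈ supported k (ι '' Z) := by
    intro q hq
    classical
    rw [mem_supported] at hq ⊢
    intro v hv
    have := vars_rename ι q hv
    rw [Finset.mem_image] at this
    obtain ⟨x, hx, rfl⟩ := this
    exact ⟨x, hq hx, rfl⟩
  intro p
  obtain ⟨t, ht, hth, htn, P, hP, h⟩ := H (aeval s p)
  refine ⟨rename ι t, hsupp t ht, ?_, ?_, rename ι P, hsupp P hP, ?_⟩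
  · obtain ⟨d, hd⟩ := hth
    refine ⟨d, fun e he => ?_⟩
    classical
    rw [support_rename_of_injective hι, Finset.mem_image] at he
    obtain ⟨x, hx, rfl⟩ := he
    rw [← hd x hx, wt, Finsupp.sum_mapDomain_index]
    · rfl
    · intro b; simp
    · intro b m n; ring
  · intro f hf
    have h1 := hQphi _ hf
    rw [map_mul, hφr] at h1
    have h2 := hmap _ (htn _ h1)
    have h3 := Qp.add_mem (hred f) h2
    rwa [sub_add_cancel] at h3
  · have e : rename ι t * p - rename ι P
        = rename ι t * (p - rename ι (aeval s p)) + rename ι (t * aeval s p - P) := by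
      rw [map_sub, map_mul]; ring
    rw [e]
    exact Qp.add_mem (Ideal.mul_mem_left _ _ (hred p)) (hmap _ h)

end Pool.Agent.Helper97.Hilb8
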