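import Pool.Agent.Helper97.Hilb8.Elim

/-!
Variants of the elimination lemmas (associated primes instead of nonzerodivisors).
-/

namespace Pool.Agent.Helper97.Hilb8

open MvPolynomial ElimAux

variable {σ : Type*} [DecidableEq σ] {k : Type*} [Field k]

omit [DecidableEq σ] in
/-- J5b variant: no nonzerodivisor hypothesis; `t` divides a monomial in the variables `U`
modulo `Q`. -/
theorem elim_all' [Finite σ] (w : σ → ℕ) (Q : Ideal (MvPolynomial σ k))
    (G : Set (MvPolynomial σ k)) (hQ : Q = Ideal.span G) (hG : ∀ g ∈ G, Hom w g)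
    (Z U : Set σ) (l : List σ) (hl : ∀ v, v ∈ Z ∨ v ∈ l)
    (hrel : ∀ i (hi : i < l.length), ∃ (M : σ →₀ ℕ) (c : k), c ≠ 0 ∧
      (∀ u ∈ M.support, u ∈ U ∧ (u ∈ Z ∨ u ∈ l.take i)) ∧
      ∃ R ∈ supported k (Z ∪ {v | v ∈ l.take i}),
        monomial M c * X l[i] + R ∈ Q)
    (p : MvPolynomial σ k) :
    ∃ t ∈ supported k Z, Hom w t ∧
      (∃ (b : MvPolynomial σ k) (M : σ →₀ ℕ), (∀ v ∈ M.support, v ∈ U) ∧
        t * b - monomial M 1 ∈ Q) ∧
      ∃ P ∈ supported k Z, t * p - P ∈ Q := by
  have hZ : ∀ v ∈ Z, AA w Q Z U (X v : MvPolynomial σ k) := by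
    intro v hv
    exact AA_of_supp (Algebra.subset_adjoin ⟨v, hv, rfl⟩)
  have key : ∀ n, n ≤ l.length → ∀ v ∈ l.take n, AA w Q Z U (X v : MvPolynomial σ k) := by
    intro n
    induction n with
    | zero => intro _ v hv; simp at hv
    | succ n ih =>
      intro hn v hv
      have hn' : n < l.length := hn
      rw [List.take_succ_eq_append_getElem hn', List.mem_append, List.mem_singleton] at hv
      rcases hv with hv | rfl
      · exact ih hn'.le v hv
      · obtain ⟨M, c, hc, hM, R, hR, hrel'⟩ := hrel n hn'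
        have hS : ∀ v ∈ Z ∪ {v | v ∈ l.take n}, AA w Q Z U (X v : MvPolynomial σ k) := by
          rintro v (hv | hv)
          · exact hZ v hv
          · exact ih hn'.le v hv
        refine AA_step hc (BB_monomial fun u hu => ?_) (AA_of_adjoin hS hR) hrel'
        obtain ⟨h1, h2⟩ := hM u hu
        exact BB_X hQ hG h1 (hS u h2)
  have hall : ∀ v ∈ (Set.univ : Set σ), AA w Q Z U (X v : MvPolynomial σ k) := by
    intro v _
    rcases hl v with hv | hv
    · exact hZ v hv
    · refine key l.length le_rfl v ?_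
      rwa [List.take_length]
  obtain ⟨t, ht, P, hP, h⟩ := AA_of_adjoin hall (p := p) (by rw [supported_univ]; trivial)
  exact ⟨t, ht.1, ht.2.1, ht.2.2, P, hP, h⟩

omit [DecidableEq σ] in
/-- J5c variant: from the kept variables to all variables. -/
theorem elim_of_kept' {τ : Type*} [DecidableEq τ] (w : σ → ℕ) (ι : τ → σ)
    (hι : Function.Injective ι) (s : σ → MvPolynomial τ k) (hs : ∀ t, s (ι t) = X t)
    (Q : Ideal (MvPolynomial τ k)) (𝒵 : Set (Set τ))
    (H : ∀ p : MvPolynomial τ k, p ∉ Q → ∃ Z ∈ 𝒵, ∃ t ∈ supported k Z, Hom (w ∘ ι) t ∧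
      t * p ∉ Q ∧ ∃ P ∈ supported k Z, t * p - P ∈ Q)
    (Qp : Ideal (MvPolynomial σ k))
    (hQp : Qp = Q.map (rename ι : MvPolynomial τ k →ₐ[k] MvPolynomial σ k).toRingHom ⊔
      Ideal.span (Set.range fun v : σ => X v - rename ι (s v))) :
    ∀ p : MvPolynomial σ k, p ∉ Qp → ∃ Z ∈ 𝒵, ∃ t ∈ supported k (ι '' Z), Hom w t ∧
      t * p ∉ Qp ∧ ∃ P ∈ supported k (ι '' Z), t * p - P ∈ Qp := by
  have hφr : ∀ q : MvPolynomial τ k, aeval s (rename ι q) = q := by
    intro q
    rw [aeval_rename]
    have : s ∘ ι = X := funext hs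
    rw [this, aeval_X_left, AlgHom.id_apply]
  have hmap : ∀ q ∈ Q, rename ι q ∈ Qp := by
    intro q hq
    rw [hQp]
    exact Ideal.mem_sup_left (Ideal.mem_map_of_mem _ hq)
  have hQphi : ∀ f ∈ Qp, aeval s f ∈ Q := by
    have : Qp ≤ Q.comap (aeval s : MvPolynomial σ k →ₐ[k] MvPolynomial τ k).toRingHom := by
      rw [hQp]
      refine sup_le ?_ ?_
      · rw [Ideal.map_le_iff_le_comap]
        intro q hq
        rw [Ideal.mem_comap, Ideal.mem_comap]
        change aeval s (rename ι q) ∈ Q
        rw [hφr]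
        exact hq
      · rw [Ideal.span_le]
        rintro _ ⟨v, rfl⟩
        change aeval s (X v - rename ι (s v)) ∈ Q
        rw [map_sub, hφr, aeval_X, sub_self]
        exact Q.zero_mem
    exact fun f hf => this hf
  have hred : ∀ f : MvPolynomial σ k, f - rename ι (aeval s f) ∈ Qp := by
    intro f
    have hgen : ∀ v : σ, X v - rename ι (s v) ∈ Qp := by
      intro v
      rw [hQp]
      exact Ideal.mem_sup_right (Ideal.subset_span ⟨v, rfl⟩)
    induction f using MvPolynomial.induction_on with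
    | C a =>
      have : (C a - rename ι (aeval s (C a)) : MvPolynomial σ k) = 0 := by
        rw [aeval_C, algebraMap_eq, rename_C, sub_self]
      rw [this]
      exact Qp.zero_mem
    | add p q hp hq =>
      have : p + q - rename ι (aeval s (p + q))
          = (p - rename ι (aeval s p)) + (q - rename ι (aeval s q)) := by
        rw [map_add, map_add]; ring
      rw [this]
      exact Qp.add_mem hp hq
    | mul_X p v hp =>
      have : p * X v - rename ι (aeval s (p * X v))
          = X v * (p - rename ι (aeval s p)) + rename ι (aeval s p) * (X v - rename ι (s v)) := by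
        rw [map_mul, map_mul, aeval_X]; ring
      rw [this]
      exact Qp.add_mem (Ideal.mul_mem_left _ _ hp) (Ideal.mul_mem_left _ _ (hgen v))
  have hsupp : ∀ (Z : Set τ), ∀ q ∈ supported k Z, rename ι q ∈ supported k (ι '' Z) := by
    intro Z q hq
    classical
    rw [mem_supported] at hq ⊢
    intro v hv
    have := vars_rename ι q hv
    rw [Finset.mem_image] at this
    obtain ⟨x, hx, rfl⟩ := this
    exact ⟨x, hq hx, rfl⟩
  intro p hp
  have hp' : aeval s p ∉ Q := by
    intro h
    apply hp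
    have := Qp.add_mem (hred p) (hmap _ h)
    rwa [sub_add_cancel] at this
  obtain ⟨Z, hZ, t, ht, hth, htn, P, hP, h⟩ := H (aeval s p) hp'
  refine ⟨Z, hZ, rename ι t, hsupp Z t ht, ?_, ?_, rename ι P, hsupp Z P hP, ?_⟩
  · obtain ⟨d, hd⟩ := hth
    refine ⟨d, fun e he => ?_⟩
    classical
    rw [support_rename_of_injective hι, Finset.mem_image] at he
    obtain ⟨x, hx, rfl⟩ := he
    rw [← hd x hx, wt, Finsupp.sum_mapDomain_index]
    · rfl
    · intro b; simp
    · intro b m n; ring
  · intro h1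
    apply htn
    have h2 := hQphi _ h1
    rwa [map_mul, hφr] at h2
  · have e : rename ι t * p - rename ι P
        = rename ι t * (p - rename ι (aeval s p)) + rename ι (t * aeval s p - P) := by
      rw [map_sub, map_mul]; ring
    rw [e]
    exact Qp.add_mem (Ideal.mul_mem_left _ _ (hred p)) (hmap _ h)

end Pool.Agent.Helper97.Hilb8
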