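import Pool.Agent.Helper97.Hilb8.GBDefs

/-!
# Reducedness from the data of the two components (FIN)
-/

namespace Pool.Agent.Helper97.Hilb8

open MvPolynomial

variable {σ : Type*} [DecidableEq σ] {k : Type*} [Field k]

/-- FIN: reducedness from the data of the two components. -/
theorem isReduced_quot {S D : Type*} [CommRing S] [CommRing D] [IsDomain D] (I K : Ideal S)
    [K.IsPrime] (f : S) (hIK : I ≤ K) (hKI : K ≤ I ⊔ Ideal.span {f})
    (θ : S →+* D) (hθI : ∀ p ∈ I, θ p = 0) (hθf : θ f ≠ 0)
    (hAnn : ∀ g, θ g = 0 → f * g ∈ I) : IsReduced (S ⧸ I) := by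
  rw [← Ideal.isRadical_iff_quotient_reduced]
  intro x hx
  obtain ⟨n, hn⟩ := hx
  have hxK : x ∈ K := Ideal.IsPrime.mem_of_pow_mem inferInstance n (hIK hn)
  obtain ⟨i, hi, y, hy, rfl⟩ := Submodule.mem_sup.mp (hKI hxK)
  obtain ⟨a, rfl⟩ := Ideal.mem_span_singleton'.mp hy
  have h1 : θ (i + a * f) ^ n = 0 := by rw [← map_pow]; exact hθI _ hn
  have h2 : θ (i + a * f) = 0 := eq_zero_of_pow_eq_zero h1
  rw [map_add, hθI i hi, zero_add, map_mul] at h2
  have h3 : θ a = 0 := (mul_eq_zero.mp h2).resolve_right hθf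
  rw [mul_comm a f]
  exact I.add_mem hi (hAnn a h3)

/-- FIN2: the annihilator condition from generators. -/
theorem ann_of_gens {D : Type*} [CommRing D] [Algebra k D] (I : Ideal (MvPolynomial σ k))
    (f : MvPolynomial σ k) (θ : MvPolynomial σ k →ₐ[k] D) (j : D →ₐ[k] MvPolynomial σ k)
    (h : ∀ v, f * (X v - j (θ (X v))) ∈ I) (g : MvPolynomial σ k) (hg : θ g = 0) :
    f * g ∈ I := by
  have key : ∀ p : MvPolynomial σ k, f * (p - j (θ p)) ∈ I := by
    intro p
    induction p using MvPolynomial.induction_on with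
    | C a =>
      have h1 : j (θ (C a)) = C a := by
        rw [← algebraMap_eq, AlgHom.commutes, AlgHom.commutes]
      rw [h1, sub_self, mul_zero]
      exact I.zero_mem
    | add p q hp hq =>
      rw [map_add, map_add, add_sub_add_comm, mul_add]
      exact I.add_mem hp hq
    | mul_X p v hp =>
      rw [map_mul, map_mul]
      have h2 : f * (p * X v - j (θ p) * j (θ (X v))) =
          X v * (f * (p - j (θ p))) + j (θ p) * (f * (X v - j (θ (X v)))) := by ring
      rw [h2]
      exact I.add_mem (I.mul_mem_left _ hp) (I.mul_mem_left _ (h v))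
  have := key g
  rwa [hg, map_zero, sub_zero] at this

end Pool.Agent.Helper97.Hilb8
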