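import Pool.Agent.Helper97.Hilb8.Top2
import Pool.Agent.Helper97.Hilb8.Fin

/-!
Skeleton, part 5: `I = K ⊓ L` by initial forms.
-/

universe u

namespace Pool.Agent.Helper97.Hilb8

open MvPolynomial

variable {σ : Type*} [DecidableEq σ] {k : Type*} [Field k]

open TopAux in
/-- IN1: the initial forms of the elements of `K` lie in `Qp`. -/
theorem top_mem (w : σ → ℕ) (K Qp : Ideal (MvPolynomial σ k)) (G : Set (MvPolynomial σ k))
    (𝒵 : Set (Set σ)) (hQp : Qp = Ideal.span G)
    (hG : ∀ g ∈ G, ∃ f ∈ K, ∃ d, IsTop w f g d)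
    (H1 : ∀ p : MvPolynomial σ k, p ∉ Qp → ∃ Z ∈ 𝒵, ∃ t ∈ supported k Z, Hom w t ∧
      t * p ∉ Qp ∧ ∃ P ∈ supported k Z, t * p - P ∈ Qp)
    (H2 : ∀ Z ∈ 𝒵, ∀ h ∈ K, ∀ P ∈ supported k Z, ∀ d, IsTop w h P d → P = 0)
    (h : MvPolynomial σ k) (hK : h ∈ K) (τ : MvPolynomial σ k) (d : ℕ) (hτ : IsTop w h τ d) :
    τ ∈ Qp := by
  by_contra hnot
  obtain ⟨Z, hZ, t, htZ, ⟨e, he⟩, hnmem, P, hPZ, hq⟩ := H1 τ hnot
  obtain ⟨hqD, f, hfI, hftop⟩ := lemmaA w K Qp G hQp hG _ hq (e + d)
  have hmul : IsTop w (t * h) (t * τ) (e + d) := isTop_hom_mul hτ he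
  have hself : comp w (e + d) (t * τ) = t * τ :=
    comp_eq_self w _ _ ((isTop_iff w _ _ _).mp hmul).1
  rw [comp_sub, hself] at hqD hftop
  have hP0 : comp w (e + d) P = 0 := by
    apply H2 Z hZ (t * h - f) (K.sub_mem (K.mul_mem_left _ hK) hfI) _
      (comp_supported w _ Z P hPZ) (e + d)
    have := isTop_sub hmul hftop
    rwa [sub_sub_cancel] at this
  rw [hP0, sub_zero] at hqD
  exact hnmem hqD

namespace TopAux

theorem isTop_comp (w : σ → ℕ) (d : ℕ) (h : MvPolynomial σ k)
    (hd : ∀ e, d + 1 ≤ wt w e → coeff e h = 0) : IsTop w h (comp w d h) d := by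
  rw [isTop_iff]
  refine ⟨fun e he => by rw [coeff_comp, if_neg he], fun e he => ?_⟩
  rw [coeff_comp]
  split_ifs with h1
  · rfl
  · exact hd e (by omega)

theorem comp_hom_mul (w : σ → ℕ) (D d0 : ℕ) (f0 g : MvPolynomial σ k)
    (hf0 : ∀ e ∈ f0.support, wt w e = d0) :
    ∃ g', comp w D (f0 * g) = f0 * g' := by
  rcases Nat.lt_or_ge D d0 with h | h
  · refine ⟨0, ?_⟩
    rw [mul_zero]
    have h1 : f0 * g = ∑ m ∈ f0.support, monomial m (coeff m f0) * g := by
      rw [← Finset.sum_mul, ← f0.as_sum]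
    rw [h1, comp, map_sum]
    apply Finset.sum_eq_zero
    intro m hm
    exact comp_monomial_mul_of_lt w D m _ g (by rw [hf0 m hm]; exact h)
  · refine ⟨comp w (D - d0) g, ?_⟩
    have h1 : f0 * g = ∑ m ∈ f0.support, monomial m (coeff m f0) * g := by
      rw [← Finset.sum_mul, ← f0.as_sum]
    have h2 : f0 * comp w (D - d0) g =
        ∑ m ∈ f0.support, monomial m (coeff m f0) * comp w (D - d0) g := by
      rw [← Finset.sum_mul, ← f0.as_sum]
    rw [h1, h2, comp, map_sum]
    apply Finset.sum_congr rfl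
    intro m hm
    have h3 := comp_monomial_mul w (D - d0) m (coeff m f0) g
    rw [hf0 m hm, Nat.add_sub_cancel' h] at h3
    exact h3

end TopAux

open TopAux in
/-- IN2: `K ⊓ L ≤ I` from initial forms. -/
theorem inf_le (w : σ → ℕ) (K L I : Ideal (MvPolynomial σ k)) (hIK : I ≤ K) (hIL : I ≤ L)
    (G : Set (MvPolynomial σ k)) (hG : ∀ g ∈ G, ∃ f ∈ I, ∃ d, IsTop w f g d)
    (f0 : MvPolynomial σ k) (d0 : ℕ) (hf0 : ∀ e ∈ f0.support, wt w e = d0)
    (htop : ∀ h ∈ K, ∀ τ d, IsTop w h τ d → τ ∈ Ideal.span G ⊔ Ideal.span {f0})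
    {D : Type*} [CommRing D] [IsDomain D] (θ0 : MvPolynomial σ k →+* D) (hθf : θ0 f0 ≠ 0)
    (hL : ∀ h ∈ L, ∀ τ d, IsTop w h τ d → θ0 τ = 0)
    (hann : ∀ g, θ0 g = 0 → f0 * g ∈ Ideal.span G) : K ⊓ L ≤ I := by
  have key : ∀ d : ℕ, ∀ h ∈ K ⊓ L, (∀ e, d ≤ wt w e → coeff e h = 0) → h ∈ I := by
    intro d
    induction d with
    | zero =>
      intro h _ h0
      have : h = 0 := by
        ext e
        rw [coeff_zero]
        exact h0 e (Nat.zero_le _)
      rw [this]
      exact I.zero_mem
    | succ d ih =>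
      intro h hKL hd
      obtain ⟨hK, hL'⟩ := Submodule.mem_inf.mp hKL
      have htop1 : IsTop w h (comp w d h) d := isTop_comp w d h hd
      obtain ⟨q, hq, y, hy, hqy⟩ := Submodule.mem_sup.mp (htop h hK _ d htop1)
      obtain ⟨g0, rfl⟩ := Ideal.mem_span_singleton'.mp hy
      have hself : comp w d (comp w d h) = comp w d h :=
        comp_eq_self w _ _ ((isTop_iff w _ _ _).mp htop1).1
      obtain ⟨g, hg⟩ := comp_hom_mul w d d0 f0 g0 hf0
      have hdec : comp w d h = comp w d q + f0 * g := by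
        rw [← hg, ← hself, ← hqy, comp_add, mul_comm g0 f0]
      obtain ⟨-, i, hi, hitop⟩ := lemmaA w I _ G rfl hG q hq d
      have h1 : IsTop w (h - i) (f0 * g) d := by
        have := isTop_sub htop1 hitop
        rwa [hdec, add_sub_cancel_left] at this
      have h2 : θ0 (f0 * g) = 0 := hL (h - i) (L.sub_mem hL' (hIL hi)) _ d h1
      rw [map_mul] at h2
      have h3 : θ0 g = 0 := (mul_eq_zero.mp h2).resolve_left hθf
      obtain ⟨-, i', hi', hitop'⟩ := lemmaA w I _ G rfl hG _ (hann g h3) d
      have h4 : comp w d (f0 * g) = f0 * g :=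
        comp_eq_self w _ _ ((isTop_iff w _ _ _).mp h1).1
      rw [h4] at hitop'
      have hfin : h - i - i' ∈ I := by
        apply ih
        · exact (K ⊓ L).sub_mem ((K ⊓ L).sub_mem hKL ⟨hIK hi, hIL hi⟩) ⟨hIK hi', hIL hi'⟩
        · intro e he
          rw [coeff_sub, ((isTop_iff w _ _ _).mp h1).2 e he,
            ((isTop_iff w _ _ _).mp hitop').2 e he, sub_self]
      have h5 : h = (h - i - i') + (i + i') := by ring
      rw [h5]
      exact I.add_mem hfin (I.add_mem hi hi')
  intro h hKL
  apply key (h.support.sup (wt w) + 1) h hKL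
  intro e he
  by_contra hne
  have := Finset.le_sup (f := wt w) (mem_support_iff.mpr hne)
  omega

namespace TopAux

theorem isTop_mul {w : σ → ℕ} {f g f' g' : MvPolynomial σ k} {d d' : ℕ} (h : IsTop w f g d)
    (h' : IsTop w f' g' d') : IsTop w (f * f') (g * g') (d + d') := by
  have h1 : IsTop w (g * f') (g * g') (d + d') := isTop_hom_mul h' h.1
  have hle : ∀ e ∈ f'.support, wt w e ≤ d' := by
    intro e he
    by_contra hlt
    have h3 : coeff e (f' - g') = 0 := by
      by_contra hne
      have := h'.2 e (mem_support_iff.mpr hne)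
      omega
    have h4 : coeff e g' = 0 := by
      by_contra hne
      have := h'.1 e (mem_support_iff.mpr hne)
      omega
    rw [coeff_sub, h4, sub_zero] at h3
    exact (mem_support_iff.mp he) h3
  have h2 : IsTop w ((f - g) * f') 0 (d + d') := by
    refine ⟨fun e he => by simp at he, fun e he => ?_⟩
    rw [sub_zero] at he
    obtain ⟨a, ha, b, hb, rfl⟩ := Finset.mem_add.mp (support_mul _ _ he)
    rw [wt_add]
    have := h.2 a ha
    have := hle b hb
    omega
  have h3 := isTop_add h2 h1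
  rw [zero_add] at h3
  have h4 : (f - g) * f' + g * f' = f * f' := by ring
  rwa [h4] at h3

theorem isTop_C {δ : Type*} [DecidableEq δ] (w : δ → ℕ) (c : k) :
    IsTop w (C c : MvPolynomial δ k) (C c) 0 := by
  refine ⟨fun e he => ?_, fun e he => ?_⟩
  · rw [mem_support_iff, coeff_C] at he
    split_ifs at he with h0
    · rw [← h0]
      rfl
    · exact absurd rfl he
  · rw [sub_self] at he
    simp at he

theorem isTop_lt {w : σ → ℕ} {f g : MvPolynomial σ k} {d d' : ℕ} (h : IsTop w f g d)
    (hd : d < d') : IsTop w f 0 d' := by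
  rw [isTop_iff] at *
  refine ⟨fun e _ => coeff_zero _, fun e he => ?_⟩
  rw [h.2 e (by omega), h.1 e (by omega), coeff_zero]

end TopAux

open TopAux in
/-- IN3: initial forms and algebra homomorphisms compatible with the weights. -/
theorem isTop_map {δ : Type*} [DecidableEq δ] (w : σ → ℕ) (wD : δ → ℕ)
    (θ θ0 : MvPolynomial σ k →ₐ[k] MvPolynomial δ k)
    (h : ∀ v, IsTop wD (θ (X v)) (θ0 (X v)) (w v)) (p τ : MvPolynomial σ k) (d : ℕ)
    (hp : IsTop w p τ d) : IsTop wD (θ p) (θ0 τ) d := by
  have hC : ∀ c : k, IsTop wD (θ (C c)) (θ0 (C c)) 0 := by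
    intro c
    rw [← algebraMap_eq, AlgHom.commutes, AlgHom.commutes, algebraMap_eq]
    exact isTop_C wD c
  have hpow : ∀ v n, IsTop wD (θ (X v ^ n)) (θ0 (X v ^ n)) (n * w v) := by
    intro v n
    induction n with
    | zero =>
      rw [pow_zero, Nat.zero_mul]
      have := hC 1
      rwa [C_1] at this
    | succ n ih =>
      rw [pow_succ, map_mul, map_mul, Nat.succ_mul]
      exact isTop_mul ih (h v)
  have hmon1 : ∀ e : σ →₀ ℕ, IsTop wD (θ (monomial e 1)) (θ0 (monomial e 1)) (wt w e) := by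
    intro e
    induction e using Finsupp.induction_linear with
    | zero =>
      have := hC 1
      exact this
    | add a b ha hb =>
      have h1 : (monomial (a + b) (1 : k)) = monomial a 1 * monomial b 1 := by
        rw [monomial_mul, one_mul]
      rw [h1, map_mul, map_mul, wt_add]
      exact isTop_mul ha hb
    | single v n =>
      have h1 : (monomial (Finsupp.single v n) (1 : k)) = X v ^ n := by
        rw [X_pow_eq_monomial]
      have h2 : wt w (Finsupp.single v n) = n * w v := by
        rw [wt, Finsupp.sum_single_index]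
        exact Nat.zero_mul _
      rw [h1, h2]
      exact hpow v n
  have hmon : ∀ (e : σ →₀ ℕ) (c : k),
      IsTop wD (θ (monomial e c)) (θ0 (monomial e c)) (wt w e) := by
    intro e c
    have h1 : (monomial e c) = C c * monomial e 1 := by
      rw [C_mul_monomial, mul_one]
    rw [h1, map_mul, map_mul]
    have := isTop_mul (hC c) (hmon1 e)
    rwa [Nat.zero_add] at this
  have h1 : IsTop wD (θ τ) (θ0 τ) d := by
    have h2 : IsTop wD (∑ m ∈ τ.support, θ (monomial m (coeff m τ)))
        (∑ m ∈ τ.support, θ0 (monomial m (coeff m τ))) d := by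
      apply isTop_sum
      intro m hm
      have := hmon m (coeff m τ)
      rwa [hp.1 m hm] at this
    rw [← map_sum, ← map_sum, ← τ.as_sum] at h2
    exact h2
  have h2 : IsTop wD (θ (p - τ)) 0 d := by
    have h3 : IsTop wD (∑ m ∈ (p - τ).support, θ (monomial m (coeff m (p - τ))))
        (∑ m ∈ (p - τ).support, 0) d := by
      apply isTop_sum
      intro m hm
      exact isTop_lt (hmon m (coeff m (p - τ))) (hp.2 m hm)
    rw [← map_sum, ← (p - τ).as_sum, Finset.sum_const_zero] at h3
    exact h3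
  have h3 := isTop_add h1 h2
  rw [add_zero, ← map_add, add_sub_cancel] at h3
  exact h3

/-- IN4: the annihilator condition follows from the kept variables. -/
theorem ann_of_kept {τ : Type*} {D : Type*} [CommRing D] [Algebra k D] (ι : τ → σ)
    (s : σ → MvPolynomial τ k) (J : Ideal (MvPolynomial σ k)) (f0 : MvPolynomial σ k)
    (θ0 : MvPolynomial σ k →ₐ[k] D) (j0 : D →ₐ[k] MvPolynomial σ k)
    (hs : ∀ v, X v - rename ι (s v) ∈ J) (hJ : ∀ p ∈ J, θ0 p = 0)
    (hk : ∀ t, f0 * (X (ι t) - j0 (θ0 (X (ι t)))) ∈ J) (g : MvPolynomial σ k) (hg : θ0 g = 0) :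
    f0 * g ∈ J := by
  have key : ∀ q : MvPolynomial τ k, f0 * (rename ι q - j0 (θ0 (rename ι q))) ∈ J := by
    intro q
    induction q using MvPolynomial.induction_on with
    | C a =>
      have h1 : j0 (θ0 (rename ι (C a))) = C a := by
        rw [rename_C, ← algebraMap_eq, AlgHom.commutes, AlgHom.commutes]
      rw [h1, rename_C, sub_self, mul_zero]
      exact J.zero_mem
    | add p q hp hq =>
      rw [map_add, map_add, map_add, add_sub_add_comm, mul_add]
      exact J.add_mem hp hq
    | mul_X p v hp =>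
      rw [map_mul, rename_X, map_mul, map_mul]
      have h2 : f0 * (rename ι p * X (ι v) - j0 (θ0 (rename ι p)) * j0 (θ0 (X (ι v)))) =
          X (ι v) * (f0 * (rename ι p - j0 (θ0 (rename ι p)))) +
            j0 (θ0 (rename ι p)) * (f0 * (X (ι v) - j0 (θ0 (X (ι v))))) := by ring
      rw [h2]
      exact J.add_mem (J.mul_mem_left _ hp) (J.mul_mem_left _ (hk v))
  apply ann_of_gens J f0 θ0 j0 _ g hg
  intro v
  have h1 : θ0 (X v) = θ0 (rename ι (s v)) := by
    have := hJ _ (hs v)
    rw [map_sub] at this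
    exact sub_eq_zero.mp this
  have h2 : f0 * (X v - j0 (θ0 (X v))) = f0 * (X v - rename ι (s v)) +
      f0 * (rename ι (s v) - j0 (θ0 (rename ι (s v)))) := by
    rw [h1]
    ring
  rw [h2]
  exact J.add_mem (J.mul_mem_left _ (hs v)) (key (s v))

/-- IN5: from initial forms in all variables to initial forms in the kept variables.
`Q0` is the ideal of initial forms; `l` lists the other variables, each is eliminated by an
element of `Q0`. -/
theorem kept_of_top {τ : Type*} [DecidableEq τ] (ι : τ → σ) (s : σ → MvPolynomial τ k)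
    (hs : ∀ t, s (ι t) = X t) (Q0 : Ideal (MvPolynomial σ k)) (l : List σ)
    (hl : ∀ v, v ∈ Set.range ι ∨ v ∈ l)
    (hrel : ∀ i (hi : i < l.length), ∃ (c : k) (q : MvPolynomial σ k), c ≠ 0 ∧
      q ∈ supported k (Set.range ι ∪ {v | v ∈ l.take i}) ∧ C c * X l[i] + q ∈ Q0 ∧
      aeval s (C c * X l[i] + q) = 0) :
    (∀ v, X v - rename ι (s v) ∈ Q0) ∧ ∀ g ∈ Q0, rename ι (aeval s g) ∈ Q0 := by
  have hsup : ∀ U : Set σ, (∀ v ∈ U, X v - rename ι (s v) ∈ Q0) →
      ∀ q ∈ supported k U, q - rename ι (aeval s q) ∈ Q0 := by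
    intro U hU q hq
    rw [← Ideal.Quotient.eq]
    have h1 : (Ideal.Quotient.mk Q0) q =
        ((Ideal.Quotient.mk Q0).comp ((rename ι).toRingHom.comp (aeval s).toRingHom)) q := by
      refine MvPolynomial.hom_congr_vars ?_ ?_ rfl
      · ext a
        simp
      · intro i hi _
        have hiU : i ∈ U := (mem_supported.mp hq) hi
        have h2 := hU i hiU
        rw [← Ideal.Quotient.eq] at h2
        rw [h2]
        simp
    exact h1
  have hr : ∀ v ∈ Set.range ι, X v - rename ι (s v) ∈ Q0 := by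
    rintro _ ⟨t, rfl⟩
    rw [hs, rename_X, sub_self]
    exact Q0.zero_mem
  have hstep : ∀ i, i ≤ l.length → ∀ v ∈ l.take i, X v - rename ι (s v) ∈ Q0 := by
    intro i
    induction i with
    | zero =>
      intro _ v hv
      simp at hv
    | succ i ih =>
      intro hi v hv
      have hi' : i < l.length := hi
      rw [List.take_succ_eq_append_getElem hi', List.mem_append, List.mem_singleton] at hv
      rcases hv with hv | rfl
      · exact ih hi'.le v hv
      · obtain ⟨c, q, hc, hq, hmem, h0⟩ := hrel i hi'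
        have h1 : q - rename ι (aeval s q) ∈ Q0 := by
          apply hsup _ _ q hq
          rintro v (hv | hv)
          · exact hr v hv
          · exact ih hi'.le v hv
        have h2 : C c * rename ι (s l[i]) + rename ι (aeval s q) = 0 := by
          have h3 : rename ι (aeval s (C c * X l[i] + q)) = 0 := by rw [h0, map_zero]
          rw [map_add, map_mul, aeval_X, algHom_C, map_add, map_mul] at h3
          rw [← h3]
          congr 2
          simp [algebraMap_eq]
        have h4 : X l[i] - rename ι (s l[i]) = C c⁻¹ * ((C c * X l[i] + q) -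
            (q - rename ι (aeval s q)) - (C c * rename ι (s l[i]) + rename ι (aeval s q))) := by
          have h5 : (C c⁻¹ : MvPolynomial σ k) * C c = 1 := by
            rw [← C_mul, inv_mul_cancel₀ hc, C_1]
          linear_combination (-(X l[i] : MvPolynomial σ k) + rename ι (s l[i])) * h5
        rw [h4, h2, sub_zero]
        exact Q0.mul_mem_left _ (Q0.sub_mem hmem h1)
  have hall : ∀ v, X v - rename ι (s v) ∈ Q0 := by
    intro v
    rcases hl v with hv | hv
    · exact hr v hv
    · apply hstep l.length le_rfl v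
      rwa [List.take_length]
  refine ⟨hall, fun g hg => ?_⟩
  have h1 : g - rename ι (aeval s g) ∈ Q0 := by
    apply hsup Set.univ (fun v _ => hall v)
    rw [mem_supported]
    exact Set.subset_univ _
  have h2 := Q0.sub_mem hg h1
  rwa [sub_sub_cancel] at h2

open TopAux in
/-- IN6: homogeneous elements of the ideal of initial forms are initial forms. -/
theorem isTop_of_mem (w : σ → ℕ) (I : Ideal (MvPolynomial σ k)) (G : Set (MvPolynomial σ k))
    (hG : ∀ g ∈ G, ∃ f ∈ I, ∃ d, IsTop w f g d) (g : MvPolynomial σ k) (hg : g ∈ Ideal.span G)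
    (d : ℕ) (hd : ∀ e ∈ g.support, wt w e = d) : ∃ f ∈ I, IsTop w f g d := by
  obtain ⟨-, f, hf, hftop⟩ := lemmaA w I _ G rfl hG g hg d
  rw [comp_eq_self w d g] at hftop
  · exact ⟨f, hf, hftop⟩
  · intro e he
    by_contra hne
    exact he (hd e (mem_support_iff.mpr hne))

end Pool.Agent.Helper97.Hilb8
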