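import Pool.Agent.Helper97.Hilb8.GBDefs

/-!
# Initial forms (J5)
-/

namespace Pool.Agent.Helper97.Hilb8

open MvPolynomial

variable {σ : Type*} [DecidableEq σ] {k : Type*} [Field k]

namespace TopAux

theorem wt_eq_weight (w : σ → ℕ) (e : σ →₀ ℕ) : wt w e = Finsupp.weight w e := by
  rw [wt, Finsupp.weight_apply]
  rfl

theorem wt_add (w : σ → ℕ) (a b : σ →₀ ℕ) : wt w (a + b) = wt w a + wt w b := by
  rw [wt_eq_weight, wt_eq_weight, wt_eq_weight, map_add]

theorem isTop_iff (w : σ → ℕ) (f g : MvPolynomial σ k) (d : ℕ) :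
    IsTop w f g d ↔ (∀ e, wt w e ≠ d → coeff e g = 0) ∧
      ∀ e, d ≤ wt w e → coeff e f = coeff e g := by
  constructor
  · rintro ⟨h1, h2⟩
    constructor
    · intro e he
      by_contra hne
      exact he (h1 e (mem_support_iff.mpr hne))
    · intro e he
      by_contra hne
      have := h2 e (mem_support_iff.mpr (by rw [coeff_sub]; exact sub_ne_zero.mpr hne))
      omega
  · rintro ⟨h1, h2⟩
    constructor
    · intro e he
      by_contra hne
      exact (mem_support_iff.mp he) (h1 e hne)
    · intro e he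
      by_contra hne
      apply mem_support_iff.mp he
      rw [coeff_sub, h2 e (by omega), sub_self]

theorem isTop_zero (w : σ → ℕ) (d : ℕ) : IsTop w (0 : MvPolynomial σ k) 0 d := by
  rw [isTop_iff]
  exact ⟨fun _ _ => coeff_zero _, fun _ _ => rfl⟩

theorem isTop_add {w : σ → ℕ} {f g f' g' : MvPolynomial σ k} {d : ℕ} (h : IsTop w f g d)
    (h' : IsTop w f' g' d) : IsTop w (f + f') (g + g') d := by
  rw [isTop_iff] at *
  refine ⟨fun e he => ?_, fun e he => ?_⟩
  · rw [coeff_add, h.1 e he, h'.1 e he, add_zero]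
  · rw [coeff_add, coeff_add, h.2 e he, h'.2 e he]

theorem isTop_sub {w : σ → ℕ} {f g f' g' : MvPolynomial σ k} {d : ℕ} (h : IsTop w f g d)
    (h' : IsTop w f' g' d) : IsTop w (f - f') (g - g') d := by
  rw [isTop_iff] at *
  refine ⟨fun e he => ?_, fun e he => ?_⟩
  · rw [coeff_sub, h.1 e he, h'.1 e he, sub_zero]
  · rw [coeff_sub, coeff_sub, h.2 e he, h'.2 e he]

theorem isTop_monomial_mul {w : σ → ℕ} {f g : MvPolynomial σ k} {d : ℕ} (h : IsTop w f g d)
    (m : σ →₀ ℕ) (c : k) : IsTop w (monomial m c * f) (monomial m c * g) (wt w m + d) := by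
  rw [isTop_iff] at *
  refine ⟨fun e he => ?_, fun e he => ?_⟩
  · rw [coeff_monomial_mul']
    split_ifs with hm
    · have h1 : wt w (e - m) ≠ d := by
        intro h1
        apply he
        rw [← h1, ← wt_add, add_tsub_cancel_of_le hm]
      rw [h.1 _ h1, mul_zero]
    · rfl
  · rw [coeff_monomial_mul', coeff_monomial_mul']
    split_ifs with hm
    · have h1 : d ≤ wt w (e - m) := by
        have h2 : wt w m + wt w (e - m) = wt w e := by
          rw [← wt_add, add_tsub_cancel_of_le hm]
        omega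
      rw [h.2 _ h1]
    · rfl

theorem isTop_sum {w : σ → ℕ} {ι : Type*} (S : Finset ι) {f g : ι → MvPolynomial σ k} {d : ℕ}
    (h : ∀ i ∈ S, IsTop w (f i) (g i) d) : IsTop w (∑ i ∈ S, f i) (∑ i ∈ S, g i) d := by
  classical
  induction S using Finset.induction_on with
  | empty => simpa using isTop_zero w d
  | insert a S ha ih =>
    rw [Finset.sum_insert ha, Finset.sum_insert ha]
    exact isTop_add (h a (Finset.mem_insert_self _ _))
      (ih fun i hi => h i (Finset.mem_insert_of_mem hi))

theorem isTop_hom_mul {w : σ → ℕ} {f g t : MvPolynomial σ k} {d e : ℕ} (h : IsTop w f g d)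
    (ht : ∀ m ∈ t.support, wt w m = e) : IsTop w (t * f) (t * g) (e + d) := by
  have h1 : IsTop w (∑ m ∈ t.support, monomial m (coeff m t) * f)
      (∑ m ∈ t.support, monomial m (coeff m t) * g) (e + d) := by
    apply isTop_sum
    intro m hm
    have h2 := isTop_monomial_mul h m (coeff m t)
    rw [ht m hm] at h2
    exact h2
  rw [← Finset.sum_mul, ← Finset.sum_mul, ← t.as_sum] at h1
  exact h1

/-- homogeneous component -/
noncomputable def comp (w : σ → ℕ) (d : ℕ) (f : MvPolynomial σ k) : MvPolynomial σ k :=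
  weightedHomogeneousComponent w d f

theorem coeff_comp (w : σ → ℕ) (d : ℕ) (f : MvPolynomial σ k) (e : σ →₀ ℕ) :
    coeff e (comp w d f) = if wt w e = d then coeff e f else 0 := by
  rw [comp, coeff_weightedHomogeneousComponent, wt_eq_weight]

theorem comp_add (w : σ → ℕ) (d : ℕ) (f g : MvPolynomial σ k) :
    comp w d (f + g) = comp w d f + comp w d g := by
  rw [comp, comp, comp, map_add]

theorem comp_sub (w : σ → ℕ) (d : ℕ) (f g : MvPolynomial σ k) :
    comp w d (f - g) = comp w d f - comp w d g := by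
  rw [comp, comp, comp, map_sub]

theorem comp_eq_self (w : σ → ℕ) (d : ℕ) (f : MvPolynomial σ k)
    (h : ∀ e, wt w e ≠ d → coeff e f = 0) : comp w d f = f := by
  ext e
  rw [coeff_comp]
  split_ifs with h1
  · rfl
  · exact (h e h1).symm

theorem comp_eq_zero (w : σ → ℕ) (d d' : ℕ) (hd : d ≠ d') (f : MvPolynomial σ k)
    (h : ∀ e, wt w e ≠ d' → coeff e f = 0) : comp w d f = 0 := by
  ext e
  rw [coeff_comp, coeff_zero]
  split_ifs with h1
  · exact h e (by omega)
  · rfl

theorem comp_monomial_mul (w : σ → ℕ) (d : ℕ) (m : σ →₀ ℕ) (c : k) (f : MvPolynomial σ k) :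
    comp w (wt w m + d) (monomial m c * f) = monomial m c * comp w d f := by
  ext e
  rw [coeff_comp, coeff_monomial_mul', coeff_monomial_mul', coeff_comp]
  split_ifs with h1 h2 h3 h4 h5
  · rfl
  · exfalso
    apply h3
    have h6 : wt w m + wt w (e - m) = wt w e := by
      rw [← wt_add, add_tsub_cancel_of_le h2]
    omega
  · rfl
  · exfalso
    apply h1
    have h6 : wt w m + wt w (e - m) = wt w e := by
      rw [← wt_add, add_tsub_cancel_of_le h4]
    omega
  · rw [mul_zero]
  · rfl

theorem comp_monomial_mul_of_lt (w : σ → ℕ) (d : ℕ) (m : σ →₀ ℕ) (c : k) (f : MvPolynomial σ k)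
    (h : d < wt w m) : comp w d (monomial m c * f) = 0 := by
  ext e
  rw [coeff_comp, coeff_monomial_mul', coeff_zero]
  split_ifs with h1 h2
  · exfalso
    have h6 : wt w m + wt w (e - m) = wt w e := by
      rw [← wt_add, add_tsub_cancel_of_le h2]
    omega
  · rfl
  · rfl

theorem comp_supported (w : σ → ℕ) (d : ℕ) (Z : Set σ) (P : MvPolynomial σ k)
    (h : P ∈ supported k Z) : comp w d P ∈ supported k Z := by
  rw [mem_supported] at *
  intro v hv
  apply h
  rw [Finset.mem_coe, mem_vars_iff_mem_support] at *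
  obtain ⟨e, he, hve⟩ := hv
  refine ⟨e, ?_, hve⟩
  rw [mem_support_iff, coeff_comp] at he
  rw [mem_support_iff]
  split_ifs at he with h1
  · exact he
  · exact absurd rfl he

theorem lemmaA (w : σ → ℕ) (I' Qp : Ideal (MvPolynomial σ k)) (G : Set (MvPolynomial σ k))
    (hQp : Qp = Ideal.span G) (hG : ∀ g ∈ G, ∃ f ∈ I', ∃ d, IsTop w f g d)
    (q : MvPolynomial σ k) (hq : q ∈ Qp) :
    ∀ D, comp w D q ∈ Qp ∧ ∃ f ∈ I', IsTop w f (comp w D q) D := by
  have hadd : ∀ x y : MvPolynomial σ k,
      (∀ D, comp w D x ∈ Qp ∧ ∃ f ∈ I', IsTop w f (comp w D x) D) →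
      (∀ D, comp w D y ∈ Qp ∧ ∃ f ∈ I', IsTop w f (comp w D y) D) →
      (∀ D, comp w D (x + y) ∈ Qp ∧ ∃ f ∈ I', IsTop w f (comp w D (x + y)) D) := by
    intro x y hx hy D
    rw [comp_add]
    obtain ⟨h1, f, hf, h2⟩ := hx D
    obtain ⟨h3, f', hf', h4⟩ := hy D
    exact ⟨Qp.add_mem h1 h3, f + f', I'.add_mem hf hf', isTop_add h2 h4⟩
  have hzero : ∀ D, comp w D (0 : MvPolynomial σ k) ∈ Qp ∧
      ∃ f ∈ I', IsTop w f (comp w D (0 : MvPolynomial σ k)) D := by
    intro D
    have h0 : comp w D (0 : MvPolynomial σ k) = 0 := by rw [comp, map_zero]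
    rw [h0]
    exact ⟨Qp.zero_mem, 0, I'.zero_mem, isTop_zero w D⟩
  rw [hQp] at hq
  induction hq using Submodule.span_induction with
  | mem g hg =>
    intro D
    obtain ⟨f, hf, d, hfd⟩ := hG g hg
    have h1 := ((isTop_iff w f g d).mp hfd).1
    by_cases hD : D = d
    · subst hD
      rw [comp_eq_self w D g h1]
      exact ⟨hQp ▸ Ideal.subset_span hg, f, hf, hfd⟩
    · rw [comp_eq_zero w D d hD g h1]
      exact ⟨Qp.zero_mem, 0, I'.zero_mem, isTop_zero w D⟩
  | zero => exact hzero
  | add x y _ _ hx hy => exact hadd x y hx hy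
  | smul a x _ hx =>
    rw [smul_eq_mul]
    induction a using MvPolynomial.induction_on' with
    | monomial m c =>
      intro D
      rcases Nat.lt_or_ge D (wt w m) with h | h
      · rw [comp_monomial_mul_of_lt w D m c x h]
        exact ⟨Qp.zero_mem, 0, I'.zero_mem, isTop_zero w D⟩
      · obtain ⟨d, rfl⟩ := Nat.exists_eq_add_of_le h
        obtain ⟨h1, f, hf, h2⟩ := hx d
        rw [comp_monomial_mul]
        exact ⟨Qp.mul_mem_left _ h1, _, I'.mul_mem_left _ hf, isTop_monomial_mul h2 m c⟩
    | add p q hp hq =>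
      rw [add_mul]
      exact hadd _ _ hp hq

end TopAux

open TopAux in
/-- J5: if top forms of elements of `K` can be reduced to polynomials in the variables `Z` and no
element of `K` has a nonzero polynomial in the variables `Z` as top form, then `K ≤ I'`. -/
theorem le_of_top (w : σ → ℕ) (K I' Qp : Ideal (MvPolynomial σ k)) (G : Set (MvPolynomial σ k))
    (Z : Set σ) (hIK : I' ≤ K) (hQp : Qp = Ideal.span G)
    (hG : ∀ g ∈ G, ∃ f ∈ I', ∃ d, IsTop w f g d)
    (H1 : ∀ p : MvPolynomial σ k, ∃ t ∈ supported k Z, Hom w t ∧ NZD Qp t ∧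
      ∃ P ∈ supported k Z, t * p - P ∈ Qp)
    (H2 : ∀ h ∈ K, ∀ P ∈ supported k Z, ∀ d, IsTop w h P d → P = 0) : K ≤ I' := by
  have key : ∀ d : ℕ, ∀ h ∈ K, (∀ e, d ≤ wt w e → coeff e h = 0) → h ∈ I' := by
    intro d
    induction d with
    | zero =>
      intro h _ h0
      have : h = 0 := by
        ext e
        rw [coeff_zero]
        exact h0 e (Nat.zero_le _)
      rw [this]
      exact I'.zero_mem
    | succ d ih =>
      intro h hK hd
      have htop : IsTop w h (comp w d h) d := by
        rw [isTop_iff]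
        refine ⟨fun e he => by rw [coeff_comp, if_neg he], fun e he => ?_⟩
        rw [coeff_comp]
        split_ifs with h1
        · rfl
        · exact hd e (by omega)
      obtain ⟨t, htZ, ⟨e, he⟩, hnzd, P, hPZ, hq⟩ := H1 (comp w d h)
      obtain ⟨hqD, f, hfI, hftop⟩ := lemmaA w I' Qp G hQp hG _ hq (e + d)
      have hmul : IsTop w (t * h) (t * comp w d h) (e + d) := isTop_hom_mul htop he
      have hself : comp w (e + d) (t * comp w d h) = t * comp w d h :=
        comp_eq_self w _ _ ((isTop_iff w _ _ _).mp hmul).1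
      rw [comp_sub, hself] at hqD hftop
      have hP0 : comp w (e + d) P = 0 := by
        apply H2 (t * h - f) (K.sub_mem (K.mul_mem_left _ hK) (hIK hfI)) _
          (comp_supported w _ Z P hPZ) (e + d)
        have := isTop_sub hmul hftop
        rwa [sub_sub_cancel] at this
      rw [hP0, sub_zero] at hqD
      have hτ := hnzd _ hqD
      obtain ⟨-, f', hf'I, hf'top⟩ := lemmaA w I' Qp G hQp hG _ hτ d
      rw [comp_eq_self w d (comp w d h) ((isTop_iff w _ _ _).mp htop).1] at hf'top
      have hfin : h - f' ∈ I' := by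
        apply ih (h - f') (K.sub_mem hK (hIK hf'I))
        intro e' he'
        rw [coeff_sub, ((isTop_iff w _ _ _).mp htop).2 e' he',
          ((isTop_iff w _ _ _).mp hf'top).2 e' he', sub_self]
      have : h = (h - f') + f' := by ring
      rw [this]
      exact I'.add_mem hfin hf'I
  intro h hK
  apply key (h.support.sup (wt w) + 1) h hK
  intro e he
  by_contra hne
  have := Finset.le_sup (f := wt w) (mem_support_iff.mpr hne)
  omega

end Pool.Agent.Helper97.Hilb8
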