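import Pool.Agent.Helper97.Hilb8.Pts2

/-!
# The points argument: the prime ideal of the relations between the initial forms
-/

universe u

namespace Pool.Agent.Helper97.Hilb8

open MvPolynomial

/-- Data for the valuation given by 8 monomial points (with a set `U` of variables whose initial
forms do not vanish, among them a transcendence basis `Z`). -/
structure PtsData2 (C : Chart) where
  /-- exponents of `T` (first weights) -/
  al : Fin 8 → Fin 4 → ℕ
  /-- exponents of `S` (second weights) -/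
  be : Fin 8 → Fin 4 → ℕ
  /-- weights of the variables -/
  w : Fin (8 * C.nb) → ℕ
  WO : ℕ
  /-- row and column potentials for the determinants of the variables -/
  p : Fin (8 * C.nb) → Fin 8 → ℤ
  q : Fin (8 * C.nb) → Fin 8 → ℤ
  /-- potentials for the basis determinant -/
  p0 : Fin 8 → ℤ
  q0 : Fin 8 → ℤ
  /-- number of variables with unique optimum -/
  m : ℕ
  U : Fin m → Fin (8 * C.nb)
  /-- transcendence basis -/
  Z : Fin 32 → Fin m
  /-- optimal permutations -/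
  sg0 : Equiv.Perm (Fin 8)
  sg : Fin m → Equiv.Perm (Fin 8)
  /-- second potentials -/
  p0' : Fin 8 → ℤ
  q0' : Fin 8 → ℤ
  p' : Fin m → Fin 8 → ℤ
  q' : Fin m → Fin 8 → ℤ
  /-- inverse of the exponent matrix up to the factor `c` -/
  G : Fin 8 → Fin 4 → Fin 32 → ℤ
  c : ℤ

namespace PtsData2

variable {C : Chart} (D : PtsData2 C)

/-- The conditions on the data. -/
structure Valid : Prop where
  Z_inj : Function.Injective fun z => D.U (D.Z z)
  sum_w : ∀ v, ∑ j, D.p v j + ∑ c, D.q v c = D.w v + D.WO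
  le_w : ∀ (v : Fin (8 * C.nb)) j c, PtsData.pr C D.al j (PtsData.col C v c) ≤ D.p v j + D.q v c
  sum_0 : ∑ j, D.p0 j + ∑ c, D.q0 c = D.WO
  le_0 : ∀ j (c : Fin 8), PtsData.pr C D.al j c ≤ D.p0 j + D.q0 c
  tight_0 : ∀ j, PtsData.pr C D.al j (D.sg0 j) = D.p0 j + D.q0 (D.sg0 j) ∧
    PtsData.pr C D.be j (D.sg0 j) = D.p0' j + D.q0' (D.sg0 j)
  strict_0 : ∀ j c, c ≠ D.sg0 j → PtsData.pr C D.al j (c : ℕ) = D.p0 j + D.q0 c →
    PtsData.pr C D.be j (c : ℕ) < D.p0' j + D.q0' c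
  tight : ∀ u j, PtsData.pr C D.al j (PtsData.col C (D.U u) (D.sg u j)) =
      D.p (D.U u) j + D.q (D.U u) (D.sg u j) ∧
    PtsData.pr C D.be j (PtsData.col C (D.U u) (D.sg u j)) = D.p' u j + D.q' u (D.sg u j)
  strict : ∀ u j c, c ≠ D.sg u j →
    PtsData.pr C D.al j (PtsData.col C (D.U u) c) = D.p (D.U u) j + D.q (D.U u) c →
    PtsData.pr C D.be j (PtsData.col C (D.U u) c) < D.p' u j + D.q' u c
  c_ne : D.c ≠ 0
  indep : ∀ z z' : Fin 32, ∑ j, ∑ i,
    ((C.mono (PtsData.col C (D.U (D.Z z)) (D.sg (D.Z z) j)) i : ℤ) -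
      (C.mono (D.sg0 j) i : ℤ)) * D.G j i z' = if z = z' then D.c else 0

end PtsData2

namespace Pts3

/-- Clearing denominators. -/
theorem clear {σ : Type*} [Fintype σ] {k : Type*} [Field k] {R : Type*} [CommRing R]
    {F : Type*} [Field F] (ι : R →+* F) (φ : k →+* R) (a : σ → R) (a0 : R) (h0 : ι a0 ≠ 0)
    (h : MvPolynomial σ k) (N : ℕ) (hN : ∀ m ∈ h.support, ∑ v, m v ≤ N) :
    MvPolynomial.eval₂Hom (ι.comp φ) (fun v => ι (a v) / ι a0) h * ι a0 ^ N =
      ι (∑ m ∈ h.support, φ (coeff m h) * ((∏ v, a v ^ m v) * a0 ^ (N - ∑ v, m v))) := by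
  rw [map_sum, MvPolynomial.coe_eval₂Hom, MvPolynomial.eval₂_eq', Finset.sum_mul]
  refine Finset.sum_congr rfl fun m hm => ?_
  rw [map_mul, map_mul, map_prod, RingHom.comp_apply, mul_assoc]
  congr 1
  have h2 : ∏ i, (ι (a i) / ι a0) ^ m i =
      (∏ v, ι (a v) ^ m v) / ι a0 ^ (∑ v, m v) := by
    rw [← Finset.prod_pow_eq_pow_sum, ← Finset.prod_div_distrib]
    refine Finset.prod_congr rfl fun v _ => ?_
    rw [div_pow]
  rw [h2]
  simp only [map_pow]
  have h3 : N = (N - ∑ v, m v) + ∑ v, m v := by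
    have := hN m hm
    omega
  conv_lhs => rw [h3, pow_add]
  field_simp

/-- The underlying data with index set `Fin 32`. -/
def base {C : Chart} (D : PtsData2 C) : PtsData C where
  al := D.al
  be := D.be
  w := D.w
  WO := D.WO
  p := D.p
  q := D.q
  p0 := D.p0
  q0 := D.q0
  Z := fun z => D.U (D.Z z)
  sg0 := D.sg0
  sg := fun z => D.sg (D.Z z)
  p0' := D.p0'
  q0' := D.q0'
  p' := fun z => D.p' (D.Z z)
  q' := fun z => D.q' (D.Z z)
  G := D.G
  c := D.c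

theorem base_valid {C : Chart} {D : PtsData2 C} (hD : D.Valid) : (base D).Valid where
  Z_inj := hD.Z_inj
  sum_w := hD.sum_w
  le_w := hD.le_w
  sum_0 := hD.sum_0
  le_0 := hD.le_0
  tight_0 := hD.tight_0
  strict_0 := hD.strict_0
  tight := fun z => hD.tight (D.Z z)
  strict := fun z => hD.strict (D.Z z)
  c_ne := hD.c_ne
  indep := hD.indep

/-- First level: the top forms of the kernel give relations between the leading coefficients. -/
theorem level1 (C : Chart) (D : PtsData C) (hD : D.Valid) (k : Type u) [Field k]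
    (h : MvPolynomial (Fin (8 * C.nb)) k) (N : ℕ) (hN : ∀ m ∈ h.support, ∑ v, m v ≤ N)
    (H0 : ∑ m ∈ h.support, Pts.CC k (coeff m h) *
      ((∏ v : Fin (8 * C.nb), Pts.dg (Pts.mon D k) (PtsData.col C v) ^ m v) *
        Pts.dg0 (Pts.mon D k) ^ (N - ∑ v, m v)) = 0)
    (P : MvPolynomial (Fin (8 * C.nb)) k) (d : ℕ) (hT : IsTop D.w h P d) :
    ∑ m ∈ P.support, (Polynomial.C (MvPolynomial.C (coeff m P)) : Polynomial (Pts.U k)) *
      ((∏ v : Fin (8 * C.nb), Pts.Lc D k (PtsData.col C v) (D.w v + D.WO) ^ m v) *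
        Pts.Lc D k (fun c => (c : ℕ)) D.WO ^ (N - ∑ v, m v)) = 0 := by
  classical
  have l10 : Pts.LeadAt D.WO (Pts.dt D k (fun c => (c : ℕ)))
      (Pts.Lc D k (fun c => (c : ℕ)) D.WO) := Pts.lead1 k hD.sum_0 hD.le_0
  have l1 : ∀ v : Fin (8 * C.nb), Pts.LeadAt (D.w v + D.WO) (Pts.dt D k (PtsData.col C v))
      (Pts.Lc D k (PtsData.col C v) (D.w v + D.WO)) := fun v =>
    Pts.lead1 k (by rw [hD.sum_w v]; push_cast; rfl) (hD.le_w v)
  have hwt : ∀ m : Fin (8 * C.nb) →₀ ℕ, wt D.w m = ∑ v, m v * D.w v := by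
    intro m
    rw [wt, Finsupp.sum_fintype]
    intro i
    rw [zero_mul]
  have hlead : ∀ m ∈ h.support, Pts.LeadAt (wt D.w m + N * D.WO)
      ((∏ v : Fin (8 * C.nb), Pts.dt D k (PtsData.col C v) ^ m v) *
        Pts.dt D k (fun c => (c : ℕ)) ^ (N - ∑ v, m v))
      ((∏ v : Fin (8 * C.nb), Pts.Lc D k (PtsData.col C v) (D.w v + D.WO) ^ m v) *
      Pts.Lc D k (fun c => (c : ℕ)) D.WO ^ (N - ∑ v, m v)) := by
    intro m hm
    have h1 := (Pts.LeadAt.prod Finset.univ (fun v _ => (l1 v).pow (m v))).mul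
      (l10.pow (N - ∑ v, m v))
    have h2 : ∑ v, m v * (D.w v + D.WO) + (N - ∑ v, m v) * D.WO = wt D.w m + N * D.WO := by
      rw [hwt]
      simp only [mul_add, Finset.sum_add_distrib]
      rw [← Finset.sum_mul, add_assoc, ← add_mul, Nat.add_sub_cancel' (hN m hm)]
    rw [h2] at h1
    exact h1
  have hcoef := congrArg (fun f : Pts.PS k => f.coeff (d + N * D.WO)) H0
  simp only [Polynomial.finset_sum_coeff, Polynomial.coeff_zero] at hcoef
  have hterm : ∀ m ∈ h.support, (Pts.CC k (coeff m h) *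
      ((∏ v : Fin (8 * C.nb), Pts.dg (Pts.mon D k) (PtsData.col C v) ^ m v) *
        Pts.dg0 (Pts.mon D k) ^ (N - ∑ v, m v))).coeff (d + N * D.WO) =
      if m ∈ P.support then
        (Polynomial.C (MvPolynomial.C (coeff m P)) : Polynomial (Pts.U k)) *
          ((∏ v : Fin (8 * C.nb), Pts.Lc D k (PtsData.col C v) (D.w v + D.WO) ^ m v) *
            Pts.Lc D k (fun c => (c : ℕ)) D.WO ^ (N - ∑ v, m v)) else 0 := by
    intro m hm
    have h1 : (Pts.CC k (coeff m h) *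
      ((∏ v : Fin (8 * C.nb), Pts.dg (Pts.mon D k) (PtsData.col C v) ^ m v) *
        Pts.dg0 (Pts.mon D k) ^ (N - ∑ v, m v))).coeff (d + N * D.WO) =
        (Polynomial.C (MvPolynomial.C (coeff m h)) : Polynomial (Pts.U k)) *
        ((∏ v : Fin (8 * C.nb), Pts.dt D k (PtsData.col C v) ^ m v) *
        Pts.dt D k (fun c => (c : ℕ)) ^ (N - ∑ v, m v)).coeff (d + N * D.WO) :=
      Polynomial.coeff_C_mul _
    rw [h1]
    by_cases hmP : m ∈ P.support
    · rw [if_pos hmP]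
      have hd := hT.1 m hmP
      have h2 := (hlead m hm).2
      rw [hd] at h2
      rw [h2]
      have h3 : coeff m h = coeff m P := by
        have h4 : m ∉ (h - P).support := fun h4 => by
          have := hT.2 m h4
          omega
        rw [MvPolynomial.notMem_support_iff, MvPolynomial.coeff_sub] at h4
        exact sub_eq_zero.1 h4
      rw [h3]
    · rw [if_neg hmP]
      have h4 : m ∈ (h - P).support := by
        rw [MvPolynomial.mem_support_iff, MvPolynomial.coeff_sub,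
          MvPolynomial.notMem_support_iff.1 hmP, sub_zero]
        exact MvPolynomial.mem_support_iff.1 hm
      have h5 := hT.2 m h4
      rw [(hlead m hm).coeff_of_lt (by omega), mul_zero]
  rw [Finset.sum_congr rfl hterm] at hcoef
  rw [← hcoef, ← Finset.sum_filter]
  refine Finset.sum_congr ?_ fun _ _ => rfl
  ext m
  rw [Finset.mem_filter]
  constructor
  · intro hm
    refine ⟨?_, hm⟩
    have hd := hT.1 m hm
    have h4 : m ∉ (h - P).support := fun h4 => by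
      have := hT.2 m h4
      omega
    rw [MvPolynomial.notMem_support_iff, MvPolynomial.coeff_sub] at h4
    rw [MvPolynomial.mem_support_iff, sub_eq_zero.1 h4]
    exact MvPolynomial.mem_support_iff.1 hm
  · exact fun hm => hm.2

/-- Second level: independence of the leading coefficients of the transcendence basis. -/
theorem level2 (C : Chart) (D : PtsData C) (hD : D.Valid) (k : Type u) [Field k]
    (P : MvPolynomial (Fin (8 * C.nb)) k) (N : ℕ) (hN : ∀ m ∈ P.support, ∑ v, m v ≤ N)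
    (hP : P ∈ supported k (Set.range D.Z))
    (H1 : ∑ m ∈ P.support, (Polynomial.C (MvPolynomial.C (coeff m P)) : Polynomial (Pts.U k)) *
      ((∏ v : Fin (8 * C.nb), Pts.Lc D k (PtsData.col C v) (D.w v + D.WO) ^ m v) *
        Pts.Lc D k (fun c => (c : ℕ)) D.WO ^ (N - ∑ v, m v)) = 0) : P = 0 := by
  classical
  by_contra hP0
  have l20 : Pts.LeadAt (∑ j, Pts.prN C D.be j (D.sg0 j)) (Pts.Lc D k (fun c => (c : ℕ)) D.WO)
      (Pts.sm k ((Equiv.Perm.sign D.sg0 : ℤˣ) : ℤ) (Pts.EE C (fun c => (c : ℕ)) D.sg0)) :=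
    Pts.lead2 k hD.sum_0 hD.le_0 hD.tight_0 hD.strict_0
  have l2 : ∀ z : Fin 32, Pts.LeadAt (∑ j, Pts.prN C D.be j (PtsData.col C (D.Z z) (D.sg z j)))
      (Pts.Lc D k (PtsData.col C (D.Z z)) (D.w (D.Z z) + D.WO))
      (Pts.sm k ((Equiv.Perm.sign (D.sg z) : ℤˣ) : ℤ)
        (Pts.EE C (PtsData.col C (D.Z z)) (D.sg z))) := fun z =>
    Pts.lead2 k (by rw [hD.sum_w (D.Z z)]; push_cast; rfl) (hD.le_w (D.Z z)) (hD.tight z)
      (hD.strict z)
  have hsupp : ∀ m ∈ P.support, ∀ v, v ∉ Set.range D.Z → m v = 0 := by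
    intro m hm v hv
    by_contra hmv
    apply hv
    rw [MvPolynomial.mem_supported] at hP
    apply hP
    rw [Finset.mem_coe, MvPolynomial.mem_vars]
    exact ⟨m, hm, Finsupp.mem_support_iff.2 hmv⟩
  have hsumZ : ∀ m ∈ P.support, ∑ z, m (D.Z z) = ∑ v, m v := by
    intro m hm
    exact Fintype.sum_of_injective D.Z hD.Z_inj _ _ (fun v hv => hsupp m hm v hv) (fun _ => rfl)
  obtain ⟨W', hW'⟩ : ∃ W' : Fin 32 → ℕ, ∀ z, W' z =
      ∑ j, Pts.prN C D.be j (PtsData.col C (D.Z z) (D.sg z j)) := ⟨_, fun _ => rfl⟩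
  obtain ⟨W0, hW0⟩ : ∃ W0 : ℕ, W0 = ∑ j, Pts.prN C D.be j (D.sg0 j) := ⟨_, rfl⟩
  obtain ⟨deg2, hdeg2⟩ : ∃ deg2 : (Fin (8 * C.nb) →₀ ℕ) → ℕ, ∀ m, deg2 m =
      ∑ z, m (D.Z z) * W' z + (N - ∑ v, m v) * W0 := ⟨_, fun _ => rfl⟩
  obtain ⟨sgn, hsgn⟩ : ∃ sgn : (Fin (8 * C.nb) →₀ ℕ) → ℤ, ∀ m, sgn m =
      (∏ z, ((Equiv.Perm.sign (D.sg z) : ℤˣ) : ℤ) ^ m (D.Z z)) *
        ((Equiv.Perm.sign D.sg0 : ℤˣ) : ℤ) ^ (N - ∑ v, m v) := ⟨_, fun _ => rfl⟩
  obtain ⟨Ex, hEx⟩ : ∃ Ex : (Fin (8 * C.nb) →₀ ℕ) → ((Fin 8 × Fin 4) →₀ ℕ), ∀ m, Ex m =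
      ∑ z, m (D.Z z) • Pts.EE C (PtsData.col C (D.Z z)) (D.sg z) +
        (N - ∑ v, m v) • Pts.EE C (fun c => (c : ℕ)) D.sg0 := ⟨_, fun _ => rfl⟩
  have hlead2 : ∀ m ∈ P.support, Pts.LeadAt (deg2 m)
      ((∏ v : Fin (8 * C.nb), Pts.Lc D k (PtsData.col C v) (D.w v + D.WO) ^ m v) *
        Pts.Lc D k (fun c => (c : ℕ)) D.WO ^ (N - ∑ v, m v)) (Pts.sm k (sgn m) (Ex m)) := by
    intro m hm
    have h1 := (Pts.LeadAt.prod Finset.univ (fun z _ => (l2 z).pow (m (D.Z z)))).mul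
      (l20.pow (N - ∑ v, m v))
    simp only [Pts.sm_pow, Pts.sm_prod, Pts.sm_mul] at h1
    simp only [← hW', ← hW0] at h1
    rw [← hdeg2, ← hsgn, ← hEx] at h1
    have h2 : ∏ z, Pts.Lc D k (PtsData.col C (D.Z z)) (D.w (D.Z z) + D.WO) ^ m (D.Z z) =
        ∏ v : Fin (8 * C.nb), Pts.Lc D k (PtsData.col C v) (D.w v + D.WO) ^ m v :=
      Fintype.prod_of_injective D.Z hD.Z_inj _ _
        (fun v hv => by rw [hsupp m hm v hv, pow_zero]) (fun _ => rfl)
    rw [h2] at h1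
    exact h1
  have hsgn1 : ∀ m, sgn m = 1 ∨ sgn m = -1 := by
    intro m
    rw [hsgn, ← Int.isUnit_iff]
    refine IsUnit.mul ?_ ((Units.isUnit _).pow _)
    rw [← Finset.prod_congr rfl fun z _ => Units.val_pow_eq_pow_val _ _]
    rw [← Units.coe_prod]
    exact Units.isUnit _
  have hinjEx : ∀ m ∈ P.support, ∀ m' ∈ P.support, Ex m = Ex m' → m = m' := by
    intro m hm m' hm' heq
    have key : ∀ m ∈ P.support, ∀ z', (∑ j, ∑ i, (Ex m (j, i) : ℤ) * D.G j i z') =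
        m (D.Z z') * D.c + N * ∑ j, ∑ i, (C.mono (D.sg0 j) i : ℤ) * D.G j i z' := by
      intro m hm z'
      have h1 : ∀ j i, (Ex m (j, i) : ℤ) = ∑ z, (m (D.Z z) : ℤ) *
          ((C.mono (PtsData.col C (D.Z z) (D.sg z j)) i : ℤ) - (C.mono (D.sg0 j) i : ℤ)) +
          N * (C.mono (D.sg0 j) i : ℤ) := by
        intro j i
        rw [hEx, Finsupp.add_apply, Finsupp.finsetSum_apply]
        simp only [Finsupp.smul_apply, Pts.EE_apply, smul_eq_mul]
        push_cast [Nat.cast_sub (hN m hm)]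
        simp only [mul_sub, Finset.sum_sub_distrib]
        rw [← Finset.sum_mul]
        have h2 : (∑ z, (m (D.Z z) : ℤ)) = ∑ v, (m v : ℤ) := by exact_mod_cast hsumZ m hm
        rw [h2]
        ring
      have h3 : (∑ j, ∑ i, (Ex m (j, i) : ℤ) * D.G j i z') =
          ∑ z, (m (D.Z z) : ℤ) * (∑ j, ∑ i,
            ((C.mono (PtsData.col C (D.Z z) (D.sg z j)) i : ℤ) - (C.mono (D.sg0 j) i : ℤ)) *
              D.G j i z') + N * ∑ j, ∑ i, (C.mono (D.sg0 j) i : ℤ) * D.G j i z' := by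
        simp only [h1, add_mul, Finset.sum_add_distrib]
        congr 1
        · simp only [Finset.sum_mul, Finset.mul_sum]
          conv_rhs => rw [Finset.sum_comm]
          refine Finset.sum_congr rfl fun j _ => ?_
          conv_rhs => rw [Finset.sum_comm]
          refine Finset.sum_congr rfl fun i _ => ?_
          refine Finset.sum_congr rfl fun z _ => ?_
          ring
        · simp only [Finset.mul_sum, mul_assoc]
      rw [h3]
      simp only [hD.indep, mul_ite, mul_zero, Finset.sum_ite_eq', Finset.mem_univ, if_true]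
    have hz : ∀ z', m (D.Z z') = m' (D.Z z') := by
      intro z'
      have h1 := key m hm z'
      rw [heq, key m' hm' z'] at h1
      have h2 : (m' (D.Z z') : ℤ) * D.c = m (D.Z z') * D.c := by linarith
      have h3 := mul_right_cancel₀ hD.c_ne h2
      exact_mod_cast h3.symm
    ext v
    by_cases hv : v ∈ Set.range D.Z
    · obtain ⟨z, rfl⟩ := hv
      exact hz z
    · rw [hsupp m hm v hv, hsupp m' hm' v hv]
  obtain ⟨m0, hm0, hmax⟩ := Finset.exists_max_image P.support deg2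
    (Finset.nonempty_iff_ne_empty.2 fun h => hP0 (MvPolynomial.support_eq_empty.1 h))
  have hcoef := congrArg (fun f : Polynomial (Pts.U k) => coeff (Ex m0) (f.coeff (deg2 m0))) H1
  simp only [Polynomial.finset_sum_coeff, Polynomial.coeff_zero, MvPolynomial.coeff_sum,
    MvPolynomial.coeff_zero] at hcoef
  rw [Finset.sum_eq_single m0] at hcoef
  · rw [Polynomial.coeff_C_mul, (hlead2 m0 hm0).2, Pts.coeff_C_mul_sm, if_pos rfl] at hcoef
    have h1 := MvPolynomial.mem_support_iff.1 hm0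
    rcases hsgn1 m0 with h2 | h2
    · rw [h2] at hcoef
      apply h1
      simpa using hcoef
    · rw [h2] at hcoef
      apply h1
      simpa using hcoef
  · intro m hm hne
    rw [Polynomial.coeff_C_mul]
    rcases lt_or_eq_of_le (hmax m hm) with h1 | h1
    · rw [(hlead2 m hm).coeff_of_lt h1, mul_zero, MvPolynomial.coeff_zero]
    · rw [← h1, (hlead2 m hm).2, Pts.coeff_C_mul_sm, if_neg]
      intro h2
      exact hne (hinjEx m hm m0 hm0 h2)
  · intro h
    exact absurd hm0 h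

/-- The leading coefficient at the second level is not zero. -/
theorem ne_zero_of_leadAt {k : Type*} [Field k] {n : ℕ} {f : Polynomial (Pts.U k)}
    {s : Equiv.Perm (Fin 8)} {e : (Fin 8 × Fin 4) →₀ ℕ}
    (hf : Pts.LeadAt n f (Pts.sm k ((Equiv.Perm.sign s : ℤˣ) : ℤ) e)) : f ≠ 0 := by
  intro h
  have h2 := hf.2
  rw [h, Polynomial.coeff_zero] at h2
  have h3 := congrArg (coeff e) h2
  rw [Pts.sm, MvPolynomial.coeff_smul, MvPolynomial.coeff_monomial, if_pos rfl,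
    MvPolynomial.coeff_zero] at h3
  rcases Int.units_eq_one_or (Equiv.Perm.sign s) with h4 | h4 <;> simp [h4] at h3

end Pts3

/-- PTS3: the prime ideal `K` of the points and the prime ideal `P` of the relations between the
initial forms of the coordinates. -/
theorem exists_pts_kernel2 (C : Chart) (D : PtsData2 C) (hD : D.Valid) (k : Type u) [Field k] :
    ∃ K P : Ideal (MvPolynomial (Fin (8 * C.nb)) k), K.IsPrime ∧ P.IsPrime ∧ C.ideal k ≤ K ∧
      (∀ h ∈ K, ∀ τ d, IsTop D.w h τ d → τ ∈ P) ∧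
      (∀ p ∈ supported k (Set.range fun z => D.U (D.Z z)), p ∈ P → p = 0) ∧
      ∀ u, X (D.U u) ∉ P := by
  classical
  have hD1 := Pts3.base_valid hD
  obtain ⟨D1, hDD⟩ : ∃ D1 : PtsData C, D1 = Pts3.base D := ⟨_, rfl⟩
  have l10 : Pts.LeadAt D1.WO (Pts.dt D1 k (fun c => (c : ℕ)))
      (Pts.Lc D1 k (fun c => (c : ℕ)) D1.WO) := by
    subst hDD
    exact Pts.lead1 k hD1.sum_0 hD1.le_0
  have l20 : Pts.LeadAt (∑ j, Pts.prN C D.be j (D.sg0 j)) (Pts.Lc D1 k (fun c => (c : ℕ)) D1.WO)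
      (Pts.sm k ((Equiv.Perm.sign D.sg0 : ℤˣ) : ℤ) (Pts.EE C (fun c => (c : ℕ)) D.sg0)) := by
    subst hDD
    exact Pts.lead2 k hD1.sum_0 hD1.le_0 hD1.tight_0 hD1.strict_0
  have l2 : ∀ u : Fin D.m, Pts.LeadAt
      (∑ j, Pts.prN C D.be j (PtsData.col C (D.U u) (D.sg u j)))
      (Pts.Lc D1 k (PtsData.col C (D.U u)) (D1.w (D.U u) + D1.WO))
      (Pts.sm k ((Equiv.Perm.sign (D.sg u) : ℤˣ) : ℤ)
        (Pts.EE C (PtsData.col C (D.U u)) (D.sg u))) := by
    intro u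
    subst hDD
    exact Pts.lead2 (D := Pts3.base D) k (by rw [hD1.sum_w (D.U u)]; push_cast; rfl)
      (hD1.le_w (D.U u)) (hD.tight u) (hD.strict u)
  have hw : D1.w = D.w := by rw [hDD]; rfl
  have hZ : (fun z => D.U (D.Z z)) = D1.Z := by rw [hDD]; rfl
  have hval : D1.Valid := by rw [hDD]; exact hD1
  have hL0 : Pts.Lc D1 k (fun c => (c : ℕ)) D1.WO ≠ 0 := Pts3.ne_zero_of_leadAt l20
  have hne0 : Pts.dt D1 k (fun c => (c : ℕ)) ≠ 0 := by
    intro h
    have h1 := l10.2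
    rw [h, Polynomial.coeff_zero] at h1
    exact hL0 h1.symm
  obtain ⟨F, _, ι, hinj⟩ := Pts.exists_frac (Pts.PS k)
  obtain ⟨F₂, _, ι₂, hinj₂⟩ := Pts.exists_frac (Polynomial (Pts.U k))
  have hι₂ : ∀ x, x ≠ 0 → ι₂ x ≠ 0 := fun x hx h => hx (hinj₂ (h.trans (map_zero _).symm))
  have hne : ι (Pts.dg0 (Pts.mon D1 k)) ≠ 0 := by
    intro h
    exact hne0 (hinj (h.trans (map_zero _).symm))
  obtain ⟨φ₂, hφ₂⟩ : ∃ φ₂ : k →+* Polynomial (Pts.U k), φ₂ =
      (Polynomial.C : Pts.U k →+* Polynomial (Pts.U k)).comp MvPolynomial.C := ⟨_, rfl⟩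
  obtain ⟨ev₂, hev₂⟩ : ∃ ev₂ : MvPolynomial (Fin (8 * C.nb)) k →+* F₂, ev₂ =
      MvPolynomial.eval₂Hom (ι₂.comp φ₂) (fun v : Fin (8 * C.nb) =>
        ι₂ (Pts.Lc D1 k (PtsData.col C v) (D1.w v + D1.WO)) /
          ι₂ (Pts.Lc D1 k (fun c => (c : ℕ)) D1.WO)) := ⟨_, rfl⟩
  refine ⟨RingHom.ker (Pts.ev (Pts.mon D1 k) ι (Pts.CC k) C), RingHom.ker ev₂,
    RingHom.ker_isPrime _, RingHom.ker_isPrime _,
    Pts.ideal_le _ _ _ (Pts.xx D1 k) hne (fun j i c => Pts.mon_nxt D1 k j i c), ?_, ?_, ?_⟩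
  · intro h hh τ d hT
    rw [RingHom.mem_ker] at hh
    obtain ⟨N, hN⟩ : ∃ N, ∀ m ∈ h.support, ∑ v, m v ≤ N :=
      ⟨h.support.sup fun m => ∑ v, m v, fun m hm => Finset.le_sup (f := fun m => ∑ v, m v) hm⟩
    have H0 := Pts.ev_clear (Pts.mon D1 k) ι (Pts.CC k) hinj hne h hh N hN
    have H1 := Pts3.level1 C D1 hval k h N hN H0 τ d (by rw [hw]; exact hT)
    have hsub : ∀ m ∈ τ.support, m ∈ h.support := by
      intro m hm
      have hd := hT.1 m hm
      have h4 : m ∉ (h - τ).support := fun h4 => by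
        have := hT.2 m h4
        omega
      rw [MvPolynomial.notMem_support_iff, MvPolynomial.coeff_sub] at h4
      rw [MvPolynomial.mem_support_iff, sub_eq_zero.1 h4]
      exact MvPolynomial.mem_support_iff.1 hm
    have H2 := Pts3.clear ι₂ φ₂ (fun v : Fin (8 * C.nb) =>
      Pts.Lc D1 k (PtsData.col C v) (D1.w v + D1.WO))
      (Pts.Lc D1 k (fun c => (c : ℕ)) D1.WO) (hι₂ _ hL0) τ N fun m hm => hN m (hsub m hm)
    rw [RingHom.mem_ker]
    have H3 : (∑ m ∈ τ.support, φ₂ (coeff m τ) *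
        ((∏ v : Fin (8 * C.nb), Pts.Lc D1 k (PtsData.col C v) (D1.w v + D1.WO) ^ m v) *
          Pts.Lc D1 k (fun c => (c : ℕ)) D1.WO ^ (N - ∑ v, m v))) = 0 := by
      rw [hφ₂]
      exact H1
    rw [H3, map_zero, ← hev₂] at H2
    exact (mul_eq_zero.1 H2).resolve_right (pow_ne_zero _ (hι₂ _ hL0))
  · intro p hp hpP
    rw [RingHom.mem_ker] at hpP
    obtain ⟨N, hN⟩ : ∃ N, ∀ m ∈ p.support, ∑ v, m v ≤ N :=
      ⟨p.support.sup fun m => ∑ v, m v, fun m hm => Finset.le_sup (f := fun m => ∑ v, m v) hm⟩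
    have H2 := Pts3.clear ι₂ φ₂ (fun v : Fin (8 * C.nb) =>
      Pts.Lc D1 k (PtsData.col C v) (D1.w v + D1.WO))
      (Pts.Lc D1 k (fun c => (c : ℕ)) D1.WO) (hι₂ _ hL0) p N hN
    rw [← hev₂, hpP, zero_mul] at H2
    have H3 := hinj₂ ((map_zero ι₂).trans H2)
    rw [hφ₂] at H3
    rw [hZ] at hp
    exact Pts3.level2 C D1 hval k p N hN hp H3.symm
  · intro u hu
    rw [RingHom.mem_ker, hev₂, MvPolynomial.eval₂Hom_X', div_eq_zero_iff] at hu
    rcases hu with hu | hu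
    · exact hι₂ _ (Pts3.ne_zero_of_leadAt (l2 u)) hu
    · exact hι₂ _ hL0 hu

end Pool.Agent.Helper97.Hilb8
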