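import Pool.Agent.Helper97.Hilb8.GB

/-!
Associated primes and facets (parts PR1 and PR2).
-/

namespace Pool.Agent.Helper97.Hilb8

open MvPolynomial

variable {σ : Type*} [DecidableEq σ] {k : Type*} [Field k]

namespace Prime30

/-- the colon ideal of an element -/
def col {R : Type*} [CommRing R] (Q : Ideal R) (x : R) : Ideal R where
  carrier := {a | a * x ∈ Q}
  add_mem' := by
    intro a b ha hb
    change (a + b) * x ∈ Q
    rw [add_mul]
    exact Q.add_mem ha hb
  zero_mem' := by
    change (0 : R) * x ∈ Q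
    rw [zero_mul]
    exact Q.zero_mem
  smul_mem' := by
    intro c a ha
    change (c * a) * x ∈ Q
    rw [mul_assoc]
    exact Q.mul_mem_left _ ha

theorem exists_max {τ : Type*} (lt : τ → τ → Prop) (lt_trans : ∀ a b c, lt a b → lt b c → lt a c)
    (lt_total : ∀ a b, a ≠ b → lt a b ∨ lt b a) (s : Finset τ) (hs : s.Nonempty) :
    ∃ m ∈ s, ∀ e ∈ s, e ≠ m → lt e m := by
  classical
  induction hs using Finset.Nonempty.cons_induction with
  | singleton a =>
    refine ⟨a, Finset.mem_singleton_self a, ?_⟩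
    intro e he hne
    exact absurd (Finset.mem_singleton.1 he) hne
  | cons a s ha hs ih =>
    obtain ⟨m, hm, hmax⟩ := ih
    have ham : a ≠ m := fun h => ha (h ▸ hm)
    rcases lt_total a m ham with h | h
    · refine ⟨m, Finset.mem_cons.2 (Or.inr hm), ?_⟩
      intro e he hne
      rcases Finset.mem_cons.1 he with rfl | he
      · exact h
      · exact hmax e he hne
    · refine ⟨a, Finset.mem_cons_self a s, ?_⟩
      intro e he hne
      rcases Finset.mem_cons.1 he with he | he
      · exact absurd he hne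
      · by_cases hem : e = m
        · rw [hem]; exact h
        · exact lt_trans _ _ _ (hmax e he hem) h

end Prime30

open Prime30

/-- PR1: associated primes. -/
theorem exists_prime_colon [Finite σ] (Q : Ideal (MvPolynomial σ k)) (p : MvPolynomial σ k)
    (hp : p ∉ Q) : ∃ r, r * p ∉ Q ∧
      ∀ a b, a * b * (r * p) ∈ Q → a * (r * p) ∈ Q ∨ b * (r * p) ∈ Q := by
  let S : Set (Ideal (MvPolynomial σ k)) := {I | ∃ r, r * p ∉ Q ∧ I = col Q (r * p)}
  have hS : S.Nonempty := ⟨_, 1, by rwa [one_mul], rfl⟩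
  obtain ⟨I, ⟨r, hr, rfl⟩, hmax⟩ := WellFounded.has_min
    (wellFounded_gt : WellFounded ((· > ·) : Ideal (MvPolynomial σ k) →
      Ideal (MvPolynomial σ k) → Prop)) S hS
  refine ⟨r, hr, ?_⟩
  intro a b hab
  by_contra hcon
  rw [not_or] at hcon
  obtain ⟨h1, h2⟩ := hcon
  have h3 : a * r * p ∉ Q := by rwa [mul_assoc]
  refine hmax (col Q (a * r * p)) ⟨a * r, h3, rfl⟩ ?_
  refine lt_of_le_of_ne ?_ ?_
  · intro c hc
    change c * (a * r * p) ∈ Q
    have : c * (a * r * p) = a * (c * (r * p)) := by ring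
    rw [this]
    exact Q.mul_mem_left _ hc
  · intro heq
    apply h2
    have h4 : b ∈ col Q (a * r * p) := by
      change b * (a * r * p) ∈ Q
      have : b * (a * r * p) = a * b * (r * p) := by ring
      rw [this]
      exact hab
    rw [← heq] at h4
    exact h4

/-- PR2: facets.  `lt` is a strict total order on exponent vectors that is compatible with
addition and refines the weight `κ`. -/
theorem exists_facet [Finite σ] {ι : Type*} [Finite ι] (κ : σ → ℕ) (α : ι → MvPolynomial σ k)
    (L : ι → σ →₀ ℕ) (hlead : ∀ i, IsLead κ (α i) (L i)) (hok : ∀ i j, OK κ ∅ α L i j)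
    (hsq : ∀ i v, L i v ≤ 1) (lt : (σ →₀ ℕ) → (σ →₀ ℕ) → Prop)
    (lt_irrefl : ∀ a, ¬ lt a a) (lt_trans : ∀ a b c, lt a b → lt b c → lt a c)
    (lt_total : ∀ a b, a ≠ b → lt a b ∨ lt b a) (lt_add : ∀ a b c, lt a b → lt (a + c) (b + c))
    (lt_wt : ∀ a b, wt κ a < wt κ b → lt a b)
    (p : MvPolynomial σ k) (hp : p ∉ Ideal.span (Set.range α)) :
    ∃ F : Set σ, (∀ i, ¬ (∀ v, L i v ≠ 0 → v ∈ F)) ∧
      (∀ v, v ∉ F → ∃ i, L i v ≠ 0 ∧ ∀ u, u ≠ v → L i u ≠ 0 → u ∈ F) ∧
      ∀ q : MvPolynomial σ k, q * p ∈ Ideal.span (Set.range α) → ∀ e ∈ q.support,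
        (∀ e' ∈ q.support, e' ≠ e → lt e' e) → ¬ (∀ v ∈ e.support, v ∈ F) := by
  classical
  have hE : ∀ u ∈ (∅ : Set σ), κ u = 0 := fun u hu => absurd hu (Set.notMem_empty u)
  obtain ⟨ν, r, hν, hpr, hred⟩ := GB.RP_all κ ∅ hE α L hlead p
  have hν0 : ν = 0 := by
    ext v
    exact (GB.unitMon_iff.1 hν) v (Set.notMem_empty v)
  rw [hν0] at hpr
  have h1 : monomial (0 : σ →₀ ℕ) (1 : k) = 1 := rfl
  rw [h1, one_mul] at hpr
  have hr0 : r ≠ 0 := by
    intro h
    rw [h, sub_zero] at hpr
    exact hp hpr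
  obtain ⟨m, hm, hmmax⟩ := exists_max lt lt_trans lt_total r.support (support_nonempty.2 hr0)
  have hm' := mem_support_iff.1 hm
  have hbase : ∀ i, ¬ (∀ v, L i v ≠ 0 → v ∈ {v | m v ≠ 0}) := by
    intro i hi
    apply hred m hm'
    refine ⟨i, fun v _ => ?_⟩
    by_cases h2 : L i v = 0
    · rw [h2]; exact Nat.zero_le _
    · have h3 : m v ≠ 0 := hi v h2
      have h4 := hsq i v
      omega
  obtain ⟨F, hmF, hF⟩ := Set.Finite.exists_le_maximal
    (s := {F : Set σ | ∀ i, ¬ (∀ v, L i v ≠ 0 → v ∈ F)}) (Set.toFinite _) hbase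
  have hF1 : ∀ i, ¬ (∀ v, L i v ≠ 0 → v ∈ F) := hF.1
  refine ⟨F, hF1, ?_, ?_⟩
  · intro v hv
    have h2 : ¬ (∀ i, ¬ (∀ u, L i u ≠ 0 → u ∈ insert v F)) := by
      intro hcon
      have h3 := hF.2 (y := insert v F) hcon (Set.subset_insert v F)
      exact hv (h3 (Set.mem_insert v F))
    push Not at h2
    obtain ⟨i, hi⟩ := h2
    refine ⟨i, ?_, ?_⟩
    · intro h0
      apply hF1 i
      intro u hu
      rcases Set.mem_insert_iff.1 (hi u hu) with h3 | h3
      · rw [h3] at hu
        exact absurd h0 hu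
      · exact h3
    · intro u huv hu
      rcases Set.mem_insert_iff.1 (hi u hu) with h3 | h3
      · exact absurd h3 huv
      · exact h3
  · intro q hq e he hemax hcon
    have hqr : q * r ∈ Ideal.span (Set.range α) := by
      have : q * r = q * p - q * (p - r) := by ring
      rw [this]
      exact Ideal.sub_mem _ hq (Ideal.mul_mem_left _ _ hpr)
    have he' := mem_support_iff.1 he
    have key : ∀ a b : σ →₀ ℕ, coeff a q ≠ 0 → coeff b r ≠ 0 → (a = e ∧ b = m) ∨
        lt (a + b) (e + m) := by
      intro a b ha hb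
      have ha' := mem_support_iff.2 ha
      have hb' := mem_support_iff.2 hb
      by_cases h2 : a = e
      · by_cases h3 : b = m
        · exact Or.inl ⟨h2, h3⟩
        · right
          have := lt_add _ _ e (hmmax b hb' h3)
          rw [h2, add_comm e b, add_comm e m]
          exact this
      · right
        have h4 := lt_add _ _ b (hemax a ha' h2)
        by_cases h3 : b = m
        · rw [h3] at h4 ⊢
          exact h4
        · have h5 := lt_add _ _ e (hmmax b hb' h3)
          rw [add_comm b e, add_comm m e] at h5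
          exact lt_trans _ _ _ h4 h5
    have hco : coeff (e + m) (q * r) = coeff e q * coeff m r := by
      rw [coeff_mul]
      refine Finset.sum_eq_single (e, m) ?_ ?_
      · rintro ⟨a, b⟩ hab hne
        rw [Finset.HasAntidiagonal.mem_antidiagonal] at hab
        by_contra hc
        have ha := left_ne_zero_of_mul hc
        have hb := right_ne_zero_of_mul hc
        rcases key a b ha hb with ⟨h2, h3⟩ | h2
        · exact hne (by rw [h2, h3])
        · simp only at hab
          rw [hab] at h2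
          exact lt_irrefl _ h2
      · intro h2
        exfalso
        apply h2
        rw [Finset.HasAntidiagonal.mem_antidiagonal]
    have hmem : e + m ∈ (q * r).support := by
      rw [mem_support_iff, hco]
      exact mul_ne_zero he' hm'
    have hmax : ∀ e' ∈ (q * r).support, wt κ e' ≤ wt κ (e + m) := by
      intro e' he'
      by_contra hlt
      have h2 := lt_wt _ _ (not_le.1 hlt)
      rw [mem_support_iff, coeff_mul] at he'
      obtain ⟨⟨a, b⟩, hab, hne⟩ := Finset.exists_ne_zero_of_sum_ne_zero he'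
      rw [Finset.HasAntidiagonal.mem_antidiagonal] at hab
      simp only at hab
      rcases key a b (left_ne_zero_of_mul hne) (right_ne_zero_of_mul hne) with ⟨h3, h4⟩ | h3
      · rw [h3, h4] at hab
        rw [← hab] at h2
        exact lt_irrefl _ h2
      · rw [hab] at h3
        exact lt_irrefl _ (lt_trans _ _ _ h2 h3)
    obtain ⟨i, hi⟩ := lead_of_mem κ ∅ hE α L hlead hok (q * r)
      ⟨0, GB.unit_zero ∅, by rw [h1, one_mul]; exact hqr⟩ (e + m) hmem hmax
    apply hF1 i
    intro v hv
    have h2 := hi v (Set.notMem_empty v)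
    rw [Finsupp.add_apply] at h2
    by_cases h3 : m v = 0
    · apply hcon v
      rw [Finsupp.mem_support_iff]
      omega
    · exact hmF h3

end Pool.Agent.Helper97.Hilb8
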