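import Mathlib

/-!
PE: a prime ideal `P` with `Q ≤ P` equals `Q` if the associated primes of `Q` are under control.
-/

namespace Pool.Agent.Helper97.Hilb8

open MvPolynomial

variable {σ : Type*} [DecidableEq σ] {k : Type*} [Field k]

/-- PE: a prime ideal `P` with `Q ≤ P` equals `Q` if the associated primes of `Q` are under
control: for every `p ∉ Q` there is an elimination over a set `Z`, and the corresponding
eliminations are nondegenerate modulo `P`. -/
theorem le_of_elim [Finite σ] (P Q : Ideal (MvPolynomial σ k)) [P.IsPrime] (hQP : Q ≤ P)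
    {ι : Type*} (Z : ι → Set σ) (U : ι → Set σ)
    (hZ : ∀ i, ∀ p ∈ supported k (Z i), p ∈ P → p = 0)
    (helim : ∀ i (p : MvPolynomial σ k), ∃ t ∈ supported k (Z i),
      (∃ (b : MvPolynomial σ k) (M : σ →₀ ℕ), (∀ v ∈ M.support, v ∈ U i) ∧
        t * b - monomial M 1 ∈ Q) ∧ ∃ q ∈ supported k (Z i), t * p - q ∈ Q)
    (hass : ∀ p, p ∉ Q → ∃ r, r * p ∉ Q ∧
      (∀ a b, a * b * (r * p) ∈ Q → a * (r * p) ∈ Q ∨ b * (r * p) ∈ Q) ∧
      ∃ i, ∀ u ∈ U i, X u * (r * p) ∉ Q) : P ≤ Q := by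
  intro p hp
  by_contra hpQ
  obtain ⟨r, hr, hprime, i, hu⟩ := hass p hpQ
  obtain ⟨t, ht, ⟨b, M, hM, htb⟩, q, hq, htq⟩ := helim i (r * p)
  have hmul : ∀ a b : MvPolynomial σ k, a * (r * p) ∉ Q → b * (r * p) ∉ Q →
      a * b * (r * p) ∉ Q := fun a b ha hb h => (hprime a b h).elim ha hb
  have hone : (1 : MvPolynomial σ k) * (r * p) ∉ Q := by rwa [one_mul]
  have hpow : ∀ a : MvPolynomial σ k, a * (r * p) ∉ Q → ∀ e : ℕ, a ^ e * (r * p) ∉ Q := by
    intro a ha e
    induction e with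
    | zero => rwa [pow_zero]
    | succ e ih => rw [pow_succ]; exact hmul _ _ ih ha
  have hmon : (monomial M 1 : MvPolynomial σ k) * (r * p) ∉ Q := by
    rw [monomial_eq, C_1, one_mul, Finsupp.prod]
    exact Finset.prod_induction (fun v => (X v : MvPolynomial σ k) ^ M v)
      (fun a => a * (r * p) ∉ Q) (fun a b => hmul a b) hone
      (fun v hv => hpow _ (hu v (hM v hv)) _)
  have htg : t * (r * p) ∉ Q := by
    intro h
    apply hmon
    have h1 : b * (t * (r * p)) - (t * b - monomial M 1) * (r * p) ∈ Q :=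
      Q.sub_mem (Q.mul_mem_left _ h) (Q.mul_mem_right _ htb)
    have h2 : b * (t * (r * p)) - (t * b - monomial M 1) * (r * p)
        = monomial M 1 * (r * p) := by ring
    rwa [h2] at h1
  have hqP : q ∈ P := by
    have h1 : t * (r * p) - (t * (r * p) - q) ∈ P :=
      P.sub_mem (P.mul_mem_left _ (P.mul_mem_left _ hp)) (hQP htq)
    rwa [sub_sub_cancel] at h1
  have hq0 : q = 0 := hZ i q hq hqP
  rw [hq0, sub_zero] at htq
  exact htg htq

end Pool.Agent.Helper97.Hilb8
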