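import Mathlib

/-!
# Transfer of transcendence bases

If the variables of `Z0` are algebraically independent modulo a prime ideal `P`, if every variable
is, modulo `P`, a quotient of two polynomials in the variables of `Z`, and if `Z` has at most as
many elements as `Z0`, then the variables of `Z` are algebraically independent modulo `P`.
-/

namespace Pool.Agent.Helper97.Hilb8

open MvPolynomial

variable {σ : Type*} [DecidableEq σ] {k : Type*} [Field k]

omit [DecidableEq σ] in
/-- A family of variables is algebraically independent modulo `P` iff `P` contains no nonzero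
polynomial in these variables. -/
theorem Trd.indep_iff (P : Ideal (MvPolynomial σ k)) (Z : Finset σ) :
    AlgebraicIndependent k (fun z : Z => Ideal.Quotient.mkₐ k P (X (z : σ))) ↔
      ∀ p ∈ supported k (Z : Set σ), p ∈ P → p = 0 := by
  classical
  have key : ∀ q : MvPolynomial Z k,
      aeval (fun z : Z => Ideal.Quotient.mkₐ k P (X (z : σ))) q =
        Ideal.Quotient.mkₐ k P (rename (fun z : Z => (z : σ)) q) := by
    intro q
    have h : aeval (fun z : Z => Ideal.Quotient.mkₐ k P (X (z : σ))) =
        (Ideal.Quotient.mkₐ k P).comp (rename (fun z : Z => (z : σ))) := by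
      ext z
      simp
    rw [h]
    rfl
  rw [algebraicIndependent_iff]
  constructor
  · intro h p hp hpP
    rw [supported_eq_range_rename] at hp
    obtain ⟨q, rfl⟩ := hp
    have h1 := h q (by
      rw [key]
      exact Ideal.Quotient.eq_zero_iff_mem.2 hpP)
    rw [h1]
    simp
  · intro h q hq
    rw [key] at hq
    have hq' : rename (fun z : Z => (z : σ)) q ∈ P := Ideal.Quotient.eq_zero_iff_mem.1 hq
    have h1 := h _ (by
      rw [supported_eq_range_rename]
      exact ⟨q, rfl⟩) hq'
    exact rename_injective _ Subtype.val_injective (by rw [h1]; simp)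

/-- TRD: transfer of transcendence bases. -/
theorem indep_transfer [Finite σ] (P : Ideal (MvPolynomial σ k)) [P.IsPrime] (Z0 Z : Finset σ)
    (hcard : Z.card ≤ Z0.card) (h0 : ∀ p ∈ supported k (Z0 : Set σ), p ∈ P → p = 0)
    (hgen : ∀ v, ∃ t ∈ supported k (Z : Set σ), t ∉ P ∧
      ∃ q ∈ supported k (Z : Set σ), t * X v - q ∈ P) :
    ∀ p ∈ supported k (Z : Set σ), p ∈ P → p = 0 := by
  classical
  rw [← Trd.indep_iff] at h0 ⊢
  set A := MvPolynomial σ k ⧸ P with hA
  set x : Z → A := fun z => Ideal.Quotient.mkₐ k P (X (z : σ)) with hx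
  have hrange : ∀ q ∈ supported k (Z : Set σ),
      Ideal.Quotient.mkₐ k P q ∈ Algebra.adjoin k (Set.range x) := by
    intro q hq
    have h1 : Ideal.Quotient.mkₐ k P q ∈
        (supported k (Z : Set σ)).map (Ideal.Quotient.mkₐ k P) := ⟨q, hq, rfl⟩
    rw [supported, AlgHom.map_adjoin] at h1
    refine Algebra.adjoin_mono ?_ h1
    rintro _ ⟨_, ⟨v, hv, rfl⟩, rfl⟩
    exact ⟨⟨v, hv⟩, rfl⟩
  have halg : Algebra.IsAlgebraic (Algebra.adjoin k (Set.range x)) A := by
    constructor
    intro a
    obtain ⟨p, rfl⟩ := Ideal.Quotient.mk_surjective a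
    induction p using MvPolynomial.induction_on with
    | C c =>
      exact isAlgebraic_algebraMap (R := Algebra.adjoin k (Set.range x)) (A := A)
        (algebraMap k _ c)
    | add p q hp hq =>
      rw [map_add]
      exact hp.add hq
    | mul_X p v hp =>
      rw [map_mul]
      refine hp.mul ?_
      obtain ⟨t, ht, htP, q, hq, htq⟩ := hgen v
      refine ⟨Polynomial.C ⟨_, hrange t ht⟩ * Polynomial.X - Polynomial.C ⟨_, hrange q hq⟩,
        ?_, ?_⟩
      · intro h
        have h1 := congrArg (fun f => Polynomial.coeff f 1) h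
        simp only [Polynomial.coeff_sub, Polynomial.coeff_C_mul, Polynomial.coeff_X_one, mul_one,
          Polynomial.coeff_C_succ, sub_zero, Polynomial.coeff_zero] at h1
        exact htP (Ideal.Quotient.eq_zero_iff_mem.1 (congrArg Subtype.val h1))
      · simp only [map_sub, map_mul, Polynomial.aeval_C, Polynomial.aeval_X]
        have h2 := Ideal.Quotient.eq_zero_iff_mem.2 htq
        rw [map_sub, map_mul] at h2
        exact h2
  have hle := h0.lift_cardinalMk_le_trdeg
  have htriv : Module.Free k A := inferInstance
  refine (Algebra.IsAlgebraic.isTranscendenceBasis_of_lift_le_trdeg_of_finite k x ?_).1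
  refine le_trans ?_ hle
  simpa using hcard

end Pool.Agent.Helper97.Hilb8
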