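import Pool.Agent.Helper97.Hilb8.ChartDefs

/-!
# The points argument: the kernel of the evaluation at 8 monomial points
-/

universe u

namespace Pool.Agent.Helper97.Hilb8

namespace Pts

open MvPolynomial

section Lead

variable {R : Type*} [CommRing R]

/-- `f` has degree at most `n` and `l` is the coefficient of degree `n`. -/
def LeadAt (n : ℕ) (f : Polynomial R) (l : R) : Prop := f.natDegree ≤ n ∧ f.coeff n = l

theorem LeadAt.mul {n m : ℕ} {f g : Polynomial R} {l l' : R} (hf : LeadAt n f l)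
    (hg : LeadAt m g l') : LeadAt (n + m) (f * g) (l * l') :=
  ⟨Polynomial.natDegree_mul_le_of_le hf.1 hg.1, by
    rw [Polynomial.coeff_mul_add_eq_of_natDegree_le hf.1 hg.1, hf.2, hg.2]⟩

theorem LeadAt.one : LeadAt 0 (1 : Polynomial R) 1 := by
  refine ⟨by simp, by simp⟩

theorem LeadAt.pow {n : ℕ} {f : Polynomial R} {l : R} (hf : LeadAt n f l) (m : ℕ) :
    LeadAt (m * n) (f ^ m) (l ^ m) := by
  induction m with
  | zero => simpa using LeadAt.one
  | succ m ih =>
    have := ih.mul hf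
    rw [pow_succ, pow_succ, Nat.succ_mul]
    exact this

theorem LeadAt.prod {ι : Type*} [DecidableEq ι] (s : Finset ι) {n : ι → ℕ}
    {f : ι → Polynomial R} {l : ι → R} (h : ∀ i ∈ s, LeadAt (n i) (f i) (l i)) :
    LeadAt (∑ i ∈ s, n i) (∏ i ∈ s, f i) (∏ i ∈ s, l i) := by
  induction s using Finset.induction_on with
  | empty => simpa using LeadAt.one
  | insert a s ha ih =>
    rw [Finset.sum_insert ha, Finset.prod_insert ha, Finset.prod_insert ha]
    exact (h a (Finset.mem_insert_self a s)).mul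
      (ih fun i hi => h i (Finset.mem_insert_of_mem hi))

theorem LeadAt.coeff_of_lt {n N : ℕ} {f : Polynomial R} {l : R} (hf : LeadAt n f l)
    (h : n < N) : f.coeff N = 0 :=
  Polynomial.coeff_eq_zero_of_natDegree_lt (lt_of_le_of_lt hf.1 h)

end Lead

section Gen

variable {R : Type*} [CommRing R] {C : Chart} (mn : Fin 8 → ℕ → R)

/-- The matrix with columns `κ`. -/
def Mg (κ : Fin 8 → ℕ) : Matrix (Fin 8) (Fin 8) R :=
  Matrix.of fun (j c : Fin 8) => mn j (κ c)

theorem Mg_apply (κ : Fin 8 → ℕ) (j c : Fin 8) : Mg mn κ j c = mn j (κ c) := rfl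

/-- The determinants. -/
def dg (κ : Fin 8 → ℕ) : R := (Mg mn κ).det

/-- The determinant of the basis. -/
def dg0 : R := dg mn (fun c => (c : ℕ))

theorem dg_eq (κ : Fin 8 → ℕ) : dg mn κ = ∑ σ : Equiv.Perm (Fin 8),
    ((Equiv.Perm.sign σ : ℤˣ) : ℤ) • ∏ j, mn j (κ (σ j)) := by
  unfold dg
  rw [← Matrix.det_transpose, Matrix.det_apply]
  refine Finset.sum_congr rfl fun σ _ => ?_
  rw [Units.smul_def]
  rfl

theorem updateCol_eq (C : Chart) (β : ℕ) (r : Fin 8) :
    (Mg mn (fun c => (c : ℕ))).updateCol r (fun j => mn j (8 + β)) =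
      Mg mn (PtsData.col C (8 * β + r)) := by
  ext1 j c
  rw [Matrix.updateCol_apply]
  have h1 : (8 * β + (r : ℕ)) % 8 = r := by
    have := r.2
    omega
  have h2 : (8 * β + (r : ℕ)) / 8 = β := by
    have := r.2
    omega
  simp only [Mg, Matrix.of_apply, PtsData.col, h1, h2]
  by_cases hc : c = r
  · rw [if_pos hc, if_pos (by rw [hc])]
  · have : ¬ ((c : ℕ) = r) := fun h => hc (Fin.ext h)
    rw [if_neg hc, if_neg this]

theorem cramer_eq (C : Chart) (β : ℕ) (j : Fin 8) :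
    ∑ r : Fin 8, mn j r * dg mn (PtsData.col C (8 * β + r)) =
      dg0 mn * mn j (8 + β) := by
  have h := congrFun (Matrix.mulVec_cramer (Mg mn (fun c => (c : ℕ)))
    (fun j => mn j (8 + β))) j
  rw [Matrix.mulVec, dotProduct] at h
  simp only [Pi.smul_apply, smul_eq_mul] at h
  have h0 : dg0 mn = (Mg mn (fun c => (c : ℕ))).det := by rw [dg0, dg]
  rw [h0, ← h]
  refine Finset.sum_congr rfl fun r _ => ?_
  rw [Matrix.cramer_apply, updateCol_eq mn C, dg, Mg_apply]

variable {k : Type*} [Field k] {F : Type*} [Field F] (ι : R →+* F) (φ : k →+* R)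
  (x : Fin 8 → Fin 4 → R)

/-- The values of the coordinates. -/
noncomputable def val (C : Chart) (v : ℕ) : F := ι (dg mn (PtsData.col C v)) / ι (dg0 mn)

/-- The evaluation. -/
noncomputable def ev (C : Chart) : MvPolynomial (Fin (8 * C.nb)) k →+* F :=
  MvPolynomial.eval₂Hom (ι.comp φ) (fun v : Fin (8 * C.nb) => val mn ι C v)

theorem diag_mul (h0 : ι (dg0 mn) ≠ 0)
    (hx : ∀ j i (c : Fin 8), mn j (C.nxt i c) = x j i * mn j c) (i : Fin 4) :
    Matrix.diagonal (fun j => ι (x j i)) * (Mg mn (fun c => (c : ℕ))).map ι =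
    (Mg mn (fun c => (c : ℕ))).map ι * C.mat (val mn ι C) i := by
  ext j c
  rw [Matrix.diagonal_mul, Matrix.mul_apply, Matrix.map_apply]
  simp only [Matrix.map_apply, Mg, Matrix.of_apply, Chart.mat]
  rw [← map_mul, ← hx]
  by_cases h : C.nxt i c < 8
  · simp only [if_pos h]
    rw [Finset.sum_eq_single (⟨C.nxt i c, h⟩ : Fin 8)]
    · simp
    · intro b _ hb
      have : ¬ (C.nxt i c = (b : ℕ)) := fun h => hb (Fin.ext h.symm)
      simp [this]
    · intro h
      exact absurd (Finset.mem_univ _) h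
  · simp only [if_neg h]
    obtain ⟨β, hβ⟩ : ∃ β, C.nxt i c = 8 + β := ⟨C.nxt i c - 8, by omega⟩
    have hβ' : C.nxt i c - 8 = β := by omega
    rw [hβ', hβ]
    have h1 := congrArg ι (cramer_eq mn C β j)
    rw [map_sum, map_mul] at h1
    simp only [val]
    rw [eq_comm]
    calc ∑ x : Fin 8, ι (mn j x) *
          (ι (dg mn (PtsData.col C (8 * β + x))) / ι (dg0 mn))
        = (∑ x : Fin 8, ι (mn j x * dg mn (PtsData.col C (8 * β + x)))) /
            ι (dg0 mn) := by
          rw [Finset.sum_div]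
          refine Finset.sum_congr rfl fun x _ => ?_
          rw [map_mul, mul_div_assoc]
      _ = _ := by
          rw [h1, mul_div_cancel_left₀ _ h0]

theorem isPt_val (h0 : ι (dg0 mn) ≠ 0)
    (hx : ∀ j i (c : Fin 8), mn j (C.nxt i c) = x j i * mn j c) : C.IsPt (val mn ι C) := by
  intro i j
  have hM : IsUnit ((Mg mn (fun c => (c : ℕ))).map ι) := by
    rw [Matrix.isUnit_iff_isUnit_det, isUnit_iff_ne_zero]
    have : ((Mg mn (fun c => (c : ℕ))).map ι).det = ι (dg0 mn) := by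
      unfold dg0 dg
      rw [RingHom.map_det]
      rfl
    rw [this]
    exact h0
  refine hM.mul_left_cancel ?_
  rw [← mul_assoc, ← mul_assoc, ← diag_mul mn ι x h0 hx i, ← diag_mul mn ι x h0 hx j, mul_assoc,
    mul_assoc, ← diag_mul mn ι x h0 hx i, ← diag_mul mn ι x h0 hx j, ← mul_assoc, ← mul_assoc,
    Matrix.diagonal_mul_diagonal, Matrix.diagonal_mul_diagonal]
  congr 2
  ext
  rw [mul_comm]

theorem ev_mat (i : Fin 4) :
    (ev mn ι φ C).mapMatrix (C.mat (C.var k) i) = C.mat (val mn ι C) i := by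
  ext r c
  simp only [RingHom.mapMatrix_apply, Matrix.map_apply, Chart.mat, Matrix.of_apply]
  by_cases h : C.nxt i c < 8
  · simp only [if_pos h]
    split_ifs <;> simp
  · simp only [if_neg h]
    have h1 := C.nxt_lt i c
    have h2 : 8 * (C.nxt i c - 8) + (r : ℕ) < 8 * C.nb := by
      have := r.2
      omega
    rw [Chart.var, dif_pos h2]
    simp [ev]

theorem ideal_le (h0 : ι (dg0 mn) ≠ 0)
    (hx : ∀ j i (c : Fin 8), mn j (C.nxt i c) = x j i * mn j c) :
    C.ideal k ≤ RingHom.ker (ev mn ι φ C) := by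
  unfold Chart.ideal
  rw [Ideal.span_le]
  rintro p ⟨i, j, r, c, rfl⟩
  rw [SetLike.mem_coe, RingHom.mem_ker]
  have h1 : (ev mn ι φ C) ((C.mat (C.var k) i * C.mat (C.var k) j -
      C.mat (C.var k) j * C.mat (C.var k) i) r c) =
      ((ev mn ι φ C).mapMatrix (C.mat (C.var k) i * C.mat (C.var k) j -
      C.mat (C.var k) j * C.mat (C.var k) i)) r c := rfl
  rw [h1, map_sub, map_mul, map_mul, ev_mat, ev_mat, isPt_val mn ι x h0 hx i j, sub_self]
  rfl

/-- Clearing denominators. -/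
theorem ev_clear (hι : Function.Injective ι) (h0 : ι (dg0 mn) ≠ 0)
    (h : MvPolynomial (Fin (8 * C.nb)) k) (hh : ev mn ι φ C h = 0)
    (N : ℕ) (hN : ∀ m ∈ h.support, ∑ v, m v ≤ N) :
    ∑ m ∈ h.support, φ (coeff m h) *
      ((∏ v : Fin (8 * C.nb), dg mn (PtsData.col C v) ^ m v) * dg0 mn ^ (N - ∑ v, m v)) = 0 := by
  apply hι
  rw [map_zero, map_sum]
  have h1 : ev mn ι φ C h * ι (dg0 mn) ^ N = 0 := by
    rw [hh, zero_mul]
  rw [← h1, ev, MvPolynomial.coe_eval₂Hom, MvPolynomial.eval₂_eq', Finset.sum_mul]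
  refine Finset.sum_congr rfl fun m hm => ?_
  rw [map_mul, map_mul, map_prod, RingHom.comp_apply, mul_assoc]
  congr 1
  have h2 : ∏ i : Fin (8 * C.nb), val mn ι C i ^ m i =
      (∏ v : Fin (8 * C.nb), ι (dg mn (PtsData.col C v)) ^ m v) / ι (dg0 mn) ^ (∑ v, m v) := by
    rw [← Finset.prod_pow_eq_pow_sum, ← Finset.prod_div_distrib]
    refine Finset.prod_congr rfl fun v _ => ?_
    rw [val, div_pow]
  rw [h2]
  simp only [map_pow]
  have h3 : N = (N - ∑ v, m v) + ∑ v, m v := by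
    have := hN m hm
    omega
  conv_rhs => rw [h3, pow_add]
  field_simp

end Gen

/-- Natural number version of `pr`. -/
def prN (C : Chart) (a : Fin 8 → Fin 4 → ℕ) (j : Fin 8) (n : ℕ) : ℕ := ∑ i, a j i * C.mono n i

theorem prN_cast (C : Chart) (a : Fin 8 → Fin 4 → ℕ) (j : Fin 8) (n : ℕ) :
    (prN C a j n : ℤ) = PtsData.pr C a j n := by
  simp [prN, PtsData.pr]

/-- Exponent vector of the monomial number `n` at the point `j`. -/
noncomputable def ex (C : Chart) (j : Fin 8) (n : ℕ) : (Fin 8 × Fin 4) →₀ ℕ :=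
  ∑ i, Finsupp.single (j, i) (C.mono n i)

/-- The coefficient ring. -/
abbrev U (k : Type*) [Field k] := MvPolynomial (Fin 8 × Fin 4) k

/-- The polynomial ring. -/
abbrev PS (k : Type*) [Field k] := Polynomial (Polynomial (U k))

section
variable (k : Type*) [Field k]

/-- Monomials. -/
noncomputable def mm (A B : ℕ) (e : (Fin 8 × Fin 4) →₀ ℕ) : PS k :=
  Polynomial.monomial A (Polynomial.monomial B (MvPolynomial.monomial e 1))

theorem mm_mul (A B A' B' : ℕ) (e e' : (Fin 8 × Fin 4) →₀ ℕ) :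
    mm k A B e * mm k A' B' e' = mm k (A + A') (B + B') (e + e') := by
  simp [mm, Polynomial.monomial_mul_monomial, MvPolynomial.monomial_mul]

theorem mm_zero : mm k 0 0 0 = 1 := by
  simp [mm]

theorem mm_prod {ι : Type*} [DecidableEq ι] (s : Finset ι) (A B : ι → ℕ)
    (e : ι → (Fin 8 × Fin 4) →₀ ℕ) :
    ∏ i ∈ s, mm k (A i) (B i) (e i) = mm k (∑ i ∈ s, A i) (∑ i ∈ s, B i) (∑ i ∈ s, e i) := by
  induction s using Finset.induction_on with
  | empty => simp [mm_zero]
  | insert a s ha ih =>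
    rw [Finset.sum_insert ha, Finset.sum_insert ha, Finset.sum_insert ha, Finset.prod_insert ha,
      ih, mm_mul]

end

variable {C : Chart} (D : PtsData C) (k : Type*) [Field k]

/-- The monomial number `n` at the point `j`. -/
noncomputable def mon (j : Fin 8) (n : ℕ) : PS k :=
  mm k (prN C D.al j n) (prN C D.be j n) (ex C j n)

/-- The coordinates of the points. -/
noncomputable def xx (j : Fin 8) (i : Fin 4) : PS k :=
  mm k (D.al j i) (D.be j i) (Finsupp.single (j, i) 1)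

theorem prN_nxt (a : Fin 8 → Fin 4 → ℕ) (j : Fin 8) (i : Fin 4) (c : Fin 8) :
    prN C a j (C.nxt i c) = a j i + prN C a j c := by
  unfold prN
  rw [C.mono_nxt]
  simp only [Pi.add_apply, mul_add, Finset.sum_add_distrib]
  rw [add_comm]
  congr 1
  simp [Pi.single_apply]

theorem ex_nxt (j : Fin 8) (i : Fin 4) (c : Fin 8) :
    ex C j (C.nxt i c) = Finsupp.single (j, i) 1 + ex C j c := by
  unfold ex
  rw [C.mono_nxt]
  simp only [Pi.add_apply, Finsupp.single_add, Finset.sum_add_distrib]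
  rw [add_comm]
  congr 1
  rw [Finset.sum_eq_single i]
  · simp
  · intro b _ hb
    simp [Pi.single_apply, hb]
  · simp

theorem mon_nxt (j : Fin 8) (i : Fin 4) (c : Fin 8) :
    mon D k j (C.nxt i c) = xx D k j i * mon D k j c := by
  unfold mon xx
  rw [mm_mul, prN_nxt, prN_nxt, ex_nxt]

/-- The determinants. -/
noncomputable def dt (κ : Fin 8 → ℕ) : PS k := dg (mon D k) κ

theorem dt_eq (κ : Fin 8 → ℕ) : dt D k κ = ∑ σ : Equiv.Perm (Fin 8),
    ((Equiv.Perm.sign σ : ℤˣ) : ℤ) • mm k (∑ j, prN C D.al j (κ (σ j)))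
      (∑ j, prN C D.be j (κ (σ j))) (∑ j, ex C j (κ (σ j))) := by
  unfold dt
  rw [dg_eq]
  refine Finset.sum_congr rfl fun σ _ => ?_
  congr 1
  rw [← mm_prod]
  rfl

/-- The first leading coefficient. -/
noncomputable def Lc (κ : Fin 8 → ℕ) (W : ℕ) : Polynomial (U k) :=
  ∑ σ : Equiv.Perm (Fin 8), if ∑ j, prN C D.al j (κ (σ j)) = W then
    ((Equiv.Perm.sign σ : ℤˣ) : ℤ) • Polynomial.monomial (∑ j, prN C D.be j (κ (σ j)))
      (MvPolynomial.monomial (∑ j, ex C j (κ (σ j))) (1 : k)) else 0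

variable {D}

theorem sum_perm_le {κ : Fin 8 → ℕ} {W : ℕ} {p q : Fin 8 → ℤ}
    (hs : ∑ j, p j + ∑ c, q c = W)
    (hle : ∀ j c, PtsData.pr C D.al j (κ c) ≤ p j + q c) (σ : Equiv.Perm (Fin 8)) :
    ∑ j, prN C D.al j (κ (σ j)) ≤ W := by
  zify
  rw [← hs, ← Equiv.sum_comp σ q, ← Finset.sum_add_distrib]
  refine Finset.sum_le_sum fun j _ => ?_
  rw [prN_cast]
  exact hle j (σ j)

theorem lead1 {κ : Fin 8 → ℕ} {W : ℕ} {p q : Fin 8 → ℤ}
    (hs : ∑ j, p j + ∑ c, q c = W)
    (hle : ∀ j c, PtsData.pr C D.al j (κ c) ≤ p j + q c) :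
    LeadAt W (dt D k κ) (Lc D k κ W) := by
  constructor
  · rw [dt_eq]
    refine Polynomial.natDegree_sum_le_of_forall_le _ _ fun σ _ => ?_
    refine (Polynomial.natDegree_smul_le _ _).trans ?_
    refine (Polynomial.natDegree_monomial_le _).trans ?_
    exact sum_perm_le hs hle σ
  · rw [dt_eq, Polynomial.finset_sum_coeff]
    unfold Lc
    refine Finset.sum_congr rfl fun σ _ => ?_
    rw [Polynomial.coeff_smul, mm, Polynomial.coeff_monomial]
    split_ifs <;> simp

theorem lead2 {κ : Fin 8 → ℕ} {W : ℕ} {p q : Fin 8 → ℤ}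
    (hs : ∑ j, p j + ∑ c, q c = W)
    (hle : ∀ j c, PtsData.pr C D.al j (κ c) ≤ p j + q c)
    {sg : Equiv.Perm (Fin 8)} {p' q' : Fin 8 → ℤ}
    (tight : ∀ j, PtsData.pr C D.al j (κ (sg j)) = p j + q (sg j) ∧
      PtsData.pr C D.be j (κ (sg j)) = p' j + q' (sg j))
    (strict : ∀ j c, c ≠ sg j → PtsData.pr C D.al j (κ c) = p j + q c →
      PtsData.pr C D.be j (κ c) < p' j + q' c) :
    LeadAt (∑ j, prN C D.be j (κ (sg j))) (Lc D k κ W)
      (((Equiv.Perm.sign sg : ℤˣ) : ℤ) •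
        MvPolynomial.monomial (∑ j, ex C j (κ (sg j))) (1 : k)) := by
  -- the tight permutations
  have hsum : ∀ σ : Equiv.Perm (Fin 8), (∑ j, (p' j + q' (σ j)) : ℤ) =
      ∑ j, p' j + ∑ c, q' c := by
    intro σ
    rw [Finset.sum_add_distrib, Equiv.sum_comp σ q']
  have hW' : ((∑ j, prN C D.be j (κ (sg j)) : ℕ) : ℤ) = ∑ j, p' j + ∑ c, q' c := by
    rw [← hsum sg]
    push_cast
    refine Finset.sum_congr rfl fun j _ => ?_
    rw [prN_cast]
    exact (tight j).2
  have htight : ∀ σ : Equiv.Perm (Fin 8), ∑ j, prN C D.al j (κ (σ j)) = W →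
      ∀ j, PtsData.pr C D.al j (κ (σ j)) = p j + q (σ j) := by
    intro σ hσ j
    by_contra hne
    have hlt : PtsData.pr C D.al j (κ (σ j)) < p j + q (σ j) := lt_of_le_of_ne (hle _ _) hne
    have h1 : (∑ j, PtsData.pr C D.al j (κ (σ j)) : ℤ) < ∑ j, (p j + q (σ j)) := by
      refine Finset.sum_lt_sum (fun i _ => hle _ _) ⟨j, Finset.mem_univ _, hlt⟩
    rw [Finset.sum_add_distrib, Equiv.sum_comp σ q, hs, ← hσ] at h1
    push_cast at h1
    simp only [prN_cast] at h1
    exact lt_irrefl _ h1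
  have hlt : ∀ σ : Equiv.Perm (Fin 8), ∑ j, prN C D.al j (κ (σ j)) = W → σ ≠ sg →
      ∑ j, prN C D.be j (κ (σ j)) < ∑ j, prN C D.be j (κ (sg j)) := by
    intro σ hσ hne
    have hj : ∃ j, σ j ≠ sg j := by
      by_contra hcon
      push Not at hcon
      exact hne (Equiv.ext hcon)
    obtain ⟨j₀, hj₀⟩ := hj
    zify
    have h2 := hW'
    push_cast at h2
    rw [h2, ← hsum σ]
    simp only [prN_cast]
    refine Finset.sum_lt_sum (fun j _ => ?_) ⟨j₀, Finset.mem_univ _, ?_⟩
    · by_cases h : σ j = sg j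
      · rw [h, (tight j).2]
      · exact (strict j (σ j) h (htight σ hσ j)).le
    · exact strict j₀ (σ j₀) hj₀ (htight σ hσ j₀)
  constructor
  · unfold Lc
    refine Polynomial.natDegree_sum_le_of_forall_le _ _ fun σ _ => ?_
    split_ifs with h
    · refine (Polynomial.natDegree_smul_le _ _).trans ?_
      refine (Polynomial.natDegree_monomial_le _).trans ?_
      by_cases h' : σ = sg
      · rw [h']
      · exact (hlt σ h h').le
    · simp
  · unfold Lc
    rw [Polynomial.finset_sum_coeff, Finset.sum_eq_single sg]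
    · have h1 : ∑ j, prN C D.al j (κ (sg j)) = W := by
        zify
        rw [← hs, ← Equiv.sum_comp sg q, ← Finset.sum_add_distrib]
        refine Finset.sum_congr rfl fun j _ => ?_
        rw [prN_cast]
        exact (tight j).1
      rw [if_pos h1, Polynomial.coeff_smul, Polynomial.coeff_monomial, if_pos rfl]
    · intro σ _ hne
      split_ifs with h
      · rw [Polynomial.coeff_smul, Polynomial.coeff_monomial, if_neg (hlt σ h hne).ne, smul_zero]
      · simp
    · intro h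
      exact absurd (Finset.mem_univ _) h

variable (D)

/-- The embedding of `k`. -/
noncomputable def CC : k →+* PS k :=
  ((Polynomial.C : Polynomial (U k) →+* PS k).comp
    (Polynomial.C : U k →+* Polynomial (U k))).comp MvPolynomial.C


theorem ex_apply (j : Fin 8) (n : ℕ) (j' : Fin 8) (i : Fin 4) :
    ex C j n (j', i) = if j = j' then C.mono n i else 0 := by
  unfold ex
  rw [Finsupp.finsetSum_apply]
  by_cases h : j = j'
  · subst h
    rw [if_pos rfl, Finset.sum_eq_single i]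
    · simp
    · intro b _ hb
      rw [Finsupp.single_apply, if_neg]
      intro h
      exact hb (Prod.ext_iff.1 h).2
    · intro h
      exact absurd (Finset.mem_univ _) h
  · rw [if_neg h]
    refine Finset.sum_eq_zero fun b _ => ?_
    rw [Finsupp.single_apply, if_neg]
    intro h'
    exact h (Prod.ext_iff.1 h').1

/-- Exponent of the leading monomial. -/
noncomputable def EE (C : Chart) (κ : Fin 8 → ℕ) (sg : Equiv.Perm (Fin 8)) :
    (Fin 8 × Fin 4) →₀ ℕ := ∑ j, ex C j (κ (sg j))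

theorem EE_apply (κ : Fin 8 → ℕ) (sg : Equiv.Perm (Fin 8)) (j : Fin 8) (i : Fin 4) :
    EE C κ sg (j, i) = C.mono (κ (sg j)) i := by
  unfold EE
  rw [Finsupp.finsetSum_apply, Finset.sum_eq_single j]
  · rw [ex_apply, if_pos rfl]
  · intro b _ hb
    rw [ex_apply, if_neg hb]
  · intro h
    exact absurd (Finset.mem_univ _) h

/-- Signed monomials. -/
noncomputable def sm (a : ℤ) (e : (Fin 8 × Fin 4) →₀ ℕ) : U k := a • MvPolynomial.monomial e (1 : k)

theorem sm_mul (a b : ℤ) (e e' : (Fin 8 × Fin 4) →₀ ℕ) :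
    sm k a e * sm k b e' = sm k (a * b) (e + e') := by
  unfold sm
  rw [smul_mul_smul_comm, MvPolynomial.monomial_mul, one_mul]

theorem sm_pow (a : ℤ) (e : (Fin 8 × Fin 4) →₀ ℕ) (n : ℕ) :
    sm k a e ^ n = sm k (a ^ n) (n • e) := by
  induction n with
  | zero => simp [sm]
  | succ n ih => rw [pow_succ, ih, sm_mul, pow_succ, succ_nsmul]

theorem sm_prod {ι : Type*} [DecidableEq ι] (s : Finset ι) (a : ι → ℤ)
    (e : ι → (Fin 8 × Fin 4) →₀ ℕ) :
    ∏ i ∈ s, sm k (a i) (e i) = sm k (∏ i ∈ s, a i) (∑ i ∈ s, e i) := by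
  induction s using Finset.induction_on with
  | empty => simp [sm]
  | insert a s ha ih =>
    rw [Finset.sum_insert ha, Finset.prod_insert ha, Finset.prod_insert ha, ih, sm_mul]

theorem exists_frac (R : Type u) [CommRing R] [IsDomain R] :
    ∃ (F : Type u) (_ : Field F) (ι : R →+* F), Function.Injective ι :=
  ⟨FractionRing R, inferInstance, algebraMap R _, IsFractionRing.injective _ _⟩

theorem coeff_C_mul_sm (c : k) (a : ℤ) (e e' : (Fin 8 × Fin 4) →₀ ℕ) :
    coeff e' (MvPolynomial.C c * sm k a e) = if e = e' then c * a else 0 := by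
  unfold sm
  rw [MvPolynomial.coeff_C_mul, MvPolynomial.coeff_smul, MvPolynomial.coeff_monomial]
  split_ifs <;> simp

end Pts

open MvPolynomial in
/-- C4+IND: the kernel of the evaluation at 8 monomial points. -/
theorem exists_pts_kernel (C : Chart) (D : PtsData C) (hD : D.Valid) (k : Type u) [Field k] :
    ∃ K : Ideal (MvPolynomial (Fin (8 * C.nb)) k), K.IsPrime ∧ C.ideal k ≤ K ∧
      ∀ h ∈ K, ∀ P ∈ supported k (Set.range D.Z), ∀ d, IsTop D.w h P d → P = 0 := by
  classical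
  -- leading data of the basis determinant
  have l10 : Pts.LeadAt D.WO (Pts.dt D k (fun c => (c : ℕ)))
      (Pts.Lc D k (fun c => (c : ℕ)) D.WO) := Pts.lead1 k hD.sum_0 hD.le_0
  have l20 : Pts.LeadAt (∑ j, Pts.prN C D.be j (D.sg0 j)) (Pts.Lc D k (fun c => (c : ℕ)) D.WO)
      (Pts.sm k ((Equiv.Perm.sign D.sg0 : ℤˣ) : ℤ) (Pts.EE C (fun c => (c : ℕ)) D.sg0)) :=
    Pts.lead2 k hD.sum_0 hD.le_0 hD.tight_0 hD.strict_0
  have l1 : ∀ v : Fin (8 * C.nb), Pts.LeadAt (D.w v + D.WO) (Pts.dt D k (PtsData.col C v))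
      (Pts.Lc D k (PtsData.col C v) (D.w v + D.WO)) := fun v =>
    Pts.lead1 k (by rw [hD.sum_w v]; push_cast; rfl) (hD.le_w v)
  have l2 : ∀ z : Fin 32, Pts.LeadAt (∑ j, Pts.prN C D.be j (PtsData.col C (D.Z z) (D.sg z j)))
      (Pts.Lc D k (PtsData.col C (D.Z z)) (D.w (D.Z z) + D.WO))
      (Pts.sm k ((Equiv.Perm.sign (D.sg z) : ℤˣ) : ℤ)
        (Pts.EE C (PtsData.col C (D.Z z)) (D.sg z))) := fun z =>
    Pts.lead2 k (by rw [hD.sum_w (D.Z z)]; push_cast; rfl) (hD.le_w (D.Z z)) (hD.tight z)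
      (hD.strict z)
  have hne0 : Pts.dt D k (fun c => (c : ℕ)) ≠ 0 := by
    intro h
    have h1 := l10.2
    rw [h, Polynomial.coeff_zero] at h1
    have h2 := l20.2
    rw [← h1, Polynomial.coeff_zero] at h2
    have h3 := congrArg (coeff (Pts.EE C (fun c => (c : ℕ)) D.sg0)) h2
    rw [Pts.sm, MvPolynomial.coeff_smul, MvPolynomial.coeff_monomial, if_pos rfl,
      MvPolynomial.coeff_zero] at h3
    rcases Int.units_eq_one_or (Equiv.Perm.sign D.sg0) with h4 | h4 <;> simp [h4] at h3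
  obtain ⟨F, _, ι, hinj⟩ := Pts.exists_frac (Pts.PS k)
  have hne : ι (Pts.dg0 (Pts.mon D k)) ≠ 0 := by
    intro h
    exact hne0 (hinj (h.trans (map_zero _).symm))
  refine ⟨RingHom.ker (Pts.ev (Pts.mon D k) ι (Pts.CC k) C), RingHom.ker_isPrime _,
    Pts.ideal_le _ _ _ (Pts.xx D k) hne (fun j i c => Pts.mon_nxt D k j i c), ?_⟩
  intro h hh P hP d hT
  by_contra hP0
  rw [RingHom.mem_ker] at hh
  obtain ⟨N, hN⟩ : ∃ N, ∀ m ∈ h.support, ∑ v, m v ≤ N :=
    ⟨h.support.sup fun m => ∑ v, m v, fun m hm => Finset.le_sup (f := fun m => ∑ v, m v) hm⟩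
  have H0 := Pts.ev_clear (Pts.mon D k) ι (Pts.CC k) hinj hne h hh N hN
  have hwt : ∀ m : Fin (8 * C.nb) →₀ ℕ, wt D.w m = ∑ v, m v * D.w v := by
    intro m
    rw [wt, Finsupp.sum_fintype]
    intro i
    rw [zero_mul]
  -- first level
  have H1 : ∑ m ∈ P.support, (Polynomial.C (MvPolynomial.C (coeff m P)) : Polynomial (Pts.U k)) *
      ((∏ v : Fin (8 * C.nb), Pts.Lc D k (PtsData.col C v) (D.w v + D.WO) ^ m v) *
        Pts.Lc D k (fun c => (c : ℕ)) D.WO ^ (N - ∑ v, m v)) = 0 := by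
    have hlead : ∀ m ∈ h.support, Pts.LeadAt (wt D.w m + N * D.WO)
        ((∏ v : Fin (8 * C.nb), Pts.dt D k (PtsData.col C v) ^ m v) *
          Pts.dt D k (fun c => (c : ℕ)) ^ (N - ∑ v, m v))
        ((∏ v : Fin (8 * C.nb), Pts.Lc D k (PtsData.col C v) (D.w v + D.WO) ^ m v) *
        Pts.Lc D k (fun c => (c : ℕ)) D.WO ^ (N - ∑ v, m v)) := by
      intro m hm
      have h1 := (Pts.LeadAt.prod Finset.univ (fun v _ => (l1 v).pow (m v))).mul
        (l10.pow (N - ∑ v, m v))
      have h2 : ∑ v, m v * (D.w v + D.WO) + (N - ∑ v, m v) * D.WO = wt D.w m + N * D.WO := by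
        rw [hwt]
        simp only [mul_add, Finset.sum_add_distrib]
        rw [← Finset.sum_mul, add_assoc, ← add_mul, Nat.add_sub_cancel' (hN m hm)]
      rw [h2] at h1
      exact h1
    have hcoef := congrArg (fun f : Pts.PS k => f.coeff (d + N * D.WO)) H0
    simp only [Polynomial.finset_sum_coeff, Polynomial.coeff_zero] at hcoef
    have hterm : ∀ m ∈ h.support, (Pts.CC k (coeff m h) *
        ((∏ v : Fin (8 * C.nb), Pts.dg (Pts.mon D k) (PtsData.col C v) ^ m v) *
          Pts.dg0 (Pts.mon D k) ^ (N - ∑ v, m v))).coeff (d + N * D.WO) =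
        if m ∈ P.support then
          (Polynomial.C (MvPolynomial.C (coeff m P)) : Polynomial (Pts.U k)) *
            ((∏ v : Fin (8 * C.nb), Pts.Lc D k (PtsData.col C v) (D.w v + D.WO) ^ m v) *
              Pts.Lc D k (fun c => (c : ℕ)) D.WO ^ (N - ∑ v, m v)) else 0 := by
      intro m hm
      have h1 : (Pts.CC k (coeff m h) *
        ((∏ v : Fin (8 * C.nb), Pts.dg (Pts.mon D k) (PtsData.col C v) ^ m v) *
          Pts.dg0 (Pts.mon D k) ^ (N - ∑ v, m v))).coeff (d + N * D.WO) =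
          (Polynomial.C (MvPolynomial.C (coeff m h)) : Polynomial (Pts.U k)) *
          ((∏ v : Fin (8 * C.nb), Pts.dt D k (PtsData.col C v) ^ m v) *
          Pts.dt D k (fun c => (c : ℕ)) ^ (N - ∑ v, m v)).coeff (d + N * D.WO) :=
        Polynomial.coeff_C_mul _
      rw [h1]
      by_cases hmP : m ∈ P.support
      · rw [if_pos hmP]
        have hd := hT.1 m hmP
        have h2 := (hlead m hm).2
        rw [hd] at h2
        rw [h2]
        have h3 : coeff m h = coeff m P := by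
          have h4 : m ∉ (h - P).support := fun h4 => by
            have := hT.2 m h4
            omega
          rw [MvPolynomial.notMem_support_iff, MvPolynomial.coeff_sub] at h4
          exact sub_eq_zero.1 h4
        rw [h3]
      · rw [if_neg hmP]
        have h4 : m ∈ (h - P).support := by
          rw [MvPolynomial.mem_support_iff, MvPolynomial.coeff_sub,
            MvPolynomial.notMem_support_iff.1 hmP, sub_zero]
          exact MvPolynomial.mem_support_iff.1 hm
        have h5 := hT.2 m h4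
        rw [(hlead m hm).coeff_of_lt (by omega), mul_zero]
    rw [Finset.sum_congr rfl hterm] at hcoef
    rw [← hcoef, ← Finset.sum_filter]
    refine Finset.sum_congr ?_ fun _ _ => rfl
    ext m
    rw [Finset.mem_filter]
    constructor
    · intro hm
      refine ⟨?_, hm⟩
      have hd := hT.1 m hm
      have h4 : m ∉ (h - P).support := fun h4 => by
        have := hT.2 m h4
        omega
      rw [MvPolynomial.notMem_support_iff, MvPolynomial.coeff_sub] at h4
      rw [MvPolynomial.mem_support_iff, sub_eq_zero.1 h4]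
      exact MvPolynomial.mem_support_iff.1 hm
    · exact fun hm => hm.2
  -- second level
  have hsub : ∀ m ∈ P.support, m ∈ h.support := by
    intro m hm
    have hd := hT.1 m hm
    have h4 : m ∉ (h - P).support := fun h4 => by
      have := hT.2 m h4
      omega
    rw [MvPolynomial.notMem_support_iff, MvPolynomial.coeff_sub] at h4
    rw [MvPolynomial.mem_support_iff, sub_eq_zero.1 h4]
    exact MvPolynomial.mem_support_iff.1 hm
  have hsupp : ∀ m ∈ P.support, ∀ v, v ∉ Set.range D.Z → m v = 0 := by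
    intro m hm v hv
    by_contra hmv
    apply hv
    rw [MvPolynomial.mem_supported] at hP
    apply hP
    rw [Finset.mem_coe, MvPolynomial.mem_vars]
    exact ⟨m, hm, Finsupp.mem_support_iff.2 hmv⟩
  have hsumZ : ∀ m ∈ P.support, ∑ z, m (D.Z z) = ∑ v, m v := by
    intro m hm
    exact Fintype.sum_of_injective D.Z hD.Z_inj _ _ (fun v hv => hsupp m hm v hv) (fun _ => rfl)
  obtain ⟨W', hW'⟩ : ∃ W' : Fin 32 → ℕ, ∀ z, W' z =
      ∑ j, Pts.prN C D.be j (PtsData.col C (D.Z z) (D.sg z j)) := ⟨_, fun _ => rfl⟩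
  obtain ⟨W0, hW0⟩ : ∃ W0 : ℕ, W0 = ∑ j, Pts.prN C D.be j (D.sg0 j) := ⟨_, rfl⟩
  obtain ⟨deg2, hdeg2⟩ : ∃ deg2 : (Fin (8 * C.nb) →₀ ℕ) → ℕ, ∀ m, deg2 m =
      ∑ z, m (D.Z z) * W' z + (N - ∑ v, m v) * W0 := ⟨_, fun _ => rfl⟩
  obtain ⟨sgn, hsgn⟩ : ∃ sgn : (Fin (8 * C.nb) →₀ ℕ) → ℤ, ∀ m, sgn m =
      (∏ z, ((Equiv.Perm.sign (D.sg z) : ℤˣ) : ℤ) ^ m (D.Z z)) *
        ((Equiv.Perm.sign D.sg0 : ℤˣ) : ℤ) ^ (N - ∑ v, m v) := ⟨_, fun _ => rfl⟩
  obtain ⟨Ex, hEx⟩ : ∃ Ex : (Fin (8 * C.nb) →₀ ℕ) → ((Fin 8 × Fin 4) →₀ ℕ), ∀ m, Ex m =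
      ∑ z, m (D.Z z) • Pts.EE C (PtsData.col C (D.Z z)) (D.sg z) +
        (N - ∑ v, m v) • Pts.EE C (fun c => (c : ℕ)) D.sg0 := ⟨_, fun _ => rfl⟩
  have hlead2 : ∀ m ∈ P.support, Pts.LeadAt (deg2 m)
      ((∏ v : Fin (8 * C.nb), Pts.Lc D k (PtsData.col C v) (D.w v + D.WO) ^ m v) *
        Pts.Lc D k (fun c => (c : ℕ)) D.WO ^ (N - ∑ v, m v)) (Pts.sm k (sgn m) (Ex m)) := by
    intro m hm
    have h1 := (Pts.LeadAt.prod Finset.univ (fun z _ => (l2 z).pow (m (D.Z z)))).mul
      (l20.pow (N - ∑ v, m v))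
    simp only [Pts.sm_pow, Pts.sm_prod, Pts.sm_mul] at h1
    simp only [← hW', ← hW0] at h1
    rw [← hdeg2, ← hsgn, ← hEx] at h1
    have h2 : ∏ z, Pts.Lc D k (PtsData.col C (D.Z z)) (D.w (D.Z z) + D.WO) ^ m (D.Z z) =
        ∏ v : Fin (8 * C.nb), Pts.Lc D k (PtsData.col C v) (D.w v + D.WO) ^ m v :=
      Fintype.prod_of_injective D.Z hD.Z_inj _ _
        (fun v hv => by rw [hsupp m hm v hv, pow_zero]) (fun _ => rfl)
    rw [h2] at h1
    exact h1
  have hsgn1 : ∀ m, sgn m = 1 ∨ sgn m = -1 := by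
    intro m
    rw [hsgn, ← Int.isUnit_iff]
    refine IsUnit.mul ?_ ((Units.isUnit _).pow _)
    rw [← Finset.prod_congr rfl fun z _ => Units.val_pow_eq_pow_val _ _]
    rw [← Units.coe_prod]
    exact Units.isUnit _
  have hinjEx : ∀ m ∈ P.support, ∀ m' ∈ P.support, Ex m = Ex m' → m = m' := by
    intro m hm m' hm' heq
    have key : ∀ m ∈ P.support, ∀ z', (∑ j, ∑ i, (Ex m (j, i) : ℤ) * D.G j i z') =
        m (D.Z z') * D.c + N * ∑ j, ∑ i, (C.mono (D.sg0 j) i : ℤ) * D.G j i z' := by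
      intro m hm z'
      have h1 : ∀ j i, (Ex m (j, i) : ℤ) = ∑ z, (m (D.Z z) : ℤ) *
          ((C.mono (PtsData.col C (D.Z z) (D.sg z j)) i : ℤ) - (C.mono (D.sg0 j) i : ℤ)) +
          N * (C.mono (D.sg0 j) i : ℤ) := by
        intro j i
        rw [hEx, Finsupp.add_apply, Finsupp.finsetSum_apply]
        simp only [Finsupp.smul_apply, Pts.EE_apply, smul_eq_mul]
        push_cast [Nat.cast_sub (hN m (hsub m hm))]
        simp only [mul_sub, Finset.sum_sub_distrib]
        rw [← Finset.sum_mul]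
        have h2 : (∑ z, (m (D.Z z) : ℤ)) = ∑ v, (m v : ℤ) := by exact_mod_cast hsumZ m hm
        rw [h2]
        ring
      have h3 : (∑ j, ∑ i, (Ex m (j, i) : ℤ) * D.G j i z') =
          ∑ z, (m (D.Z z) : ℤ) * (∑ j, ∑ i,
            ((C.mono (PtsData.col C (D.Z z) (D.sg z j)) i : ℤ) - (C.mono (D.sg0 j) i : ℤ)) *
              D.G j i z') + N * ∑ j, ∑ i, (C.mono (D.sg0 j) i : ℤ) * D.G j i z' := by
        simp only [h1, add_mul, Finset.sum_add_distrib]
        congr 1
        · simp only [Finset.sum_mul, Finset.mul_sum]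
          conv_rhs => rw [Finset.sum_comm]
          refine Finset.sum_congr rfl fun j _ => ?_
          conv_rhs => rw [Finset.sum_comm]
          refine Finset.sum_congr rfl fun i _ => ?_
          refine Finset.sum_congr rfl fun z _ => ?_
          ring
        · simp only [Finset.mul_sum, mul_assoc]
      rw [h3]
      simp only [hD.indep, mul_ite, mul_zero, Finset.sum_ite_eq', Finset.mem_univ, if_true]
    have hz : ∀ z', m (D.Z z') = m' (D.Z z') := by
      intro z'
      have h1 := key m hm z'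
      rw [heq, key m' hm' z'] at h1
      have h2 : (m' (D.Z z') : ℤ) * D.c = m (D.Z z') * D.c := by linarith
      have h3 := mul_right_cancel₀ hD.c_ne h2
      exact_mod_cast h3.symm
    ext v
    by_cases hv : v ∈ Set.range D.Z
    · obtain ⟨z, rfl⟩ := hv
      exact hz z
    · rw [hsupp m hm v hv, hsupp m' hm' v hv]
  obtain ⟨m0, hm0, hmax⟩ := Finset.exists_max_image P.support deg2
    (Finset.nonempty_iff_ne_empty.2 fun h => hP0 (MvPolynomial.support_eq_empty.1 h))
  have hcoef := congrArg (fun f : Polynomial (Pts.U k) => coeff (Ex m0) (f.coeff (deg2 m0))) H1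
  simp only [Polynomial.finset_sum_coeff, Polynomial.coeff_zero, MvPolynomial.coeff_sum,
    MvPolynomial.coeff_zero] at hcoef
  rw [Finset.sum_eq_single m0] at hcoef
  · rw [Polynomial.coeff_C_mul, (hlead2 m0 hm0).2, Pts.coeff_C_mul_sm, if_pos rfl] at hcoef
    have h1 := MvPolynomial.mem_support_iff.1 hm0
    rcases hsgn1 m0 with h2 | h2
    · rw [h2] at hcoef
      apply h1
      simpa using hcoef
    · rw [h2] at hcoef
      apply h1
      simpa using hcoef
  · intro m hm hne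
    rw [Polynomial.coeff_C_mul]
    rcases lt_or_eq_of_le (hmax m hm) with h1 | h1
    · rw [(hlead2 m hm).coeff_of_lt h1, mul_zero, MvPolynomial.coeff_zero]
    · rw [← h1, (hlead2 m hm).2, Pts.coeff_C_mul_sm, if_neg]
      intro h2
      exact hne (hinjEx m hm m0 hm0 h2)
  · intro h
    exact absurd hm0 h

end Pool.Agent.Helper97.Hilb8
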