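import Pool.Agent.Helper97.Hilb8.Pts

/-!
# The points argument: one kernel for a family of data with the same points
-/

universe u

namespace Pool.Agent.Helper97.Hilb8

open MvPolynomial in
/-- The kernel of the evaluation at 8 monomial points, for a fixed embedding in a field. -/
theorem Pts2.core (C : Chart) (D : PtsData C) (hD : D.Valid) (k : Type u) [Field k]
    (F : Type u) [Field F] (ι : Pts.PS k →+* F) (hinj : Function.Injective ι) :
    C.ideal k ≤ RingHom.ker (Pts.ev (Pts.mon D k) ι (Pts.CC k) C) ∧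
      ∀ h ∈ RingHom.ker (Pts.ev (Pts.mon D k) ι (Pts.CC k) C),
        ∀ P ∈ supported k (Set.range D.Z), ∀ d, IsTop D.w h P d → P = 0 := by
  classical
  -- leading data of the basis determinant
  have l10 : Pts.LeadAt D.WO (Pts.dt D k (fun c => (c : ℕ)))
      (Pts.Lc D k (fun c => (c : ℕ)) D.WO) := Pts.lead1 k hD.sum_0 hD.le_0
  have l20 : Pts.LeadAt (∑ j, Pts.prN C D.be j (D.sg0 j)) (Pts.Lc D k (fun c => (c : ℕ)) D.WO)
      (Pts.sm k ((Equiv.Perm.sign D.sg0 : ℤˣ) : ℤ) (Pts.EE C (fun c => (c : ℕ)) D.sg0)) :=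
    Pts.lead2 k hD.sum_0 hD.le_0 hD.tight_0 hD.strict_0
  have l1 : ∀ v : Fin (8 * C.nb), Pts.LeadAt (D.w v + D.WO) (Pts.dt D k (PtsData.col C v))
      (Pts.Lc D k (PtsData.col C v) (D.w v + D.WO)) := fun v =>
    Pts.lead1 k (by rw [hD.sum_w v]; push_cast; rfl) (hD.le_w v)
  have l2 : ∀ z : Fin 32, Pts.LeadAt (∑ j, Pts.prN C D.be j (PtsData.col C (D.Z z) (D.sg z j)))
      (Pts.Lc D k (PtsData.col C (D.Z z)) (D.w (D.Z z) + D.WO))
      (Pts.sm k ((Equiv.Perm.sign (D.sg z) : ℤˣ) : ℤ)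
        (Pts.EE C (PtsData.col C (D.Z z)) (D.sg z))) := fun z =>
    Pts.lead2 k (by rw [hD.sum_w (D.Z z)]; push_cast; rfl) (hD.le_w (D.Z z)) (hD.tight z)
      (hD.strict z)
  have hne0 : Pts.dt D k (fun c => (c : ℕ)) ≠ 0 := by
    intro h
    have h1 := l10.2
    rw [h, Polynomial.coeff_zero] at h1
    have h2 := l20.2
    rw [← h1, Polynomial.coeff_zero] at h2
    have h3 := congrArg (coeff (Pts.EE C (fun c => (c : ℕ)) D.sg0)) h2
    rw [Pts.sm, MvPolynomial.coeff_smul, MvPolynomial.coeff_monomial, if_pos rfl,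
      MvPolynomial.coeff_zero] at h3
    rcases Int.units_eq_one_or (Equiv.Perm.sign D.sg0) with h4 | h4 <;> simp [h4] at h3
  have hne : ι (Pts.dg0 (Pts.mon D k)) ≠ 0 := by
    intro h
    exact hne0 (hinj (h.trans (map_zero _).symm))
  refine ⟨Pts.ideal_le _ _ _ (Pts.xx D k) hne (fun j i c => Pts.mon_nxt D k j i c), ?_⟩
  intro h hh P hP d hT
  by_contra hP0
  rw [RingHom.mem_ker] at hh
  obtain ⟨N, hN⟩ : ∃ N, ∀ m ∈ h.support, ∑ v, m v ≤ N :=
    ⟨h.support.sup fun m => ∑ v, m v, fun m hm => Finset.le_sup (f := fun m => ∑ v, m v) hm⟩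
  have H0 := Pts.ev_clear (Pts.mon D k) ι (Pts.CC k) hinj hne h hh N hN
  have hwt : ∀ m : Fin (8 * C.nb) →₀ ℕ, wt D.w m = ∑ v, m v * D.w v := by
    intro m
    rw [wt, Finsupp.sum_fintype]
    intro i
    rw [zero_mul]
  -- first level
  have H1 : ∑ m ∈ P.support, (Polynomial.C (MvPolynomial.C (coeff m P)) : Polynomial (Pts.U k)) *
      ((∏ v : Fin (8 * C.nb), Pts.Lc D k (PtsData.col C v) (D.w v + D.WO) ^ m v) *
        Pts.Lc D k (fun c => (c : ℕ)) D.WO ^ (N - ∑ v, m v)) = 0 := by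
    have hlead : ∀ m ∈ h.support, Pts.LeadAt (wt D.w m + N * D.WO)
        ((∏ v : Fin (8 * C.nb), Pts.dt D k (PtsData.col C v) ^ m v) *
          Pts.dt D k (fun c => (c : ℕ)) ^ (N - ∑ v, m v))
        ((∏ v : Fin (8 * C.nb), Pts.Lc D k (PtsData.col C v) (D.w v + D.WO) ^ m v) *
        Pts.Lc D k (fun c => (c : ℕ)) D.WO ^ (N - ∑ v, m v)) := by
      intro m hm
      have h1 := (Pts.LeadAt.prod Finset.univ (fun v _ => (l1 v).pow (m v))).mul
        (l10.pow (N - ∑ v, m v))
      have h2 : ∑ v, m v * (D.w v + D.WO) + (N - ∑ v, m v) * D.WO = wt D.w m + N * D.WO := by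
        rw [hwt]
        simp only [mul_add, Finset.sum_add_distrib]
        rw [← Finset.sum_mul, add_assoc, ← add_mul, Nat.add_sub_cancel' (hN m hm)]
      rw [h2] at h1
      exact h1
    have hcoef := congrArg (fun f : Pts.PS k => f.coeff (d + N * D.WO)) H0
    simp only [Polynomial.finset_sum_coeff, Polynomial.coeff_zero] at hcoef
    have hterm : ∀ m ∈ h.support, (Pts.CC k (coeff m h) *
        ((∏ v : Fin (8 * C.nb), Pts.dg (Pts.mon D k) (PtsData.col C v) ^ m v) *
          Pts.dg0 (Pts.mon D k) ^ (N - ∑ v, m v))).coeff (d + N * D.WO) =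
        if m ∈ P.support then
          (Polynomial.C (MvPolynomial.C (coeff m P)) : Polynomial (Pts.U k)) *
            ((∏ v : Fin (8 * C.nb), Pts.Lc D k (PtsData.col C v) (D.w v + D.WO) ^ m v) *
              Pts.Lc D k (fun c => (c : ℕ)) D.WO ^ (N - ∑ v, m v)) else 0 := by
      intro m hm
      have h1 : (Pts.CC k (coeff m h) *
        ((∏ v : Fin (8 * C.nb), Pts.dg (Pts.mon D k) (PtsData.col C v) ^ m v) *
          Pts.dg0 (Pts.mon D k) ^ (N - ∑ v, m v))).coeff (d + N * D.WO) =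
          (Polynomial.C (MvPolynomial.C (coeff m h)) : Polynomial (Pts.U k)) *
          ((∏ v : Fin (8 * C.nb), Pts.dt D k (PtsData.col C v) ^ m v) *
          Pts.dt D k (fun c => (c : ℕ)) ^ (N - ∑ v, m v)).coeff (d + N * D.WO) :=
        Polynomial.coeff_C_mul _
      rw [h1]
      by_cases hmP : m ∈ P.support
      · rw [if_pos hmP]
        have hd := hT.1 m hmP
        have h2 := (hlead m hm).2
        rw [hd] at h2
        rw [h2]
        have h3 : coeff m h = coeff m P := by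
          have h4 : m ∉ (h - P).support := fun h4 => by
            have := hT.2 m h4
            omega
          rw [MvPolynomial.notMem_support_iff, MvPolynomial.coeff_sub] at h4
          exact sub_eq_zero.1 h4
        rw [h3]
      · rw [if_neg hmP]
        have h4 : m ∈ (h - P).support := by
          rw [MvPolynomial.mem_support_iff, MvPolynomial.coeff_sub,
            MvPolynomial.notMem_support_iff.1 hmP, sub_zero]
          exact MvPolynomial.mem_support_iff.1 hm
        have h5 := hT.2 m h4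
        rw [(hlead m hm).coeff_of_lt (by omega), mul_zero]
    rw [Finset.sum_congr rfl hterm] at hcoef
    rw [← hcoef, ← Finset.sum_filter]
    refine Finset.sum_congr ?_ fun _ _ => rfl
    ext m
    rw [Finset.mem_filter]
    constructor
    · intro hm
      refine ⟨?_, hm⟩
      have hd := hT.1 m hm
      have h4 : m ∉ (h - P).support := fun h4 => by
        have := hT.2 m h4
        omega
      rw [MvPolynomial.notMem_support_iff, MvPolynomial.coeff_sub] at h4
      rw [MvPolynomial.mem_support_iff, sub_eq_zero.1 h4]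
      exact MvPolynomial.mem_support_iff.1 hm
    · exact fun hm => hm.2
  -- second level
  have hsub : ∀ m ∈ P.support, m ∈ h.support := by
    intro m hm
    have hd := hT.1 m hm
    have h4 : m ∉ (h - P).support := fun h4 => by
      have := hT.2 m h4
      omega
    rw [MvPolynomial.notMem_support_iff, MvPolynomial.coeff_sub] at h4
    rw [MvPolynomial.mem_support_iff, sub_eq_zero.1 h4]
    exact MvPolynomial.mem_support_iff.1 hm
  have hsupp : ∀ m ∈ P.support, ∀ v, v ∉ Set.range D.Z → m v = 0 := by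
    intro m hm v hv
    by_contra hmv
    apply hv
    rw [MvPolynomial.mem_supported] at hP
    apply hP
    rw [Finset.mem_coe, MvPolynomial.mem_vars]
    exact ⟨m, hm, Finsupp.mem_support_iff.2 hmv⟩
  have hsumZ : ∀ m ∈ P.support, ∑ z, m (D.Z z) = ∑ v, m v := by
    intro m hm
    exact Fintype.sum_of_injective D.Z hD.Z_inj _ _ (fun v hv => hsupp m hm v hv) (fun _ => rfl)
  obtain ⟨W', hW'⟩ : ∃ W' : Fin 32 → ℕ, ∀ z, W' z =
      ∑ j, Pts.prN C D.be j (PtsData.col C (D.Z z) (D.sg z j)) := ⟨_, fun _ => rfl⟩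
  obtain ⟨W0, hW0⟩ : ∃ W0 : ℕ, W0 = ∑ j, Pts.prN C D.be j (D.sg0 j) := ⟨_, rfl⟩
  obtain ⟨deg2, hdeg2⟩ : ∃ deg2 : (Fin (8 * C.nb) →₀ ℕ) → ℕ, ∀ m, deg2 m =
      ∑ z, m (D.Z z) * W' z + (N - ∑ v, m v) * W0 := ⟨_, fun _ => rfl⟩
  obtain ⟨sgn, hsgn⟩ : ∃ sgn : (Fin (8 * C.nb) →₀ ℕ) → ℤ, ∀ m, sgn m =
      (∏ z, ((Equiv.Perm.sign (D.sg z) : ℤˣ) : ℤ) ^ m (D.Z z)) *
        ((Equiv.Perm.sign D.sg0 : ℤˣ) : ℤ) ^ (N - ∑ v, m v) := ⟨_, fun _ => rfl⟩
  obtain ⟨Ex, hEx⟩ : ∃ Ex : (Fin (8 * C.nb) →₀ ℕ) → ((Fin 8 × Fin 4) →₀ ℕ), ∀ m, Ex m =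
      ∑ z, m (D.Z z) • Pts.EE C (PtsData.col C (D.Z z)) (D.sg z) +
        (N - ∑ v, m v) • Pts.EE C (fun c => (c : ℕ)) D.sg0 := ⟨_, fun _ => rfl⟩
  have hlead2 : ∀ m ∈ P.support, Pts.LeadAt (deg2 m)
      ((∏ v : Fin (8 * C.nb), Pts.Lc D k (PtsData.col C v) (D.w v + D.WO) ^ m v) *
        Pts.Lc D k (fun c => (c : ℕ)) D.WO ^ (N - ∑ v, m v)) (Pts.sm k (sgn m) (Ex m)) := by
    intro m hm
    have h1 := (Pts.LeadAt.prod Finset.univ (fun z _ => (l2 z).pow (m (D.Z z)))).mul
      (l20.pow (N - ∑ v, m v))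
    simp only [Pts.sm_pow, Pts.sm_prod, Pts.sm_mul] at h1
    simp only [← hW', ← hW0] at h1
    rw [← hdeg2, ← hsgn, ← hEx] at h1
    have h2 : ∏ z, Pts.Lc D k (PtsData.col C (D.Z z)) (D.w (D.Z z) + D.WO) ^ m (D.Z z) =
        ∏ v : Fin (8 * C.nb), Pts.Lc D k (PtsData.col C v) (D.w v + D.WO) ^ m v :=
      Fintype.prod_of_injective D.Z hD.Z_inj _ _
        (fun v hv => by rw [hsupp m hm v hv, pow_zero]) (fun _ => rfl)
    rw [h2] at h1
    exact h1
  have hsgn1 : ∀ m, sgn m = 1 ∨ sgn m = -1 := by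
    intro m
    rw [hsgn, ← Int.isUnit_iff]
    refine IsUnit.mul ?_ ((Units.isUnit _).pow _)
    rw [← Finset.prod_congr rfl fun z _ => Units.val_pow_eq_pow_val _ _]
    rw [← Units.coe_prod]
    exact Units.isUnit _
  have hinjEx : ∀ m ∈ P.support, ∀ m' ∈ P.support, Ex m = Ex m' → m = m' := by
    intro m hm m' hm' heq
    have key : ∀ m ∈ P.support, ∀ z', (∑ j, ∑ i, (Ex m (j, i) : ℤ) * D.G j i z') =
        m (D.Z z') * D.c + N * ∑ j, ∑ i, (C.mono (D.sg0 j) i : ℤ) * D.G j i z' := by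
      intro m hm z'
      have h1 : ∀ j i, (Ex m (j, i) : ℤ) = ∑ z, (m (D.Z z) : ℤ) *
          ((C.mono (PtsData.col C (D.Z z) (D.sg z j)) i : ℤ) - (C.mono (D.sg0 j) i : ℤ)) +
          N * (C.mono (D.sg0 j) i : ℤ) := by
        intro j i
        rw [hEx, Finsupp.add_apply, Finsupp.finsetSum_apply]
        simp only [Finsupp.smul_apply, Pts.EE_apply, smul_eq_mul]
        push_cast [Nat.cast_sub (hN m (hsub m hm))]
        simp only [mul_sub, Finset.sum_sub_distrib]
        rw [← Finset.sum_mul]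
        have h2 : (∑ z, (m (D.Z z) : ℤ)) = ∑ v, (m v : ℤ) := by exact_mod_cast hsumZ m hm
        rw [h2]
        ring
      have h3 : (∑ j, ∑ i, (Ex m (j, i) : ℤ) * D.G j i z') =
          ∑ z, (m (D.Z z) : ℤ) * (∑ j, ∑ i,
            ((C.mono (PtsData.col C (D.Z z) (D.sg z j)) i : ℤ) - (C.mono (D.sg0 j) i : ℤ)) *
              D.G j i z') + N * ∑ j, ∑ i, (C.mono (D.sg0 j) i : ℤ) * D.G j i z' := by
        simp only [h1, add_mul, Finset.sum_add_distrib]
        congr 1
        · simp only [Finset.sum_mul, Finset.mul_sum]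
          conv_rhs => rw [Finset.sum_comm]
          refine Finset.sum_congr rfl fun j _ => ?_
          conv_rhs => rw [Finset.sum_comm]
          refine Finset.sum_congr rfl fun i _ => ?_
          refine Finset.sum_congr rfl fun z _ => ?_
          ring
        · simp only [Finset.mul_sum, mul_assoc]
      rw [h3]
      simp only [hD.indep, mul_ite, mul_zero, Finset.sum_ite_eq', Finset.mem_univ, if_true]
    have hz : ∀ z', m (D.Z z') = m' (D.Z z') := by
      intro z'
      have h1 := key m hm z'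
      rw [heq, key m' hm' z'] at h1
      have h2 : (m' (D.Z z') : ℤ) * D.c = m (D.Z z') * D.c := by linarith
      have h3 := mul_right_cancel₀ hD.c_ne h2
      exact_mod_cast h3.symm
    ext v
    by_cases hv : v ∈ Set.range D.Z
    · obtain ⟨z, rfl⟩ := hv
      exact hz z
    · rw [hsupp m hm v hv, hsupp m' hm' v hv]
  obtain ⟨m0, hm0, hmax⟩ := Finset.exists_max_image P.support deg2
    (Finset.nonempty_iff_ne_empty.2 fun h => hP0 (MvPolynomial.support_eq_empty.1 h))
  have hcoef := congrArg (fun f : Polynomial (Pts.U k) => coeff (Ex m0) (f.coeff (deg2 m0))) H1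
  simp only [Polynomial.finset_sum_coeff, Polynomial.coeff_zero, MvPolynomial.coeff_sum,
    MvPolynomial.coeff_zero] at hcoef
  rw [Finset.sum_eq_single m0] at hcoef
  · rw [Polynomial.coeff_C_mul, (hlead2 m0 hm0).2, Pts.coeff_C_mul_sm, if_pos rfl] at hcoef
    have h1 := MvPolynomial.mem_support_iff.1 hm0
    rcases hsgn1 m0 with h2 | h2
    · rw [h2] at hcoef
      apply h1
      simpa using hcoef
    · rw [h2] at hcoef
      apply h1
      simpa using hcoef
  · intro m hm hne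
    rw [Polynomial.coeff_C_mul]
    rcases lt_or_eq_of_le (hmax m hm) with h1 | h1
    · rw [(hlead2 m hm).coeff_of_lt h1, mul_zero, MvPolynomial.coeff_zero]
    · rw [← h1, (hlead2 m hm).2, Pts.coeff_C_mul_sm, if_neg]
      intro h2
      exact hne (hinjEx m hm m0 hm0 h2)
  · intro h
    exact absurd hm0 h

open MvPolynomial in
/-- PTS variant: one kernel `K` for a family of data with the same points. -/
theorem exists_pts_kernel_family (C : Chart) {ι : Type*} [Nonempty ι] (D : ι → PtsData C)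
    (hD : ∀ i, (D i).Valid) (hal : ∀ i j, (D i).al = (D j).al) (hbe : ∀ i j, (D i).be = (D j).be)
    (k : Type u) [Field k] :
    ∃ K : Ideal (MvPolynomial (Fin (8 * C.nb)) k), K.IsPrime ∧ C.ideal k ≤ K ∧
      ∀ i, ∀ h ∈ K, ∀ P ∈ supported k (Set.range (D i).Z), ∀ d, IsTop (D i).w h P d → P = 0 := by
  obtain ⟨i0⟩ := ‹Nonempty ι›
  obtain ⟨F, _, f, hinj⟩ := Pts.exists_frac (Pts.PS k)
  have hmon : ∀ i, Pts.mon (D i) k = Pts.mon (D i0) k := by
    intro i
    funext j n
    unfold Pts.mon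
    rw [hal i i0, hbe i i0]
  refine ⟨RingHom.ker (Pts.ev (Pts.mon (D i0) k) f (Pts.CC k) C), RingHom.ker_isPrime _,
    (Pts2.core C (D i0) (hD i0) k F f hinj).1, ?_⟩
  intro i h hh P hP d hT
  refine (Pts2.core C (D i) (hD i) k F f hinj).2 h ?_ P hP d hT
  rw [hmon i]
  exact hh

end Pool.Agent.Helper97.Hilb8
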