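import Pool.Agent.Helper97.Hilb8.Top

/-!
# Initial forms (J5), variant with `t * p ∉ Qp`
-/

namespace Pool.Agent.Helper97.Hilb8

open MvPolynomial

variable {σ : Type*} [DecidableEq σ] {k : Type*} [Field k]

open TopAux in
/-- J5 variant: a family `𝒵` of sets `Z`, and `t * p ∉ Qp` instead of a nonzerodivisor. -/
theorem le_of_top' (w : σ → ℕ) (K I' Qp : Ideal (MvPolynomial σ k)) (G : Set (MvPolynomial σ k))
    (𝒵 : Set (Set σ)) (hIK : I' ≤ K) (hQp : Qp = Ideal.span G)
    (hG : ∀ g ∈ G, ∃ f ∈ I', ∃ d, IsTop w f g d)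
    (H1 : ∀ p : MvPolynomial σ k, p ∉ Qp → ∃ Z ∈ 𝒵, ∃ t ∈ supported k Z, Hom w t ∧
      t * p ∉ Qp ∧ ∃ P ∈ supported k Z, t * p - P ∈ Qp)
    (H2 : ∀ Z ∈ 𝒵, ∀ h ∈ K, ∀ P ∈ supported k Z, ∀ d, IsTop w h P d → P = 0) : K ≤ I' := by
  have key : ∀ d : ℕ, ∀ h ∈ K, (∀ e, d ≤ wt w e → coeff e h = 0) → h ∈ I' := by
    intro d
    induction d with
    | zero =>
      intro h _ h0
      have : h = 0 := by
        ext e
        rw [coeff_zero]
        exact h0 e (Nat.zero_le _)
      rw [this]
      exact I'.zero_mem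
    | succ d ih =>
      intro h hK hd
      have htop : IsTop w h (comp w d h) d := by
        rw [isTop_iff]
        refine ⟨fun e he => by rw [coeff_comp, if_neg he], fun e he => ?_⟩
        rw [coeff_comp]
        split_ifs with h1
        · rfl
        · exact hd e (by omega)
      have hτ : comp w d h ∈ Qp := by
        by_contra hnot
        obtain ⟨Z, hZ, t, htZ, ⟨e, he⟩, hnmem, P, hPZ, hq⟩ := H1 (comp w d h) hnot
        obtain ⟨hqD, f, hfI, hftop⟩ := lemmaA w I' Qp G hQp hG _ hq (e + d)
        have hmul : IsTop w (t * h) (t * comp w d h) (e + d) := isTop_hom_mul htop he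
        have hself : comp w (e + d) (t * comp w d h) = t * comp w d h :=
          comp_eq_self w _ _ ((isTop_iff w _ _ _).mp hmul).1
        rw [comp_sub, hself] at hqD hftop
        have hP0 : comp w (e + d) P = 0 := by
          apply H2 Z hZ (t * h - f) (K.sub_mem (K.mul_mem_left _ hK) (hIK hfI)) _
            (comp_supported w _ Z P hPZ) (e + d)
          have := isTop_sub hmul hftop
          rwa [sub_sub_cancel] at this
        rw [hP0, sub_zero] at hqD
        exact hnmem hqD
      obtain ⟨-, f', hf'I, hf'top⟩ := lemmaA w I' Qp G hQp hG _ hτ d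
      rw [comp_eq_self w d (comp w d h) ((isTop_iff w _ _ _).mp htop).1] at hf'top
      have hfin : h - f' ∈ I' := by
        apply ih (h - f') (K.sub_mem hK (hIK hf'I))
        intro e' he'
        rw [coeff_sub, ((isTop_iff w _ _ _).mp htop).2 e' he',
          ((isTop_iff w _ _ _).mp hf'top).2 e' he', sub_self]
      have : h = (h - f') + f' := by ring
      rw [this]
      exact I'.add_mem hfin hf'I
  intro h hK
  apply key (h.support.sup (wt w) + 1) h hK
  intro e he
  by_contra hne
  have := Finset.le_sup (f := wt w) (mem_support_iff.mpr hne)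
  omega

end Pool.Agent.Helper97.Hilb8
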